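import Pool.Agent.TH722.PN.Defs

/-! Degrees on the nodal curve `y ^ 2 = x ^ 2 (1 + x)`. -/

set_option autoImplicit false

namespace Pool.Agent.TH722.PN

variable {F : Type} [Field F]

theorem norm_bound {s : PowerSeries F} (hs : s ^ 2 = 1 + PowerSeries.X) {c δ : ℕ} (hδ : 2 ≤ δ)
    {A B : Polynomial F} (hA : ∀ n, A.coeff n ≠ 0 → n ≤ c) (hB : ∀ n, B.coeff n ≠ 0 → n + δ ≤ c)
    (hne : A ≠ 0 ∨ B ≠ 0) : ∃ α β : ℕ, α + β ≤ 2 * c ∧
      PowerSeries.coeff α ((A : PowerSeries F) + PowerSeries.X * s * (B : PowerSeries F)) ≠ 0 ∧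
      PowerSeries.coeff β ((A : PowerSeries F) - PowerSeries.X * s * (B : PowerSeries F)) ≠ 0 := by
  set Pp : PowerSeries F := (A : PowerSeries F) + PowerSeries.X * s * (B : PowerSeries F) with hPp
  set Pm : PowerSeries F := (A : PowerSeries F) - PowerSeries.X * s * (B : PowerSeries F) with hPm
  set R : Polynomial F := Polynomial.X ^ 2 * (1 + Polynomial.X) * B ^ 2 with hR
  set N : Polynomial F := A ^ 2 - R with hN
  have hprod : Pp * Pm = (N : PowerSeries F) := by
    rw [hPp, hPm, hN, hR]
    push_cast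
    rw [← hs]
    ring
  have h1X : (1 + Polynomial.X : Polynomial F) ≠ 0 := by
    intro h
    have := congrArg (fun p => Polynomial.coeff p 1) h
    simp [Polynomial.coeff_one] at this
  have h1Xd : (1 + Polynomial.X : Polynomial F).natDegree = 1 := by
    rw [add_comm, ← Polynomial.C_1]
    exact Polynomial.natDegree_X_add_C 1
  have hRd : B ≠ 0 → R.natDegree = 3 + 2 * B.natDegree := by
    intro hB0
    rw [hR, Polynomial.natDegree_mul (mul_ne_zero (pow_ne_zero _ Polynomial.X_ne_zero) h1X)
      (pow_ne_zero _ hB0), Polynomial.natDegree_mul (pow_ne_zero _ Polynomial.X_ne_zero) h1X,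
      Polynomial.natDegree_pow, Polynomial.natDegree_pow, Polynomial.natDegree_X, h1Xd]
  have hAd : A.natDegree ≤ c := by
    by_cases hA0 : A = 0
    · simp [hA0]
    · exact hA _ (by rw [Polynomial.coeff_natDegree]; exact Polynomial.leadingCoeff_ne_zero.2 hA0)
  have hBd : B ≠ 0 → B.natDegree + δ ≤ c := by
    intro hB0
    exact hB _ (by rw [Polynomial.coeff_natDegree]; exact Polynomial.leadingCoeff_ne_zero.2 hB0)
  have hN0 : N ≠ 0 := by
    intro h
    have h2 : A ^ 2 = R := sub_eq_zero.1 h
    by_cases hB0 : B = 0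
    · have hA0 : A ≠ 0 := by
        rcases hne with h3 | h3
        · exact h3
        · exact absurd hB0 h3
      rw [hR, hB0] at h2
      have : A ^ 2 ≠ 0 := pow_ne_zero _ hA0
      apply this
      rw [h2]
      simp
    · have h3 := congrArg Polynomial.natDegree h2
      rw [Polynomial.natDegree_pow, hRd hB0] at h3
      omega
  have hNd : N.natDegree ≤ 2 * c := by
    refine (Polynomial.natDegree_sub_le _ _).trans (max_le ?_ ?_)
    · rw [Polynomial.natDegree_pow]
      omega
    · by_cases hB0 : B = 0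
      · simp [hR, hB0]
      · rw [hRd hB0]
        have := hBd hB0
        omega
  have hNs : (N : PowerSeries F) ≠ 0 := by
    intro h
    exact hN0 (Polynomial.coe_injective F (by simpa using h))
  have hpp : Pp ≠ 0 := by
    intro h
    apply hNs
    rw [← hprod, h, zero_mul]
  have hpm : Pm ≠ 0 := by
    intro h
    apply hNs
    rw [← hprod, h, mul_zero]
  refine ⟨Pp.order.toNat, Pm.order.toNat, ?_, PowerSeries.coeff_order hpp,
    PowerSeries.coeff_order hpm⟩
  have h4 : (N : PowerSeries F).order ≤ N.natDegree := by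
    apply PowerSeries.order_le
    rw [Polynomial.coeff_coe, Polynomial.coeff_natDegree]
    exact Polynomial.leadingCoeff_ne_zero.2 hN0
  rw [← hprod, PowerSeries.order_mul, ← PowerSeries.coe_toNat_order hpp,
    ← PowerSeries.coe_toNat_order hpm] at h4
  have h5 : Pp.order.toNat + Pm.order.toNat ≤ N.natDegree := by exact_mod_cast h4
  omega

end Pool.Agent.TH722.PN
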