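import Pool.Agent.TH722.PN.Defs

/-! One variable. -/

set_option autoImplicit false

namespace Pool.Agent.TH722.PN

variable {ι J : Type} [AddCommGroup J]

namespace Base

theorem isUnit_a (a : ℚˣ) : IsUnit (PowerSeries.C (a : ℚ) + PowerSeries.X : PowerSeries ℚ) := by
  rw [PowerSeries.isUnit_iff_constantCoeff]
  simp

/-- the unit `a + X` -/
noncomputable def ua (a : ℚˣ) : (PowerSeries ℚ)ˣ := (isUnit_a a).unit

theorem ua_val (a : ℚˣ) :
    ((ua a : (PowerSeries ℚ)ˣ) : PowerSeries ℚ) = PowerSeries.C (a : ℚ) + PowerSeries.X := rfl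

/-- `(j, t) ↦ (a + X) ^ t` -/
noncomputable def mon (J : Type) [AddCommGroup J] (a : ℚˣ) :
    Multiplicative (J × ℤ) →* PowerSeries ℚ where
  toFun m := ((ua a ^ (Multiplicative.toAdd m).2 : (PowerSeries ℚ)ˣ) : PowerSeries ℚ)
  map_one' := by
    rw [toAdd_one, Prod.snd_zero, zpow_zero, Units.val_one]
  map_mul' x y := by
    rw [toAdd_mul, Prod.snd_add, zpow_add, Units.val_mul]

/-- the Taylor map at `a` -/
noncomputable def T (J : Type) [AddCommGroup J] (a : ℚˣ) :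
    AddMonoidAlgebra ℚ (J × ℤ) →ₐ[ℚ] PowerSeries ℚ :=
  AddMonoidAlgebra.lift ℚ _ (J × ℤ) (mon J a)

/-- the point `a` -/
def pt (J : Type) [AddCommGroup J] (a : ℚˣ) : Pt ℚ (J × ℤ) where
  toFun m := ((a ^ (Multiplicative.toAdd m).2 : ℚˣ) : ℚ)
  map_one' := by
    rw [toAdd_one, Prod.snd_zero, zpow_zero, Units.val_one]
  map_mul' x y := by
    rw [toAdd_mul, Prod.snd_add, zpow_add, Units.val_mul]

theorem T_single (a : ℚˣ) (m : J × ℤ) (b : ℚ) : T J a (AddMonoidAlgebra.single m b) =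
    b • ((ua a ^ m.2 : (PowerSeries ℚ)ˣ) : PowerSeries ℚ) := by
  unfold T
  rw [AddMonoidAlgebra.lift_single]
  rfl

theorem evp_single (a : ℚˣ) (m : J × ℤ) (b : ℚ) :
    evp (pt J a) (AddMonoidAlgebra.single m b) = b * ((a ^ m.2 : ℚˣ) : ℚ) := by
  unfold evp
  rw [AddMonoidAlgebra.lift_single, smul_eq_mul]
  rfl

theorem coeff_zero_ua (a : ℚˣ) (t : ℤ) :
    PowerSeries.constantCoeff (((ua a) ^ t : (PowerSeries ℚ)ˣ) : PowerSeries ℚ) =
      ((a ^ t : ℚˣ) : ℚ) := by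
  have h1 : Units.map (PowerSeries.constantCoeff (R := ℚ) : PowerSeries ℚ →* ℚ) (ua a) = a := by
    ext
    simp [ua_val]
  have h2 := congrArg (fun x => ((x ^ t : ℚˣ) : ℚ)) h1
  simp only [← map_zpow] at h2
  exact h2

theorem evp_pt (a : ℚˣ) (f : AddMonoidAlgebra ℚ (J × ℤ)) :
    evp (pt J a) f = PowerSeries.constantCoeff (T J a f) := by
  induction f using AddMonoidAlgebra.induction_linear with
  | zero => simp
  | add f g hf hg => rw [map_add, map_add, map_add, hf, hg]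
  | single m b =>
    rw [T_single, evp_single, ← PowerSeries.coeff_zero_eq_constantCoeff_apply,
      PowerSeries.coeff_smul, PowerSeries.coeff_zero_eq_constantCoeff_apply, coeff_zero_ua,
      smul_eq_mul]

theorem X_pow_dvd (a : ℚˣ) (w : ℕ) {f : AddMonoidAlgebra ℚ (J × ℤ)}
    (hf : f ∈ mI (pt J a) ^ w) : (PowerSeries.X : PowerSeries ℚ) ^ w ∣ T J a f := by
  have h1 : (mI (pt J a)) ^ w ≤
      ((Ideal.span {(PowerSeries.X : PowerSeries ℚ)}) ^ w).comap (T J a) := by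
    refine le_trans (Ideal.pow_right_mono ?_ _) (Ideal.le_comap_pow _ _)
    intro g hg
    have h2 : evp (pt J a) g = 0 := hg
    rw [evp_pt] at h2
    show T J a g ∈ Ideal.span {(PowerSeries.X : PowerSeries ℚ)}
    rw [Ideal.mem_span_singleton, PowerSeries.X_dvd_iff]
    exact h2
  have h2 := h1 hf
  rw [Ideal.mem_comap, Ideal.span_singleton_pow, Ideal.mem_span_singleton] at h2
  exact h2

/-- the polynomial with the same coefficients -/
noncomputable def Po (f : AddMonoidAlgebra ℚ (J × ℤ)) : Polynomial ℚ :=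
  ∑ m ∈ f.coeff.support, Polynomial.monomial m.2.toNat (f.coeff m)

theorem T_eq (a : ℚˣ) (f : AddMonoidAlgebra ℚ (J × ℤ)) (hf : ∀ m ∈ f.coeff.support, 0 ≤ m.2) :
    T J a f = (((Po f).comp (Polynomial.X + Polynomial.C (a : ℚ)) : Polynomial ℚ) :
      PowerSeries ℚ) := by
  have h1 : T J a f = f.coeff.sum fun m b => b • mon J a (Multiplicative.ofAdd m) := by
    unfold T
    rw [AddMonoidAlgebra.lift_apply]
  have h0 : ∀ p : Polynomial ℚ, (p : PowerSeries ℚ) = Polynomial.coeToPowerSeries.ringHom p :=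
    fun p => rfl
  rw [h1, Finsupp.sum, h0]
  unfold Po
  rw [Polynomial.sum_comp, map_sum]
  refine Finset.sum_congr rfl fun m hm => ?_
  obtain ⟨n, hn⟩ : ∃ n : ℕ, m.2 = n := Int.eq_ofNat_of_zero_le (hf m hm)
  have h2 : mon J a (Multiplicative.ofAdd m) =
      ((ua a ^ m.2 : (PowerSeries ℚ)ˣ) : PowerSeries ℚ) := rfl
  rw [h2, hn, Int.toNat_natCast, zpow_natCast, Units.val_pow_eq_pow_val, ua_val,
    Polynomial.monomial_comp, map_mul, map_pow, map_add, ← h0, ← h0, ← h0, Polynomial.coe_C,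
    Polynomial.coe_C, Polynomial.coe_X, PowerSeries.smul_eq_C_mul, add_comm]

theorem dvd_Po (a : ℚˣ) (w : ℕ) {f : AddMonoidAlgebra ℚ (J × ℤ)}
    (hs : ∀ m ∈ f.coeff.support, 0 ≤ m.2) (hf : f ∈ mI (pt J a) ^ w) :
    (Polynomial.X - Polynomial.C (a : ℚ)) ^ w ∣ Po f := by
  have h1 := X_pow_dvd a w hf
  rw [T_eq a f hs, PowerSeries.X_pow_dvd_iff] at h1
  have h2 : (Polynomial.X : Polynomial ℚ) ^ w ∣
      (Po f).comp (Polynomial.X + Polynomial.C (a : ℚ)) := by
    rw [Polynomial.X_pow_dvd_iff]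
    intro d hd
    have h3 := h1 d hd
    rwa [Polynomial.coeff_coe] at h3
  obtain ⟨q, hq⟩ := h2
  refine ⟨q.comp (Polynomial.X - Polynomial.C (a : ℚ)), ?_⟩
  have h3 := congrArg (fun r => Polynomial.comp r (Polynomial.X - Polynomial.C (a : ℚ))) hq
  simp only [Polynomial.comp_assoc, Polynomial.add_comp, Polynomial.X_comp, Polynomial.C_comp,
    sub_add_cancel, Polynomial.comp_X, Polynomial.mul_comp, Polynomial.pow_comp] at h3
  exact h3

end Base

open Base

theorem EmpS.base [Fintype ι] [Subsingleton J] {𝓕 : Set ((ι → ℕ) × Set (J × ℤ))}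
    (h : ∀ x ∈ 𝓕, ∃ L : ℝ, L < ∑ i, (x.1 i : ℝ) ∧ ∀ j t, (j, t) ∈ x.2 → 0 ≤ t ∧ (t : ℝ) ≤ L) :
    EmpS 𝓕 := by
  classical
  let e := Fintype.equivFin ι
  have hne : ∀ i : ι, ((e i : ℕ) : ℚ) + 1 ≠ 0 := fun i => by positivity
  let a : ι → ℚˣ := fun i => Units.mk0 (((e i : ℕ) : ℚ) + 1) (hne i)
  have hinj : Function.Injective fun i => ((a i : ℚˣ) : ℚ) := by
    intro i j hij
    have h1 : ((e i : ℕ) : ℚ) + 1 = ((e j : ℕ) : ℚ) + 1 := hij
    have h2 : (e i : ℕ) = (e j : ℕ) := by exact_mod_cast add_right_cancel h1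
    exact e.injective (Fin.ext h2)
  refine ⟨ℚ, inferInstance, inferInstance, fun i => pt J (a i), ?_⟩
  intro x hx f hfS hfw
  obtain ⟨L, hL, hx2⟩ := h x hx
  have hs : ∀ m ∈ f.coeff.support, 0 ≤ m.2 := fun m hm => (hx2 m.1 m.2 (hfS m hm)).1
  have hlt : ∀ m ∈ f.coeff.support, m.2.toNat < ∑ i, x.1 i := by
    intro m hm
    obtain ⟨n, hn⟩ : ∃ n : ℕ, m.2 = n := Int.eq_ofNat_of_zero_le (hs m hm)
    have h1 := (hx2 m.1 m.2 (hfS m hm)).2
    rw [hn] at h1 ⊢
    rw [Int.toNat_natCast]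
    have h2 : (n : ℝ) < ∑ i, (x.1 i : ℝ) := lt_of_le_of_lt (by exact_mod_cast h1) hL
    exact_mod_cast h2
  have hdeg : (Po f).degree < ((∑ i, x.1 i : ℕ) : WithBot ℕ) := by
    rw [← Polynomial.mem_degreeLT]
    unfold Po
    refine Submodule.sum_mem _ fun m hm => ?_
    rw [Polynomial.mem_degreeLT]
    exact lt_of_le_of_lt (Polynomial.degree_monomial_le _ _) (by exact_mod_cast hlt m hm)
  have hdvd : (∏ i, (Polynomial.X - Polynomial.C ((a i : ℚˣ) : ℚ)) ^ x.1 i) ∣ Po f := by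
    refine Fintype.prod_dvd_of_coprime ?_ fun i => dvd_Po (a i) (x.1 i) hs (hfw i)
    intro i j hij
    exact (Polynomial.pairwise_coprime_X_sub_C hinj hij).pow
  have hprod : (∏ i, (Polynomial.X - Polynomial.C ((a i : ℚˣ) : ℚ)) ^ x.1 i).degree =
      ((∑ i, x.1 i : ℕ) : WithBot ℕ) := by
    rw [Polynomial.degree_prod]
    push_cast
    refine Finset.sum_congr rfl fun i _ => ?_
    rw [Polynomial.degree_pow, Polynomial.degree_X_sub_C, nsmul_eq_mul, mul_one]
  have hP : Po f = 0 :=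
    Polynomial.eq_zero_of_dvd_of_degree_lt hdvd (by rw [hprod]; exact hdeg)
  by_contra hne0
  have hsupp : f.coeff.support.Nonempty := by
    rw [Finsupp.support_nonempty_iff]
    intro h0
    exact hne0 (AddMonoidAlgebra.coeff_eq_zero.1 h0)
  obtain ⟨m, hm⟩ := hsupp
  have h1 : (Po f).coeff m.2.toNat = f.coeff m := by
    unfold Po
    rw [Polynomial.finsetSum_coeff, Finset.sum_eq_single m]
    · rw [Polynomial.coeff_monomial, if_pos rfl]
    · intro m' hm' hmm
      rw [Polynomial.coeff_monomial, if_neg]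
      intro h2
      apply hmm
      have h3 := hs m hm
      have h4 := hs m' hm'
      exact Prod.ext (Subsingleton.elim _ _) (by omega)
    · intro hm'
      exact (hm' hm).elim
  rw [hP, Polynomial.coeff_zero] at h1
  exact (Finsupp.mem_support_iff.1 hm) h1.symm

end Pool.Agent.TH722.PN
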