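import Pool.Agent.TH722.PN.Defs

set_option autoImplicit false

namespace Pool.Agent.TH722.PN

variable {ι J M M' : Type} [AddCommGroup J] [AddCommGroup M] [AddCommGroup M']

theorem EmpS.mono {𝓕 𝓕' : Set ((ι → ℕ) × Set M)}
    (h : ∀ x ∈ 𝓕, ∃ S', (x.1, S') ∈ 𝓕' ∧ x.2 ⊆ S') (h' : EmpS 𝓕') : EmpS 𝓕 := by
  obtain ⟨K, i1, i2, p, hp⟩ := h'
  refine ⟨K, i1, i2, p, fun x hx f hf hv => ?_⟩
  obtain ⟨S', hS', hsub⟩ := h x hx
  exact hp _ hS' f (fun m hm => hsub (hf m hm)) hv

theorem EmpS.equiv (e : M ≃+ M') {𝓕 : Set ((ι → ℕ) × Set M)} {𝓕' : Set ((ι → ℕ) × Set M')}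
    (h : ∀ x ∈ 𝓕, ∃ (v : M') (S' : Set M'), (x.1, S') ∈ 𝓕' ∧ ∀ m ∈ x.2, e m + v ∈ S')
    (h' : EmpS 𝓕') : EmpS 𝓕 := by
  obtain ⟨K, i1, i2, p, hp⟩ := h'
  refine ⟨K, i1, i2, fun i => (p i).comp (AddMonoidHom.toMultiplicative e.toAddMonoidHom), ?_⟩
  intro x hx f hf hv
  obtain ⟨v, S', hS', hsub⟩ := h x hx
  set E : AddMonoidAlgebra K M ≃ₐ[K] AddMonoidAlgebra K M' := AddMonoidAlgebra.domCongr K K e
    with hE
  have hev : ∀ (q : Pt K M') (g : AddMonoidAlgebra K M),
      evp (q.comp (AddMonoidHom.toMultiplicative e.toAddMonoidHom)) g = evp q (E g) := by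
    intro q g
    have h1 : evp (q.comp (AddMonoidHom.toMultiplicative e.toAddMonoidHom)) =
        (evp q).comp (E : AddMonoidAlgebra K M →ₐ[K] AddMonoidAlgebra K M') := by
      refine AddMonoidAlgebra.algHom_ext (fun m => ?_) (by ext)
      rw [AlgHom.comp_apply]
      unfold evp
      rw [AddMonoidAlgebra.lift_single]
      show _ = AddMonoidAlgebra.lift K K M' q (AddMonoidAlgebra.domCongr K K e _)
      rw [AddMonoidAlgebra.domCongr_single, AddMonoidAlgebra.lift_single]
      rfl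
    rw [h1]
    rfl
  have hpow : ∀ (i : ι) (n : ℕ) (g : AddMonoidAlgebra K M),
      g ∈ mI ((p i).comp (AddMonoidHom.toMultiplicative e.toAddMonoidHom)) ^ n →
      E g ∈ mI (p i) ^ n := by
    intro i n g hg
    have h1 : Ideal.map (E : AddMonoidAlgebra K M →+* AddMonoidAlgebra K M')
        (mI ((p i).comp (AddMonoidHom.toMultiplicative e.toAddMonoidHom))) ≤ mI (p i) := by
      rw [Ideal.map_le_iff_le_comap]
      intro a ha
      have h2 : evp ((p i).comp (AddMonoidHom.toMultiplicative e.toAddMonoidHom)) a = 0 := ha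
      rw [hev] at h2
      exact h2
    have h3 := Ideal.mem_map_of_mem (E : AddMonoidAlgebra K M →+* AddMonoidAlgebra K M') hg
    rw [Ideal.map_pow] at h3
    exact Ideal.pow_right_mono h1 n h3
  have key := hp _ hS' (E f * AddMonoidAlgebra.single v 1) ?_ ?_
  · have h1 : E f = 0 := by
      have h2 : E f * AddMonoidAlgebra.single v 1 * AddMonoidAlgebra.single (-v) 1 = 0 := by
        rw [key, zero_mul]
      rw [mul_assoc, AddMonoidAlgebra.single_mul_single, add_neg_cancel, mul_one,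
        ← AddMonoidAlgebra.one_def, mul_one] at h2
      exact h2
    exact (map_eq_zero_iff E E.injective).1 h1
  · intro m hm
    classical
    rw [Finsupp.mem_support_iff] at hm
    have h1 : (E f * AddMonoidAlgebra.single v 1).coeff m = (E f).coeff (m - v) := by
      rw [AddMonoidAlgebra.coeff_mul_single_eq_coeff_mul (m₂ := m - v), mul_one]
      intro m' _
      constructor
      · intro h
        rw [← h, add_sub_cancel_right]
      · intro h
        rw [h, sub_add_cancel]
    rw [h1, hE, AddMonoidAlgebra.coeff_domCongr] at hm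
    have h2 := hsub _ (hf _ (Finsupp.mem_support_iff.2 hm))
    rwa [AddEquiv.apply_symm_apply, sub_add_cancel] at h2
  · intro i
    exact Ideal.mul_mem_right _ _ (hpow i _ f (hv i))

end Pool.Agent.TH722.PN
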