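import Pool.Agent.TH722.PN.Defs

/-! The cone and the two edges of a series (helper740, piece N1; the product formula is
helper147's). -/

set_option autoImplicit false

namespace Pool.Agent.TH722.PN

section nodal
variable {F : Type} [Field F]

namespace CN

/-- the summand of the product formula -/
noncomputable def sm (x y : HahnSeries ℝ (AddMonoidAlgebra F (ℤ × ℤ))) (a : ℝ) (i j : ℤ)
    (p : ℝ × (ℤ × ℤ)) : F :=
  cf x p.1 p.2.1 p.2.2 * cf y (a - p.1) (i - p.2.1) (j - p.2.2)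

lemma sm_fin (x y : HahnSeries ℝ (AddMonoidAlgebra F (ℤ × ℤ))) (a : ℝ) (i j : ℤ) :
    (Function.support (sm x y a i j)).Finite := by
  apply Set.Finite.subset (s := ⋃ q ∈ (Finset.antidiagonal x.isPWO_support y.isPWO_support a :
    Finset (ℝ × ℝ)), (fun m : ℤ × ℤ => (q.1, m)) '' ((x.coeff q.1).coeff.support : Set (ℤ × ℤ)))
  · exact Set.Finite.biUnion (Finset.finite_toSet _)
      fun q _ => (Finset.finite_toSet _).image _
  · intro p hp
    rw [Function.mem_support, sm] at hp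
    have h1 : cf x p.1 p.2.1 p.2.2 ≠ 0 := left_ne_zero_of_mul hp
    have h2 : cf y (a - p.1) (i - p.2.1) (j - p.2.2) ≠ 0 := right_ne_zero_of_mul hp
    have h3 : x.coeff p.1 ≠ 0 := by
      intro h
      apply h1
      unfold cf
      rw [h]
      simp
    have h4 : y.coeff (a - p.1) ≠ 0 := by
      intro h
      apply h2
      unfold cf
      rw [h]
      simp
    rw [Set.mem_iUnion₂]
    refine ⟨(p.1, a - p.1), ?_, ?_⟩
    · rw [Finset.mem_antidiagonal]
      exact ⟨h3, h4, by simp⟩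
    · refine ⟨p.2, ?_, rfl⟩
      rw [Finset.mem_coe, Finsupp.mem_support_iff]
      exact h1

/-- the product formula -/
lemma cf_mul (x y : HahnSeries ℝ (AddMonoidAlgebra F (ℤ × ℤ))) (a : ℝ) (i j : ℤ) :
    cf (x * y) a i j = ∑ᶠ p, sm x y a i j p := by
  classical
  have hfs := sm_fin x y a i j
  rw [finsum_curry _ hfs]
  have h1 : ∀ a1 : ℝ, ∑ᶠ m : ℤ × ℤ, sm x y a i j (a1, m) =
      (x.coeff a1 * y.coeff (a - a1)).coeff (i, j) := by
    intro a1
    rw [AddMonoidAlgebra.coeff_mul_apply_left, Finsupp.sum]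
    rw [finsum_eq_sum_of_support_subset (s := (x.coeff a1).coeff.support)]
    · refine Finset.sum_congr rfl fun m _ => ?_
      unfold sm cf
      congr 2
      ext
      · simp; ring
      · simp; ring
    · intro m hm
      rw [Finset.mem_coe, Finsupp.mem_support_iff]
      exact left_ne_zero_of_mul hm
  simp only [h1]
  unfold cf
  rw [HahnSeries.coeff_mul]
  have h2 : (∑ q ∈ Finset.antidiagonal x.isPWO_support y.isPWO_support a,
      x.coeff q.1 * y.coeff q.2).coeff (i, j) =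
      ∑ q ∈ Finset.antidiagonal x.isPWO_support y.isPWO_support a,
        (x.coeff q.1 * y.coeff q.2).coeff (i, j) := by
    induction (Finset.antidiagonal x.isPWO_support y.isPWO_support a) using
      Finset.induction_on with
    | empty => simp
    | insert q s hq ih =>
      rw [Finset.sum_insert hq, Finset.sum_insert hq, AddMonoidAlgebra.coeff_add,
        Finsupp.add_apply, ih]
  rw [h2]
  rw [finsum_eq_sum_of_support_subset
    (s := (Finset.antidiagonal x.isPWO_support y.isPWO_support a).image Prod.fst)]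
  · rw [Finset.sum_image]
    · refine Finset.sum_congr rfl fun q hq => ?_
      rw [Finset.mem_antidiagonal] at hq
      have : q.2 = a - q.1 := by linarith [hq.2.2]
      rw [this]
    · intro q hq q' hq' hqq
      rw [Finset.mem_coe, Finset.mem_antidiagonal] at hq hq'
      refine Prod.ext hqq ?_
      have h3 := hq.2.2
      have h4 := hq'.2.2
      linarith
  · intro a1 ha1
    rw [Function.mem_support] at ha1
    rw [Finset.coe_image]
    refine ⟨(a1, a - a1), ?_, rfl⟩
    rw [Finset.mem_coe, Finset.mem_antidiagonal]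
    refine ⟨?_, ?_, by simp⟩
    · intro h
      apply ha1
      rw [h]
      simp
    · intro h
      apply ha1
      rw [h]
      simp

lemma cf_add (x y : HahnSeries ℝ (AddMonoidAlgebra F (ℤ × ℤ))) (a : ℝ) (i j : ℤ) :
    cf (x + y) a i j = cf x a i j + cf y a i j := by
  simp [cf]

lemma cf_incl (c : HahnSeries ℝ F) (a : ℝ) (i j : ℤ) :
    cf (incl c) a i j = if i = 0 ∧ j = 0 then c.coeff a else 0 := by
  classical
  change (AddMonoidAlgebra.single (0 : ℤ × ℤ) (c.coeff a) : AddMonoidAlgebra F (ℤ × ℤ)).coeff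
    (i, j) = _
  rw [AddMonoidAlgebra.coeff_single, Finsupp.single_apply]
  have h : (0 : ℤ × ℤ) = (i, j) ↔ i = 0 ∧ j = 0 := by
    rw [eq_comm, Prod.mk_eq_zero]
  simp only [h]

/-- the two factors of a nonzero summand on the edge -/
lemma edge {τ b c : ℝ} {x y : HahnSeries ℝ (AddMonoidAlgebra F (ℤ × ℤ))}
    (hx : Cone τ b x) (hy : Cone τ c y) {a : ℝ} {i j : ℤ} {p : ℝ × (ℤ × ℤ)}
    (h : sm x y a i j p ≠ 0) :
    (p.2.2 = 0 ∧ j = 0) ∧ (b + τ * p.2.1 ≤ p.1 ∧ b - (1 - τ) * p.2.1 ≤ p.1) ∧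
      c + τ * (i - p.2.1) ≤ a - p.1 ∧ c - (1 - τ) * (i - p.2.1) ≤ a - p.1 := by
  obtain ⟨h1, h2, h3⟩ := hx _ _ _ (left_ne_zero_of_mul h)
  obtain ⟨h4, h5, h6⟩ := hy _ _ _ (right_ne_zero_of_mul h)
  push_cast at h5 h6
  exact ⟨⟨h1, by omega⟩, ⟨h2, h3⟩, h5, h6⟩

end CN

open CN

theorem Cone.add {τ b : ℝ} {x y : HahnSeries ℝ (AddMonoidAlgebra F (ℤ × ℤ))}
    (hx : Cone τ b x) (hy : Cone τ b y) : Cone τ b (x + y) := by
  intro a i m h
  rw [cf_add] at h
  by_cases h1 : cf x a i m = 0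
  · rw [h1, zero_add] at h
    exact hy a i m h
  · exact hx a i m h1

theorem Cone.mul {τ b c : ℝ} {x y : HahnSeries ℝ (AddMonoidAlgebra F (ℤ × ℤ))}
    (hx : Cone τ b x) (hy : Cone τ c y) : Cone τ (b + c) (x * y) := by
  intro a i m h
  rw [cf_mul] at h
  obtain ⟨p, hp⟩ : ∃ p, sm x y a i m p ≠ 0 := by
    by_contra hcon
    push Not at hcon
    exact h ((finsum_congr hcon).trans finsum_zero)
  obtain ⟨⟨h1, h2⟩, ⟨h3, h4⟩, h5, h6⟩ := edge hx hy hp
  exact ⟨h2, by linarith, by linarith⟩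

theorem cone_incl (τ : ℝ) {b : ℝ} {c : HahnSeries ℝ F} (hc : Low c b) : Cone τ b (incl c) := by
  intro a i m h
  rw [cf_incl] at h
  split_ifs at h with h1
  · have h2 : b ≤ a := by
      by_contra h3
      exact h (hc a (not_le.1 h3))
    rw [h1.1]
    refine ⟨h1.2, ?_, ?_⟩ <;> simp [h2]
  · exact absurd rfl h

theorem Cone.pow {τ : ℝ} {x : HahnSeries ℝ (AddMonoidAlgebra F (ℤ × ℤ))}
    (hx : Cone τ 0 x) (n : ℕ) : Cone τ 0 (x ^ n) := by
  induction n with
  | zero =>
    rw [pow_zero, ← map_one incl]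
    refine cone_incl τ fun a ha => ?_
    rw [HahnSeries.coeff_one, if_neg ha.ne]
  | succ n ih =>
    have := ih.mul hx
    rwa [add_zero, ← pow_succ] at this

theorem Ep_add (τ b : ℝ) (x y : HahnSeries ℝ (AddMonoidAlgebra F (ℤ × ℤ))) :
    Ep τ b (x + y) = Ep τ b x + Ep τ b y := by
  ext k
  rw [map_add]
  simp only [Ep, PowerSeries.coeff_mk, cf_add]

theorem Em_add (τ b : ℝ) (x y : HahnSeries ℝ (AddMonoidAlgebra F (ℤ × ℤ))) :
    Em τ b (x + y) = Em τ b x + Em τ b y := by
  ext k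
  rw [map_add]
  simp only [Em, PowerSeries.coeff_mk, cf_add]

theorem Ep_mul {τ b c : ℝ} (x y : HahnSeries ℝ (AddMonoidAlgebra F (ℤ × ℤ)))
    (hx : Cone τ b x) (hy : Cone τ c y) : Ep τ (b + c) (x * y) = Ep τ b x * Ep τ c y := by
  classical
  ext k
  rw [PowerSeries.coeff_mul]
  simp only [Ep, PowerSeries.coeff_mk]
  rw [cf_mul, finsum_eq_sum_of_support_subset
    (s := (Finset.HasAntidiagonal.antidiagonal k).image fun q : ℕ × ℕ => (b + τ * q.1, ((q.1 : ℤ), (0 : ℤ))))]
  · rw [Finset.sum_image]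
    · refine Finset.sum_congr rfl fun q hq => ?_
      rw [Finset.HasAntidiagonal.mem_antidiagonal] at hq
      unfold sm
      have e1 : b + c + τ * (k : ℝ) - (b + τ * (q.1 : ℝ)) = c + τ * (q.2 : ℝ) := by
        rw [← hq]; push_cast; ring
      have e2 : (k : ℤ) - (q.1 : ℤ) = (q.2 : ℤ) := by
        rw [← hq]; push_cast; ring
      simp only [e1, e2, sub_zero]
    · intro q hq q' hq' hqq
      rw [Finset.mem_coe, Finset.HasAntidiagonal.mem_antidiagonal] at hq hq'
      have h1 := congrArg (fun p : ℝ × (ℤ × ℤ) => p.2.1) hqq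
      simp only [Nat.cast_inj] at h1
      refine Prod.ext h1 ?_
      omega
  · intro p hp
    obtain ⟨⟨h1, _⟩, ⟨h3, h4⟩, h5, h6⟩ := edge hx hy (Function.mem_support.1 hp)
    push_cast at h5 h6
    have e1 : p.1 = b + τ * p.2.1 := by linarith
    have e2 : (0 : ℤ) ≤ p.2.1 := by
      have : (0 : ℝ) ≤ p.2.1 := by linarith
      exact_mod_cast this
    have e3 : p.2.1 ≤ (k : ℤ) := by
      have : (p.2.1 : ℝ) ≤ (k : ℝ) := by linarith
      exact_mod_cast this
    rw [Finset.mem_coe, Finset.mem_image]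
    refine ⟨(p.2.1.toNat, k - p.2.1.toNat), ?_, ?_⟩
    · rw [Finset.HasAntidiagonal.mem_antidiagonal]
      simp only
      omega
    · have e4 : ((p.2.1.toNat : ℕ) : ℤ) = p.2.1 := Int.toNat_of_nonneg e2
      have e5 : ((p.2.1.toNat : ℕ) : ℝ) = p.2.1 := by exact_mod_cast e4
      refine Prod.ext ?_ (Prod.ext ?_ ?_)
      · simp only [e5]; exact e1.symm
      · exact e4
      · exact h1.symm

theorem Em_mul {τ b c : ℝ} (x y : HahnSeries ℝ (AddMonoidAlgebra F (ℤ × ℤ)))
    (hx : Cone τ b x) (hy : Cone τ c y) : Em τ (b + c) (x * y) = Em τ b x * Em τ c y := by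
  classical
  ext k
  rw [PowerSeries.coeff_mul]
  simp only [Em, PowerSeries.coeff_mk]
  rw [cf_mul, finsum_eq_sum_of_support_subset
    (s := (Finset.HasAntidiagonal.antidiagonal k).image fun q : ℕ × ℕ =>
      (b + (1 - τ) * q.1, (-(q.1 : ℤ), (0 : ℤ))))]
  · rw [Finset.sum_image]
    · refine Finset.sum_congr rfl fun q hq => ?_
      rw [Finset.HasAntidiagonal.mem_antidiagonal] at hq
      unfold sm
      have e1 : b + c + (1 - τ) * (k : ℝ) - (b + (1 - τ) * (q.1 : ℝ)) =
          c + (1 - τ) * (q.2 : ℝ) := by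
        rw [← hq]; push_cast; ring
      have e2 : -(k : ℤ) - -(q.1 : ℤ) = -(q.2 : ℤ) := by
        rw [← hq]; push_cast; ring
      simp only [e1, e2, sub_zero]
    · intro q hq q' hq' hqq
      rw [Finset.mem_coe, Finset.HasAntidiagonal.mem_antidiagonal] at hq hq'
      have h1 := congrArg (fun p : ℝ × (ℤ × ℤ) => p.2.1) hqq
      simp only [neg_inj, Nat.cast_inj] at h1
      refine Prod.ext h1 ?_
      omega
  · intro p hp
    obtain ⟨⟨h1, _⟩, ⟨h3, h4⟩, h5, h6⟩ := edge hx hy (Function.mem_support.1 hp)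
    push_cast at h5 h6
    have e1 : p.1 = b - (1 - τ) * p.2.1 := by linarith
    have e2 : p.2.1 ≤ (0 : ℤ) := by
      have : (p.2.1 : ℝ) ≤ 0 := by linarith
      exact_mod_cast this
    have e3 : -(k : ℤ) ≤ p.2.1 := by
      have : -(k : ℝ) ≤ (p.2.1 : ℝ) := by linarith
      exact_mod_cast this
    rw [Finset.mem_coe, Finset.mem_image]
    refine ⟨((-p.2.1).toNat, k - (-p.2.1).toNat), ?_, ?_⟩
    · rw [Finset.HasAntidiagonal.mem_antidiagonal]
      simp only
      omega
    · have e4 : (((-p.2.1).toNat : ℕ) : ℤ) = -p.2.1 := Int.toNat_of_nonneg (by omega)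
      have e5 : (((-p.2.1).toNat : ℕ) : ℝ) = -p.2.1 := by exact_mod_cast e4
      refine Prod.ext ?_ (Prod.ext ?_ ?_)
      · simp only [e5]; rw [e1]; ring
      · simp only [e4, neg_neg]
      · exact h1.symm

theorem Ep_incl (τ : ℝ) (b : ℝ) (c : HahnSeries ℝ F) :
    Ep τ b (incl c) = PowerSeries.C (c.coeff b) := by
  classical
  ext k
  rw [PowerSeries.coeff_C]
  simp only [Ep, PowerSeries.coeff_mk, cf_incl]
  by_cases h : k = 0
  · subst h
    simp
  · simp [h]

theorem Em_incl (τ : ℝ) (b : ℝ) (c : HahnSeries ℝ F) :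
    Em τ b (incl c) = PowerSeries.C (c.coeff b) := by
  classical
  ext k
  rw [PowerSeries.coeff_C]
  simp only [Em, PowerSeries.coeff_mk, cf_incl]
  by_cases h : k = 0
  · subst h
    simp
  · simp [h]

theorem Ep_pow {τ : ℝ} {x : HahnSeries ℝ (AddMonoidAlgebra F (ℤ × ℤ))}
    (hx : Cone τ 0 x) (n : ℕ) : Ep τ 0 (x ^ n) = Ep τ 0 x ^ n := by
  induction n with
  | zero =>
    rw [pow_zero, pow_zero, ← map_one incl, Ep_incl, HahnSeries.coeff_one, if_pos rfl, map_one]
  | succ n ih =>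
    have := Ep_mul (x ^ n) x (hx.pow n) hx
    rw [add_zero] at this
    rw [pow_succ, pow_succ, this, ih]

theorem Em_pow {τ : ℝ} {x : HahnSeries ℝ (AddMonoidAlgebra F (ℤ × ℤ))}
    (hx : Cone τ 0 x) (n : ℕ) : Em τ 0 (x ^ n) = Em τ 0 x ^ n := by
  induction n with
  | zero =>
    rw [pow_zero, pow_zero, ← map_one incl, Em_incl, HahnSeries.coeff_one, if_pos rfl, map_one]
  | succ n ih =>
    have := Em_mul (x ^ n) x (hx.pow n) hx
    rw [add_zero] at this
    rw [pow_succ, pow_succ, this, ih]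

end nodal

end Pool.Agent.TH722.PN
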