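import Mathlib

/-! Emptiness of fat point systems for Laurent polynomials with exponents in an abelian group. -/

set_option autoImplicit false

namespace Pool.Agent.TH722.PN

/-- points of the torus with character group `M` -/
abbrev Pt (K M : Type) [Field K] [AddCommGroup M] : Type := Multiplicative M →* K

/-- value of a Laurent polynomial at a point -/
noncomputable def evp {K M : Type} [Field K] [AddCommGroup M] (p : Pt K M) :
    AddMonoidAlgebra K M →ₐ[K] K := AddMonoidAlgebra.lift K K M p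

/-- the maximal ideal of a point -/
noncomputable def mI {K M : Type} [Field K] [AddCommGroup M] (p : Pt K M) :
    Ideal (AddMonoidAlgebra K M) := RingHom.ker (evp p)

/-- no nonzero Laurent polynomial with exponents in `S` vanishes to order `w i` at `p i` -/
def Good {K ι M : Type} [Field K] [AddCommGroup M] (p : ι → Pt K M) (w : ι → ℕ) (S : Set M) :
    Prop :=
  ∀ f : AddMonoidAlgebra K M, (∀ m ∈ f.coeff.support, m ∈ S) → (∀ i, f ∈ mI (p i) ^ w i) → f = 0

/-- for suitable points over a suitable field of characteristic zero all systems of the family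
are empty -/
def EmpS {ι M : Type} [AddCommGroup M] (𝓕 : Set ((ι → ℕ) × Set M)) : Prop :=
  ∃ (K : Type) (_ : Field K) (_ : CharZero K) (p : ι → Pt K M), ∀ x ∈ 𝓕, Good p x.1 x.2

section hahn
variable {F M M' : Type} [Field F] [AddCommGroup M] [AddCommGroup M']

/-- the inclusion of the constants -/
noncomputable def incl : HahnSeries ℝ F →+* HahnSeries ℝ (AddMonoidAlgebra F M') where
  toFun x := x.map (AddMonoidAlgebra.singleZeroRingHom (R := F) (M := M'))
  map_one' := by
    ext a m
    simp only [HahnSeries.map_coeff, HahnSeries.coeff_one]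
    split_ifs <;> simp [AddMonoidAlgebra.one_def]
  map_mul' x y := HahnSeries.map_mul
    ((AddMonoidAlgebra.singleZeroRingHom (R := F) (M := M')) : F →ₙ+* AddMonoidAlgebra F M')
  map_zero' := by ext; simp
  map_add' x y := by ext; simp

/-- the homomorphism given by the images of the monomials -/
noncomputable def Psi (ψ : Multiplicative M →* HahnSeries ℝ (AddMonoidAlgebra F M')) :
    AddMonoidAlgebra (HahnSeries ℝ F) M →+* HahnSeries ℝ (AddMonoidAlgebra F M') :=
  AddMonoidAlgebra.liftNCRingHom incl ψ fun _ _ => Commute.all _ _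

/-- the leading coefficient has exponents in `S'` -/
def LeadIn (x : HahnSeries ℝ (AddMonoidAlgebra F M')) (S' : Set M') : Prop :=
  ∃ a : ℝ, (∀ b < a, x.coeff b = 0) ∧ x.coeff a ≠ 0 ∧ ∀ m ∈ (x.coeff a).coeff.support, m ∈ S'

/-- images of nonzero Laurent polynomials with exponents in `S` have a leading coefficient with
exponents in `S'` -/
def Deg (ψ : Multiplicative M →* HahnSeries ℝ (AddMonoidAlgebra F M')) (S : Set M) (S' : Set M') :
    Prop :=
  ∀ f : AddMonoidAlgebra (HahnSeries ℝ F) M, f ≠ 0 → (∀ m ∈ f.coeff.support, m ∈ S) →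
    LeadIn (Psi ψ f) S'

end hahn

/-- gauge of the interval `[-a.1, a.2]` -/
noncomputable def gau (a : ℝ × ℝ) (x : ℝ) : ℝ := max (x / a.2) (-x / a.1)

/-- `ℤ ^ p` -/
def Q : ℕ → Type
  | 0 => PUnit
  | (p + 1) => Q p × ℤ

noncomputable instance instQ : (p : ℕ) → AddCommGroup (Q p)
  | 0 => inferInstanceAs (AddCommGroup PUnit)
  | (p + 1) => letI := instQ p; inferInstanceAs (AddCommGroup (Q p × ℤ))

/-- sum of the gauges of the coordinates -/
noncomputable def GG (a : ℕ → ℝ × ℝ) : (p : ℕ) → Q p → ℝ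
  | 0, _ => 0
  | (p + 1), j => GG a p j.1 + gau (a p) (j.2 : ℤ)

/-- the coordinates are nonnegative -/
def Nn : (p : ℕ) → Q p → Prop
  | 0, _ => True
  | (p + 1), j => Nn p j.1 ∧ (0 : ℤ) ≤ j.2

/-- sum of the coordinates -/
def Sm : (p : ℕ) → Q p → ℤ
  | 0, _ => 0
  | (p + 1), j => Sm p j.1 + j.2

/-- the monomial `t ^ a * z ^ i * Y ^ m` -/
noncomputable def tz (F : Type) [Field F] (a : ℝ) (i m : ℤ) :
    HahnSeries ℝ (AddMonoidAlgebra F (ℤ × ℤ)) :=
  HahnSeries.single a (AddMonoidAlgebra.single (i, m) 1)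

/-- the coefficient of `t ^ a * z ^ i * Y ^ m` -/
noncomputable def cf {F : Type} [Field F] (x : HahnSeries ℝ (AddMonoidAlgebra F (ℤ × ℤ))) (a : ℝ)
    (i m : ℤ) : F := (x.coeff a).coeff (i, m)

/-- all exponents `(a, i, m)` satisfy `m = 0`, `a ≥ b + τ i`, `a ≥ b - (1 - τ) i` -/
def Cone {F : Type} [Field F] (τ b : ℝ) (x : HahnSeries ℝ (AddMonoidAlgebra F (ℤ × ℤ))) : Prop :=
  ∀ a i m, cf x a i m ≠ 0 → m = 0 ∧ b + τ * i ≤ a ∧ b - (1 - τ) * i ≤ a

/-- the part of `x` on the ray `a = b + τ i` as a power series -/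
noncomputable def Ep {F : Type} [Field F] (τ b : ℝ)
    (x : HahnSeries ℝ (AddMonoidAlgebra F (ℤ × ℤ))) : PowerSeries F :=
  PowerSeries.mk fun k => cf x (b + τ * k) k 0

/-- the part of `x` on the ray `a = b - (1 - τ) i` as a power series -/
noncomputable def Em {F : Type} [Field F] (τ b : ℝ)
    (x : HahnSeries ℝ (AddMonoidAlgebra F (ℤ × ℤ))) : PowerSeries F :=
  PowerSeries.mk fun k => cf x (b + (1 - τ) * k) (-(k : ℤ)) 0

/-- all coefficients of `t ^ a`, `a < b`, are zero -/
def Low {B : Type} [Zero B] (x : HahnSeries ℝ B) (b : ℝ) : Prop := ∀ a < b, x.coeff a = 0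

end Pool.Agent.TH722.PN
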