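import Pool.Agent.TH722.PN.Defs

set_option autoImplicit false

/-! # Degeneration of the points of a fat point system -/

namespace Pool.Agent.TH722.PN

namespace Degen

section map
variable {B B' : Type} [CommRing B] [CommRing B']

/-- the coefficientwise map -/
noncomputable def hmap (φ : B →+* B') : HahnSeries ℝ B →+* HahnSeries ℝ B' where
  toFun x := x.map φ
  map_one' := by
    ext a
    simp only [HahnSeries.map_coeff, HahnSeries.coeff_one]
    split_ifs <;> simp
  map_mul' x y := HahnSeries.map_mul (φ : B →ₙ+* B')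
  map_zero' := by ext; simp
  map_add' x y := by ext; simp

theorem hmap_coeff (φ : B →+* B') (x : HahnSeries ℝ B) (a : ℝ) :
    (hmap φ x).coeff a = φ (x.coeff a) := rfl

/-- the coefficients of a product -/
theorem coeff_mul_mem {I I' : Ideal B} {x y : HahnSeries ℝ B} (hx : ∀ a, x.coeff a ∈ I)
    (hy : ∀ a, y.coeff a ∈ I') (a : ℝ) : (x * y).coeff a ∈ I * I' := by
  rw [HahnSeries.coeff_mul]
  exact Ideal.sum_mem _ fun c _ => Ideal.mul_mem_mul (hx _) (hy _)

theorem coeff_pow_mem (φ : B →+* B') (w : ℕ) {x : HahnSeries ℝ B}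
    (hx : x ∈ RingHom.ker (hmap φ) ^ w) : ∀ a, x.coeff a ∈ RingHom.ker φ ^ w := by
  induction w generalizing x with
  | zero =>
    intro a
    rw [pow_zero, Ideal.one_eq_top]
    trivial
  | succ w ih =>
    rw [pow_succ] at hx
    refine Submodule.mul_induction_on hx (fun y hy z hz a => ?_) (fun y z hy hz a => ?_)
    · rw [pow_succ]
      refine coeff_mul_mem (ih hy) (fun a => ?_) a
      have h1 := congrArg (fun u : HahnSeries ℝ B' => u.coeff a) (RingHom.mem_ker.1 hz)
      exact RingHom.mem_ker.2 h1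
    · rw [HahnSeries.coeff_add]
      exact Ideal.add_mem _ (hy a) (hz a)

end map

section slice
variable {F J M M' : Type} [Field F] [AddCommGroup J] [AddCommGroup M] [AddCommGroup M']

/-- the inclusion of the slice -/
noncomputable def emb (J : Type) [AddCommGroup J] :
    HahnSeries ℝ (AddMonoidAlgebra F M') →+* HahnSeries ℝ (AddMonoidAlgebra F (J × M')) :=
  hmap (AddMonoidAlgebra.mapDomainRingHom F (AddMonoidHom.inr J M'))

/-- the monomial in the directions of `J` -/
noncomputable def xi (F M' : Type) [Field F] [AddCommGroup M'] :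
    Multiplicative J →* HahnSeries ℝ (AddMonoidAlgebra F (J × M')) where
  toFun j := HahnSeries.single 0 (AddMonoidAlgebra.single (j.toAdd, 0) 1)
  map_one' := rfl
  map_mul' i j := by
    rw [HahnSeries.single_mul_single, add_zero, AddMonoidAlgebra.single_mul_single, mul_one,
      Prod.mk_add_mk, add_zero, toAdd_mul]

/-- the homomorphism in all directions -/
noncomputable def Th (ψ : Multiplicative M →* HahnSeries ℝ (AddMonoidAlgebra F M')) :
    Multiplicative (J × M) →* HahnSeries ℝ (AddMonoidAlgebra F (J × M')) where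
  toFun x := xi F M' (.ofAdd x.toAdd.1) * emb J (ψ (.ofAdd x.toAdd.2))
  map_one' := by
    rw [toAdd_one, Prod.fst_zero, Prod.snd_zero, ofAdd_zero, ofAdd_zero, map_one, map_one, map_one,
      mul_one]
  map_mul' x y := by
    rw [toAdd_mul, Prod.fst_add, Prod.snd_add, ofAdd_add, ofAdd_add, map_mul, map_mul, map_mul,
      mul_mul_mul_comm]

theorem Th_apply (ψ : Multiplicative M →* HahnSeries ℝ (AddMonoidAlgebra F M')) (j : J) (m : M) :
    Th ψ (.ofAdd (j, m)) = xi F M' (.ofAdd j) * emb J (ψ (.ofAdd m)) := rfl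

theorem emb_incl (c : HahnSeries ℝ F) : emb J (incl (M' := M') c) = incl c := by
  ext a : 2
  change AddMonoidAlgebra.mapDomain (AddMonoidHom.inr J M') (AddMonoidAlgebra.single 0 (c.coeff a)) =
    AddMonoidAlgebra.single 0 (c.coeff a)
  rw [AddMonoidAlgebra.mapDomain_single, map_zero]

open Classical in
theorem coeff_xi_emb (j j' : J) (x : HahnSeries ℝ (AddMonoidAlgebra F M')) (a : ℝ) (m' : M') :
    ((xi F M' (.ofAdd j) * emb J x).coeff a).coeff (j', m') =
      if j = j' then (x.coeff a).coeff m' else 0 := by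
  change ((HahnSeries.single 0 (AddMonoidAlgebra.single (j, 0) 1) * emb J x).coeff a).coeff
    (j', m') = _
  rw [HahnSeries.coeff_single_zero_mul, AddMonoidAlgebra.coeff_single_mul_apply, one_mul]
  change (AddMonoidAlgebra.mapDomain (AddMonoidHom.inr J M') (x.coeff a)).coeff
    (-(j, (0 : M')) + (j', m')) = _
  have h0 : (-(j, (0 : M')) + (j', m')) = (j' - j, m') := by
    rw [Prod.neg_mk, Prod.mk_add_mk, neg_zero, zero_add, neg_add_eq_sub]
  rw [h0, AddMonoidAlgebra.mapDomain, AddMonoidAlgebra.coeff_ofCoeff]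
  split_ifs with h
  · subst h
    rw [sub_self]
    have hinj : Function.Injective (AddMonoidHom.inr J M') := fun u v huv =>
      congrArg Prod.snd huv
    exact Finsupp.mapDomain_apply hinj _ m'
  · refine Finsupp.mapDomain_of_notMem_range _ _ ?_
    rintro ⟨u, hu⟩
    have h1 := congrArg Prod.fst hu
    exact h (sub_eq_zero.1 h1.symm).symm

/-- the slice of a Laurent polynomial -/
noncomputable def sl {K : Type} [Semiring K] (j : J) (f : AddMonoidAlgebra K (J × M)) :
    AddMonoidAlgebra K M :=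
  .ofCoeff (f.coeff.comapDomain (fun m => (j, m)) fun _ _ _ _ h => congrArg Prod.snd h)

omit [AddCommGroup J] [AddCommGroup M] in
theorem sl_coeff {K : Type} [Semiring K] (j : J) (f : AddMonoidAlgebra K (J × M)) (m : M) :
    (sl j f).coeff m = f.coeff (j, m) := rfl

theorem sl_add {K : Type} [Semiring K] (j : J) (f g : AddMonoidAlgebra K (J × M)) :
    sl j (f + g) = sl j f + sl j g := by
  ext m
  rfl

open Classical in
omit [AddCommGroup J] in
theorem sl_single {K : Type} [Semiring K] (j j' : J) (m : M) (c : K) :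
    sl j' (AddMonoidAlgebra.single (j, m) c) =
      if j = j' then AddMonoidAlgebra.single m c else 0 := by
  ext m'
  rw [sl_coeff, AddMonoidAlgebra.coeff_single, Finsupp.single_apply]
  split_ifs with h1 h2 h2
  · rw [Prod.ext_iff] at h1
    rw [AddMonoidAlgebra.coeff_single, Finsupp.single_apply, if_pos h1.2]
  · exact absurd (congrArg Prod.fst h1) h2
  · subst h2
    rw [AddMonoidAlgebra.coeff_single, Finsupp.single_apply, if_neg]
    rintro rfl
    exact h1 rfl
  · rfl

theorem Psi_single {N : Type} [AddCommGroup N]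
    (ψ : Multiplicative N →* HahnSeries ℝ (AddMonoidAlgebra F M')) (m : N) (c : HahnSeries ℝ F) :
    Psi ψ (AddMonoidAlgebra.single m c) = incl c * ψ (.ofAdd m) :=
  AddMonoidAlgebra.liftNCRingHom_single _ _ _ _ _

/-- the homomorphism on Laurent polynomials in all directions -/
noncomputable def PJ (J : Type) [AddCommGroup J]
    (ψ : Multiplicative M →* HahnSeries ℝ (AddMonoidAlgebra F M')) :
    AddMonoidAlgebra (HahnSeries ℝ F) (J × M) →+*
      HahnSeries ℝ (AddMonoidAlgebra F (J × M')) :=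
  Psi (F := F) (M := J × M) (M' := J × M') (Th ψ)

theorem PJ_single (ψ : Multiplicative M →* HahnSeries ℝ (AddMonoidAlgebra F M')) (y : J × M)
    (c : HahnSeries ℝ F) :
    PJ J ψ (AddMonoidAlgebra.single y c) = incl c * Th ψ (.ofAdd y) :=
  Psi_single (N := J × M) (M' := J × M') (Th ψ) y c

/-- the slices of the image -/
theorem coeff_Psi (ψ : Multiplicative M →* HahnSeries ℝ (AddMonoidAlgebra F M'))
    (f : AddMonoidAlgebra (HahnSeries ℝ F) (J × M)) (a : ℝ) (j' : J) (m' : M') :
    ((PJ J ψ f).coeff a).coeff (j', m') = ((Psi ψ (sl j' f)).coeff a).coeff m' := by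
  classical
  induction f using AddMonoidAlgebra.induction_linear with
  | zero =>
    have h0 : sl j' (0 : AddMonoidAlgebra (HahnSeries ℝ F) (J × M)) = 0 := by
      ext m
      rfl
    rw [h0, map_zero, map_zero]
    rfl
  | add f g hf hg =>
    rw [sl_add, map_add, map_add, HahnSeries.coeff_add, HahnSeries.coeff_add,
      AddMonoidAlgebra.coeff_add, AddMonoidAlgebra.coeff_add, Finsupp.add_apply,
      Finsupp.add_apply, hf, hg]
  | single x c =>
    obtain ⟨j, m⟩ := x
    rw [PJ_single, Th_apply, sl_single, ← emb_incl, mul_left_comm, ← map_mul, coeff_xi_emb]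
    split_ifs with h
    · rw [Psi_single]
    · rw [map_zero]
      rfl

/-- the values at the points of the degeneration -/
theorem hmap_Psi (ψ : Multiplicative M →* HahnSeries ℝ (AddMonoidAlgebra F M'))
    (φ : AddMonoidAlgebra F (J × M') →ₐ[F] F) (c : HahnSeries ℝ F) (y : J × M) :
    hmap (φ : AddMonoidAlgebra F (J × M') →+* F)
      (PJ J ψ (AddMonoidAlgebra.single y c)) =
      c * hmap (φ : AddMonoidAlgebra F (J × M') →+* F) (Th ψ (.ofAdd y)) := by
  rw [PJ_single, map_mul]
  congr 1
  ext a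
  change φ (AddMonoidAlgebra.single 0 (c.coeff a)) = c.coeff a
  exact φ.commutes (c.coeff a)

/-- the heart of the degeneration lemma -/
theorem core {ι : Type} (ψ : Multiplicative M →* HahnSeries ℝ (AddMonoidAlgebra F M'))
    (q : ι → Pt F (J × M')) (w : ι → ℕ) {S : Set (J × M)} {S' : Set (J × M')}
    (hgood : Good q w S') (hd : ∀ j, Deg ψ {m | (j, m) ∈ S} {m | (j, m) ∈ S'})
    (f : AddMonoidAlgebra (HahnSeries ℝ F) (J × M)) (hf : ∀ m ∈ f.coeff.support, m ∈ S)
    (hmem : ∀ (i : ι) (a : ℝ), (PJ J ψ f).coeff a ∈ mI (q i) ^ w i) : f = 0 := by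
  by_contra hf0
  have hcurry : {j : J | sl j f ≠ 0}.Finite := by
    classical
    refine (f.coeff.support.image Prod.fst).finite_toSet.subset fun j hj => ?_
    rw [Set.mem_ofPred_eq] at hj
    by_contra hc
    apply hj
    ext m : 2
    rw [sl_coeff, AddMonoidAlgebra.coeff_zero, Finsupp.zero_apply]
    by_contra hne
    apply hc
    rw [Finset.mem_coe, Finset.mem_image]
    exact ⟨(j, m), Finsupp.mem_support_iff.2 hne, rfl⟩
  have hex : ∀ j, sl j f ≠ 0 → LeadIn (Psi ψ (sl j f)) {m | (j, m) ∈ S'} := by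
    intro j hj
    refine hd j (sl j f) hj fun m hm => ?_
    rw [Finsupp.mem_support_iff, sl_coeff] at hm
    exact hf _ (Finsupp.mem_support_iff.2 hm)
  choose! A hA using hex
  have hne : hcurry.toFinset.Nonempty := by
    by_contra hc
    rw [Finset.not_nonempty_iff_eq_empty] at hc
    apply hf0
    ext ⟨j, m⟩ : 2
    have h1 : j ∉ hcurry.toFinset := by
      rw [hc]
      exact Finset.notMem_empty _
    rw [Set.Finite.mem_toFinset, Set.mem_ofPred_eq, not_not] at h1
    have h2 := congrArg (fun u => u.coeff m) h1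
    exact h2
  obtain ⟨j0, hj0, hmin⟩ := Finset.exists_min_image hcurry.toFinset A hne
  rw [Set.Finite.mem_toFinset, Set.mem_ofPred_eq] at hj0
  have hz : (PJ J ψ f).coeff (A j0) = 0 := by
    refine hgood _ (fun y hy => ?_) fun i => hmem i _
    obtain ⟨j, m'⟩ := y
    rw [Finsupp.mem_support_iff, coeff_Psi] at hy
    have hj : sl j f ≠ 0 := by
      intro h0
      apply hy
      rw [h0, map_zero]
      rfl
    have h1 := hmin j (hcurry.mem_toFinset.2 hj)
    have h2 : A j0 = A j := by
      refine le_antisymm h1 (not_lt.1 fun h3 => hy ?_)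
      rw [(hA j hj).1 _ h3]
      rfl
    rw [h2] at hy
    exact (hA j hj).2.2 m' (Finsupp.mem_support_iff.2 hy)
  apply (hA j0 hj0).2.1
  ext m'
  rw [← coeff_Psi, hz]
  rfl

/-- the points of the degeneration -/
noncomputable def pt (ψ : Multiplicative M →* HahnSeries ℝ (AddMonoidAlgebra F M'))
    (q : Pt F (J × M')) : Pt (HahnSeries ℝ F) (J × M) :=
  (hmap ((evp q : AddMonoidAlgebra F (J × M') →ₐ[F] F) : AddMonoidAlgebra F (J × M') →+* F) :
    HahnSeries ℝ (AddMonoidAlgebra F (J × M')) →* HahnSeries ℝ F).comp (Th ψ)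

theorem evp_pt (ψ : Multiplicative M →* HahnSeries ℝ (AddMonoidAlgebra F M'))
    (q : Pt F (J × M')) (f : AddMonoidAlgebra (HahnSeries ℝ F) (J × M)) :
    hmap ((evp q : AddMonoidAlgebra F (J × M') →ₐ[F] F) : AddMonoidAlgebra F (J × M') →+* F)
      (PJ J ψ f) = evp (pt ψ q) f := by
  induction f using AddMonoidAlgebra.induction_linear with
  | zero => rw [map_zero, map_zero, map_zero]
  | add f g hf hg => rw [map_add, map_add, map_add, hf, hg]
  | single y c =>
    rw [hmap_Psi]
    unfold evp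
    rw [AddMonoidAlgebra.lift_single, smul_eq_mul]
    rfl

theorem coeff_mem (ψ : Multiplicative M →* HahnSeries ℝ (AddMonoidAlgebra F M'))
    (q : Pt F (J × M')) (n : ℕ) (f : AddMonoidAlgebra (HahnSeries ℝ F) (J × M))
    (hf : f ∈ mI (pt ψ q) ^ n) (a : ℝ) : (PJ J ψ f).coeff a ∈ mI q ^ n := by
  refine coeff_pow_mem ((evp q : AddMonoidAlgebra F (J × M') →ₐ[F] F) :
    AddMonoidAlgebra F (J × M') →+* F) n ?_ a
  have h1 : Ideal.map (PJ J ψ) (mI (pt ψ q)) ≤ RingHom.ker (hmap
      ((evp q : AddMonoidAlgebra F (J × M') →ₐ[F] F) : AddMonoidAlgebra F (J × M') →+* F)) := by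
    rw [Ideal.map_le_iff_le_comap]
    intro g hg
    rw [Ideal.mem_comap, RingHom.mem_ker, evp_pt]
    exact RingHom.mem_ker.1 hg
  have h2 := Ideal.mem_map_of_mem (PJ J ψ) hf
  rw [Ideal.map_pow] at h2
  exact Ideal.pow_right_mono h1 _ h2

end slice

end Degen

open Degen

variable {ι J M M' : Type} [AddCommGroup J] [AddCommGroup M] [AddCommGroup M']

/-- **Degeneration lemma.** -/
theorem EmpS.degen {𝓕 : Set ((ι → ℕ) × Set (J × M))} {𝓕' : Set ((ι → ℕ) × Set (J × M'))}
    (ψ : ∀ (F : Type) [Field F] [CharZero F],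
      Multiplicative M →* HahnSeries ℝ (AddMonoidAlgebra F M'))
    (h : ∀ x ∈ 𝓕, ∃ S', (x.1, S') ∈ 𝓕' ∧ ∀ (F : Type) [Field F] [CharZero F] (j : J),
      Deg (ψ F) {m | (j, m) ∈ x.2} {m | (j, m) ∈ S'})
    (h' : EmpS 𝓕') : EmpS 𝓕 := by
  obtain ⟨F, _, _, q, hq⟩ := h'
  have hchar : CharZero (HahnSeries ℝ F) := by
    refine ⟨fun a b hab => ?_⟩
    have h1 : (HahnSeries.C (a : F) : HahnSeries ℝ F) = HahnSeries.C (b : F) := by
      rw [map_natCast, map_natCast]
      exact hab
    have h2 := HahnSeries.C_injective h1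
    exact_mod_cast h2
  refine ⟨HahnSeries ℝ F, inferInstance, hchar, fun i => pt (ψ F) (q i), fun x hx f hf hI => ?_⟩
  obtain ⟨S', hS', hd⟩ := h x hx
  exact core (ψ F) q x.1 (hq _ hS') (fun j => hd F j) f hf fun i a =>
    coeff_mem (ψ F) (q i) (x.1 i) f (hI i) a

end Pool.Agent.TH722.PN
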