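import Pool.Agent.TH722.PN.Defs

/-! Division by `Y ^ 2 - r(X)` with weights (piece N5 of helper722's project, written by helper713). -/

set_option autoImplicit false

namespace Pool.Agent.TH722.PN

open Polynomial

/-- the conclusion of the division lemma -/
private def DivC {K : Type} [Field K] (δ : ℕ) (r : Polynomial K) (c : ℕ)
    (P : Polynomial (Polynomial K)) : Prop :=
  ∃ A B : ℕ → Polynomial K,
      P = ∑ j ∈ Finset.range (c + 1), (Polynomial.C (A j) + Polynomial.C (B j) * Polynomial.X) *
        (Polynomial.X ^ 2 - Polynomial.C r) ^ j ∧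
      (∀ j n, (A j).coeff n ≠ 0 → n + 2 * δ * j ≤ c) ∧
      (∀ j n, (B j).coeff n ≠ 0 → n + δ + 2 * δ * j ≤ c)

private theorem divC_zero {K : Type} [Field K] (δ : ℕ) (r : Polynomial K) (c : ℕ) :
    DivC δ r c 0 := by
  refine ⟨0, 0, ?_, ?_, ?_⟩
  · simp
  · intro j n h
    simp at h
  · intro j n h
    simp at h

private theorem divC_add {K : Type} [Field K] {δ : ℕ} {r : Polynomial K} {c : ℕ}
    {P Q : Polynomial (Polynomial K)} (hP : DivC δ r c P) (hQ : DivC δ r c Q) :
    DivC δ r c (P + Q) := by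
  obtain ⟨A, B, h1, h2, h3⟩ := hP
  obtain ⟨A', B', h1', h2', h3'⟩ := hQ
  refine ⟨fun j => A j + A' j, fun j => B j + B' j, ?_, ?_, ?_⟩
  · rw [h1, h1', ← Finset.sum_add_distrib]
    refine Finset.sum_congr rfl fun j _ => ?_
    simp only [map_add]
    ring
  · intro j n h
    by_contra hc
    apply h
    rw [Polynomial.coeff_add, not_not.1 (mt (h2 j n) hc), not_not.1 (mt (h2' j n) hc), add_zero]
  · intro j n h
    by_contra hc
    apply h
    rw [Polynomial.coeff_add, not_not.1 (mt (h3 j n) hc), not_not.1 (mt (h3' j n) hc), add_zero]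

/-- `Y ^ (2 k)` in powers of `Y ^ 2 - r` -/
private theorem pow_expand {K : Type} [Field K] (r : Polynomial K) {k c : ℕ} (hk : k ≤ c) :
    (Polynomial.X : Polynomial (Polynomial K)) ^ (2 * k) = ∑ j ∈ Finset.range (c + 1),
      Polynomial.C ((k.choose j : Polynomial K) * r ^ (k - j)) *
        (Polynomial.X ^ 2 - Polynomial.C r) ^ j := by
  have h1 : (Polynomial.X : Polynomial (Polynomial K)) ^ (2 * k)
      = ((Polynomial.X ^ 2 - Polynomial.C r) + Polynomial.C r) ^ k := by
    rw [sub_add_cancel, pow_mul]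
  rw [h1, add_pow]
  have h2 : Finset.range (k + 1) ⊆ Finset.range (c + 1) :=
    Finset.range_subset_range.2 (by omega)
  rw [← Finset.sum_subset h2]
  · refine Finset.sum_congr rfl fun j _ => ?_
    simp only [map_mul, map_pow, map_natCast]
    ring
  · intro j _ hj
    have hj' : k < j := by
      simp only [Finset.mem_range] at hj
      omega
    rw [Nat.choose_eq_zero_of_lt hj']
    simp

private theorem coeff_bound {K : Type} [Field K] {δ : ℕ} {r : Polynomial K}
    (hr : r.natDegree ≤ 2 * δ) {a k : ℕ} (κ : K) (j n : ℕ)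
    (h : (Polynomial.monomial a κ * ((k.choose j : Polynomial K) * r ^ (k - j))).coeff n ≠ 0) :
    n + 2 * δ * j ≤ a + 2 * δ * k := by
  have hj : j ≤ k := by
    by_contra hc
    apply h
    rw [Nat.choose_eq_zero_of_lt (by omega)]
    simp
  have h1 : n ≤ a + (k - j) * (2 * δ) := by
    refine (Polynomial.le_natDegree_of_ne_zero h).trans ?_
    refine Polynomial.natDegree_mul_le.trans ?_
    refine Nat.add_le_add (Polynomial.natDegree_monomial_le _) ?_
    refine Polynomial.natDegree_mul_le.trans ?_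
    rw [Polynomial.natDegree_natCast, zero_add]
    refine (Polynomial.natDegree_pow_le).trans ?_
    exact Nat.mul_le_mul_left _ hr
  obtain ⟨m, rfl⟩ := Nat.exists_eq_add_of_le hj
  rw [Nat.add_sub_cancel_left] at h1
  nlinarith

private theorem divC_monomial {K : Type} [Field K] {δ : ℕ} (hδ : 0 < δ) {r : Polynomial K}
    (hr : r.natDegree ≤ 2 * δ) {c : ℕ} {a b : ℕ} (κ : K) (hab : a + δ * b ≤ c) :
    DivC δ r c (Polynomial.C (Polynomial.monomial a κ) * Polynomial.X ^ b) := by
  rcases Nat.even_or_odd' b with ⟨k, rfl | rfl⟩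
  · have hk : k ≤ c := by nlinarith
    refine ⟨fun j => Polynomial.monomial a κ * ((k.choose j : Polynomial K) * r ^ (k - j)), 0,
      ?_, ?_, ?_⟩
    · rw [pow_expand r hk, Finset.mul_sum]
      refine Finset.sum_congr rfl fun j _ => ?_
      simp only [Pi.zero_apply, map_zero, zero_mul, add_zero, map_mul]
      ring
    · intro j n h
      have := coeff_bound hr κ j n h
      nlinarith
    · intro j n h
      simp at h
  · have hk : k ≤ c := by nlinarith
    refine ⟨0, fun j => Polynomial.monomial a κ * ((k.choose j : Polynomial K) * r ^ (k - j)),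
      ?_, ?_, ?_⟩
    · rw [pow_succ, pow_expand r hk, Finset.sum_mul, Finset.mul_sum]
      refine Finset.sum_congr rfl fun j _ => ?_
      simp only [Pi.zero_apply, map_zero, zero_add, map_mul]
      ring
    · intro j n h
      simp at h
    · intro j n h
      have := coeff_bound hr κ j n h
      nlinarith

/-- division by `Y ^ 2 - r(X)` with weights `1` for `X` and `δ` for `Y` -/
theorem exists_div {K : Type} [Field K] {δ : ℕ} (hδ : 0 < δ) {r : Polynomial K}
    (hr : r.natDegree ≤ 2 * δ) {c : ℕ} {P : Polynomial (Polynomial K)}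
    (hP : ∀ a b, (P.coeff b).coeff a ≠ 0 → a + δ * b ≤ c) :
    ∃ A B : ℕ → Polynomial K,
      P = ∑ j ∈ Finset.range (c + 1), (Polynomial.C (A j) + Polynomial.C (B j) * Polynomial.X) *
        (Polynomial.X ^ 2 - Polynomial.C r) ^ j ∧
      (∀ j n, (A j).coeff n ≠ 0 → n + 2 * δ * j ≤ c) ∧
      (∀ j n, (B j).coeff n ≠ 0 → n + δ + 2 * δ * j ≤ c) := by
  change DivC δ r c P
  have hsum : ∀ {ι : Type} (s : Finset ι) (f : ι → Polynomial (Polynomial K)),
      (∀ i ∈ s, DivC δ r c (f i)) → DivC δ r c (∑ i ∈ s, f i) := by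
    intro ι s f h
    exact Finset.sum_induction f (DivC δ r c) (fun _ _ => divC_add) (divC_zero δ r c) h
  rw [P.as_sum_support_C_mul_X_pow]
  refine hsum _ _ fun b _ => ?_
  rw [(P.coeff b).as_sum_support, map_sum, Finset.sum_mul]
  refine hsum _ _ fun a ha => ?_
  exact divC_monomial hδ hr _ (hP a b (Polynomial.mem_support_iff.1 ha))

end Pool.Agent.TH722.PN
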