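import Pool.Agent.TH722.PN.Defs

/-! All points on `y = 1`. -/

set_option autoImplicit false

namespace Pool.Agent.TH722.PN

variable {ι J : Type} [AddCommGroup J]

namespace Final

variable {K : Type} [Field K]

section ps
variable {A : Type} [CommRing A]

theorem isUnit_u : IsUnit (1 + PowerSeries.X : PowerSeries A) := by
  rw [PowerSeries.isUnit_iff_constantCoeff]
  simp

/-- the unit `1 + X` -/
noncomputable def u1 : (PowerSeries A)ˣ := (isUnit_u (A := A)).unit

theorem u1_val : ((u1 : (PowerSeries A)ˣ) : PowerSeries A) = 1 + PowerSeries.X := rfl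

theorem coeff_u1_pow (n k : ℕ) :
    PowerSeries.coeff k (((u1 : (PowerSeries A)ˣ) ^ (n : ℤ) : (PowerSeries A)ˣ) : PowerSeries A) =
      (n.choose k : A) := by
  rw [zpow_natCast, Units.val_pow_eq_pow_val, u1_val]
  have h : (1 + PowerSeries.X : PowerSeries A) ^ n =
      (((1 + Polynomial.X : Polynomial A) ^ n : Polynomial A) : PowerSeries A) := by
    simp
  rw [h, Polynomial.coeff_coe, Polynomial.coeff_one_add_X_pow]

theorem coeff_zero_u1 (t : ℤ) :
    PowerSeries.constantCoeff (((u1 : (PowerSeries A)ˣ) ^ t : (PowerSeries A)ˣ) : PowerSeries A) =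
      1 := by
  have h1 : Units.map (PowerSeries.constantCoeff (R := A) : PowerSeries A →* A) u1 = 1 := by
    ext
    simp [u1_val]
  have h2 := congrArg (fun x => ((x ^ t : Aˣ) : A)) h1
  simp only [one_zpow, Units.val_one, ← map_zpow] at h2
  exact h2

/-- series whose coefficients vanish to decreasing order -/
def Jw (𝔫 : Ideal A) (w : ℕ) : Ideal (PowerSeries A) where
  carrier := {P | ∀ k, PowerSeries.coeff k P ∈ 𝔫 ^ (w - k)}
  add_mem' := by
    intro a b ha hb k
    rw [map_add]
    exact Ideal.add_mem _ (ha k) (hb k)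
  zero_mem' := by
    intro k
    rw [map_zero]
    exact Ideal.zero_mem _
  smul_mem' := by
    intro c x hx k
    rw [smul_eq_mul, PowerSeries.coeff_mul]
    refine Ideal.sum_mem _ fun ab hab => ?_
    have h1 := Finset.HasAntidiagonal.mem_antidiagonal.1 hab
    refine Ideal.mul_mem_left _ _ ?_
    exact Ideal.pow_le_pow_right (by omega) (hx ab.2)

theorem mem_Jw {𝔫 : Ideal A} {w : ℕ} {P : PowerSeries A} :
    P ∈ Jw 𝔫 w ↔ ∀ k, PowerSeries.coeff k P ∈ 𝔫 ^ (w - k) := Iff.rfl

theorem pow_le_Jw (𝔫 : Ideal A) (w : ℕ) :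
    (𝔫.comap (PowerSeries.constantCoeff (R := A))) ^ w ≤ Jw 𝔫 w := by
  induction w with
  | zero =>
    intro P _
    rw [mem_Jw]
    intro k
    rw [Nat.zero_sub, pow_zero, Ideal.one_eq_top]
    exact Submodule.mem_top
  | succ w ih =>
    rw [pow_succ']
    refine Ideal.mul_le.2 fun P hP R hR => ?_
    have hR' := ih hR
    rw [mem_Jw] at hR' ⊢
    intro k
    rw [PowerSeries.coeff_mul]
    refine Ideal.sum_mem _ fun ab hab => ?_
    have h1 := Finset.HasAntidiagonal.mem_antidiagonal.1 hab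
    rcases Nat.eq_zero_or_pos ab.1 with h0 | h0
    · rw [h0]
      have hP' : PowerSeries.coeff 0 P ∈ 𝔫 := by
        rw [PowerSeries.coeff_zero_eq_constantCoeff_apply]
        exact hP
      have h2 : PowerSeries.coeff 0 P * PowerSeries.coeff ab.2 R ∈ 𝔫 * 𝔫 ^ (w - ab.2) :=
        Ideal.mul_mem_mul hP' (hR' ab.2)
      rw [← pow_succ'] at h2
      exact Ideal.pow_le_pow_right (by omega) h2
    · refine Ideal.mul_mem_left _ _ ?_
      exact Ideal.pow_le_pow_right (by omega) (hR' ab.2)

end ps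

/-- `ξ^j y^t ↦ ξ^j (1 + X)^t` -/
noncomputable def mon (K J : Type) [Field K] [AddCommGroup J] :
    Multiplicative (J × ℤ) →* PowerSeries (AddMonoidAlgebra K J) where
  toFun m := PowerSeries.C (AddMonoidAlgebra.single (Multiplicative.toAdd m).1 (1 : K)) *
    ((u1 ^ (Multiplicative.toAdd m).2 : (PowerSeries (AddMonoidAlgebra K J))ˣ) :
      PowerSeries (AddMonoidAlgebra K J))
  map_one' := by
    rw [toAdd_one, Prod.fst_zero, Prod.snd_zero, zpow_zero, Units.val_one, mul_one,
      ← AddMonoidAlgebra.one_def, map_one]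
  map_mul' a b := by
    rw [toAdd_mul, Prod.fst_add, Prod.snd_add, zpow_add, Units.val_mul]
    have h : (AddMonoidAlgebra.single ((Multiplicative.toAdd a).1 + (Multiplicative.toAdd b).1)
        (1 : K)) = AddMonoidAlgebra.single (Multiplicative.toAdd a).1 (1 : K) *
          AddMonoidAlgebra.single (Multiplicative.toAdd b).1 (1 : K) := by
      rw [AddMonoidAlgebra.single_mul_single, mul_one]
    rw [h, map_mul]
    ring

/-- the Taylor map -/
noncomputable def T (K J : Type) [Field K] [AddCommGroup J] :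
    AddMonoidAlgebra K (J × ℤ) →ₐ[K] PowerSeries (AddMonoidAlgebra K J) :=
  AddMonoidAlgebra.lift K _ (J × ℤ) (mon K J)

/-- the point `(q, 1)` -/
def pt (q : Pt K J) : Pt K (J × ℤ) where
  toFun m := q (Multiplicative.ofAdd (Multiplicative.toAdd m).1)
  map_one' := by
    rw [toAdd_one, Prod.fst_zero, ofAdd_zero, map_one]
  map_mul' a b := by
    rw [toAdd_mul, Prod.fst_add, ofAdd_add, map_mul]

theorem T_single (m : J × ℤ) (b : K) : T K J (AddMonoidAlgebra.single m b) =
    b • (PowerSeries.C (AddMonoidAlgebra.single m.1 (1 : K)) *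
      ((u1 ^ m.2 : (PowerSeries (AddMonoidAlgebra K J))ˣ) :
        PowerSeries (AddMonoidAlgebra K J))) := by
  unfold T
  rw [AddMonoidAlgebra.lift_single]
  rfl

theorem evp_single {M : Type} [AddCommGroup M] (p : Pt K M) (m : M) (b : K) :
    evp p (AddMonoidAlgebra.single m b) = b * p (Multiplicative.ofAdd m) := by
  unfold evp
  rw [AddMonoidAlgebra.lift_single, smul_eq_mul]

theorem evp_pt (q : Pt K J) (f : AddMonoidAlgebra K (J × ℤ)) :
    evp (pt q) f = evp q (PowerSeries.constantCoeff (T K J f)) := by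
  induction f using AddMonoidAlgebra.induction_linear with
  | zero => simp
  | add f g hf hg => rw [map_add, map_add, map_add, map_add, hf, hg]
  | single m b =>
    rw [T_single, evp_single]
    have h : PowerSeries.constantCoeff (b • (PowerSeries.C (AddMonoidAlgebra.single m.1 (1 : K)) *
      ((u1 ^ m.2 : (PowerSeries (AddMonoidAlgebra K J))ˣ) :
        PowerSeries (AddMonoidAlgebra K J)))) = AddMonoidAlgebra.single m.1 b := by
      rw [← PowerSeries.coeff_zero_eq_constantCoeff_apply, PowerSeries.coeff_smul,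
        PowerSeries.coeff_zero_eq_constantCoeff_apply, map_mul, coeff_zero_u1, mul_one,
        PowerSeries.constantCoeff_C]
      ext j
      simp [AddMonoidAlgebra.smul_single]
    rw [h, evp_single]
    rfl

/-- the coefficients of the Taylor expansion -/
theorem coeff_T (f : AddMonoidAlgebra K (J × ℤ)) (hf : ∀ m ∈ f.coeff.support, 0 ≤ m.2) (k : ℕ)
    (j : J) [DecidableEq J] : (PowerSeries.coeff k (T K J f)).coeff j =
      ∑ m ∈ f.coeff.support.filter (fun m => m.1 = j), f.coeff m * (m.2.toNat.choose k : K) := by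
  have h1 : T K J f = f.coeff.sum fun m b => b • mon K J (Multiplicative.ofAdd m) := by
    unfold T
    rw [AddMonoidAlgebra.lift_apply]
  rw [h1, Finsupp.sum, map_sum, AddMonoidAlgebra.coeff_sum, Finset.sum_filter]
  simp only [Finsupp.coe_finsetSum, Finset.sum_apply]
  refine Finset.sum_congr rfl fun m hm => ?_
  have h2 : mon K J (Multiplicative.ofAdd m) = PowerSeries.C (AddMonoidAlgebra.single m.1 (1 : K)) *
      ((u1 ^ m.2 : (PowerSeries (AddMonoidAlgebra K J))ˣ) :
        PowerSeries (AddMonoidAlgebra K J)) := rfl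
  obtain ⟨n, hn⟩ : ∃ n : ℕ, m.2 = n := Int.eq_ofNat_of_zero_le (hf m hm)
  rw [h2, PowerSeries.coeff_smul, PowerSeries.coeff_C_mul, hn, coeff_u1_pow, Int.toNat_natCast]
  have h3 : ((n.choose k : ℕ) : AddMonoidAlgebra K J) =
      AddMonoidAlgebra.single 0 (n.choose k : K) := rfl
  rw [h3, AddMonoidAlgebra.single_mul_single, one_mul, add_zero, AddMonoidAlgebra.coeff_smul,
    Finsupp.smul_apply, AddMonoidAlgebra.coeff_single, Finsupp.single_apply, smul_eq_mul]
  split_ifs
  · rfl
  · rw [mul_zero]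

end Final

open Final

theorem EmpS.final {𝓕 : Set ((ι → ℕ) × Set (J × ℤ))} {𝓕' : Set ((ι → ℕ) × Set J)}
    (h : ∀ x ∈ 𝓕, (∀ j t, (j, t) ∈ x.2 → 0 ≤ t) ∧
      (∀ j t, 0 ≤ t → (j, t + 1) ∈ x.2 → (j, t) ∈ x.2) ∧
      ∀ k : ℕ, ((fun i => x.1 i - k), {j | (j, (k : ℤ)) ∈ x.2}) ∈ 𝓕')
    (h' : EmpS 𝓕') : EmpS 𝓕 := by
  classical
  obtain ⟨K, hK, hK0, q, hq⟩ := h'
  refine ⟨K, hK, hK0, fun i => pt (q i), ?_⟩
  intro x hx f hfS hfw
  obtain ⟨g1, g2, g3⟩ := h x hx
  have hf0 : ∀ m ∈ f.coeff.support, 0 ≤ m.2 := fun m hm => g1 m.1 m.2 (hfS m hm)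
  have hdown : ∀ (j : J) (k n : ℕ), k ≤ n → (j, (n : ℤ)) ∈ x.2 → (j, (k : ℤ)) ∈ x.2 := by
    intro j k n hkn
    induction n, hkn using Nat.le_induction with
    | base => exact id
    | succ n hn ih =>
      intro hm
      refine ih (g2 j n (Int.natCast_nonneg n) ?_)
      exact_mod_cast hm
  -- all the Taylor coefficients vanish
  have hz : ∀ k : ℕ, PowerSeries.coeff k (T K J f) = 0 := by
    intro k
    refine hq _ (g3 k) _ ?_ ?_
    · intro j hj
      rw [Finsupp.mem_support_iff, coeff_T f hf0 k j] at hj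
      obtain ⟨m, hm, hm2⟩ := Finset.exists_ne_zero_of_sum_ne_zero hj
      obtain ⟨hm3, hm4⟩ := Finset.mem_filter.1 hm
      have hc : m.2.toNat.choose k ≠ 0 := by
        intro h0
        rw [h0, Nat.cast_zero, mul_zero] at hm2
        exact hm2 rfl
      have hk : k ≤ m.2.toNat := by
        by_contra hk
        exact hc (Nat.choose_eq_zero_of_lt (not_le.1 hk))
      have h5 : (j, ((m.2.toNat : ℕ) : ℤ)) ∈ x.2 := by
        rw [Int.toNat_of_nonneg (hf0 m hm3), ← hm4]
        exact hfS m hm3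
      exact hdown j k _ hk h5
    · intro i
      have h1 : (mI (pt (q i))) ^ x.1 i ≤
          ((mI (q i)).comap (PowerSeries.constantCoeff (R := AddMonoidAlgebra K J)) ^ x.1 i).comap
            (T K J) := by
        refine le_trans (Ideal.pow_right_mono ?_ _) (Ideal.le_comap_pow _ _)
        intro g hg
        show evp (q i) (PowerSeries.constantCoeff (T K J g)) = 0
        rw [← evp_pt]
        exact hg
      have h2 := pow_le_Jw (mI (q i)) (x.1 i) (h1 (hfw i))
      exact (mem_Jw.1 h2) k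
  -- the top coefficient
  by_contra hne
  have hsupp : f.coeff.support.Nonempty := by
    rw [Finsupp.support_nonempty_iff]
    intro h0
    exact hne (AddMonoidAlgebra.coeff_eq_zero.1 h0)
  obtain ⟨m, hm, hmax⟩ := Finset.exists_max_image f.coeff.support (fun m => m.2) hsupp
  have h1 := coeff_T f hf0 m.2.toNat m.1
  rw [hz, AddMonoidAlgebra.coeff_zero, Finsupp.zero_apply, Finset.sum_eq_single m] at h1
  · rw [Nat.choose_self, Nat.cast_one, mul_one] at h1
    exact (Finsupp.mem_support_iff.1 hm) h1.symm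
  · intro m' hm' hne'
    obtain ⟨hm3, hm4⟩ := Finset.mem_filter.1 hm'
    have h5 := hmax m' hm3
    have h6 := hf0 m' hm3
    have h7 := hf0 m hm
    have h8 : m'.2 ≠ m.2 := fun h9 => hne' (Prod.ext hm4 h9)
    have h9 : m'.2.toNat < m.2.toNat := by
      have h5' : m'.2 ≤ m.2 := h5
      omega
    rw [Nat.choose_eq_zero_of_lt h9, Nat.cast_zero, mul_zero]
  · intro hm'
    exact (hm' (Finset.mem_filter.2 ⟨hm, rfl⟩)).elim

end Pool.Agent.TH722.PN
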