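import Pool.Agent.TH722.PN.Defs

/-! First stage of the chain from `ℙ ^ N`: shear, flattening, nodal degeneration. The general
lemmas `EmpS.equiv`, `EmpS.flat`, `EmpS.nodal` are hypotheses here. -/

set_option autoImplicit false

namespace Pool.Agent.TH722.PN

namespace First

theorem Q_add (p : ℕ) (x y : Q (p + 1)) : x + y = (x.1 + y.1, x.2 + y.2) := rfl

theorem Sm_add : (p : ℕ) → (x y : Q p) → Sm p (x + y) = Sm p x + Sm p y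
  | 0, _, _ => by simp [Sm]
  | (p + 1), x, y => by
    rw [Q_add]
    simp only [Sm]
    rw [Sm_add p]
    ring

theorem Sm_nonneg : (p : ℕ) → (x : Q p) → Nn p x → 0 ≤ Sm p x
  | 0, _, _ => by simp [Sm]
  | (p + 1), x, h => by
    simp only [Sm]
    have := Sm_nonneg p x.1 h.1
    have := h.2
    omega

theorem Sm_zero (p : ℕ) : Sm p 0 = 0 := by
  have := Sm_add p 0 0
  simp at this
  omega

/-- `((y, y1), y2) ↦ ((y, y1 - y2), y2)` -/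
noncomputable def e1 (r : ℕ) : Q (r + 2) ≃+ (Q r × ℤ) × ℤ where
  toFun y := ((y.1.1, y.1.2 - y.2), y.2)
  invFun y := ((y.1.1, y.1.2 + y.2), y.2)
  left_inv y := by
    obtain ⟨⟨y, a⟩, b⟩ := y
    simp only [sub_add_cancel]
    try rfl
  right_inv y := by
    obtain ⟨⟨y, a⟩, b⟩ := y
    simp only [add_sub_cancel_right]
  map_add' x y := by
    have h1 : (x + y).2 = x.2 + y.2 := rfl
    have h2 : (x + y).1.2 = x.1.2 + y.1.2 := rfl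
    have h3 : (x + y).1.1 = x.1.1 + y.1.1 := rfl
    rw [h1, h2, h3]
    simp only [Prod.mk_add_mk, Prod.mk.injEq, and_true, true_and]
    ring

/-- `((y, L), t) ↦ (y, (-Sm y - L - 2t, t))` -/
noncomputable def e2 (r : ℕ) : (Q r × ℤ) × ℤ ≃+ Q r × (ℤ × ℤ) where
  toFun y := (y.1.1, (-Sm r y.1.1 - y.1.2 - 2 * y.2, y.2))
  invFun y := ((y.1, -Sm r y.1 - y.2.1 - 2 * y.2.2), y.2.2)
  left_inv y := by
    obtain ⟨⟨y, a⟩, b⟩ := y
    simp only [Prod.mk.injEq, and_true, true_and]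
    ring
  right_inv y := by
    obtain ⟨y, ⟨a, b⟩⟩ := y
    simp only [Prod.mk.injEq, and_true, true_and]
    ring
  map_add' x y := by
    obtain ⟨⟨x, a⟩, b⟩ := x
    obtain ⟨⟨y, a'⟩, b'⟩ := y
    simp only [Prod.mk_add_mk, Prod.mk.injEq, and_true, true_and, Sm_add]
    ring

/-- `(y, (i, m)) ↦ (((0, i), y), m)` -/
noncomputable def e3 (r : ℕ) : Q r × (ℤ × ℤ) ≃+ (Q 1 × Q r) × ℤ where
  toFun y := (((PUnit.unit, y.2.1), y.1), y.2.2)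
  invFun y := (y.1.2, (y.1.1.2, y.2))
  left_inv y := by
    obtain ⟨y, ⟨a, b⟩⟩ := y
    simp
  right_inv y := by
    obtain ⟨⟨⟨⟨⟩, a⟩, y⟩, b⟩ := y
    simp
  map_add' x y := by
    obtain ⟨x, ⟨a, b⟩⟩ := x
    obtain ⟨y, ⟨a', b'⟩⟩ := y
    rfl

end First

open First in
theorem EmpS.first_of
    (hequiv : ∀ {ι M M' : Type} [AddCommGroup M] [AddCommGroup M'] (e : M ≃+ M')
      {𝓕 : Set ((ι → ℕ) × Set M)} {𝓕' : Set ((ι → ℕ) × Set M')},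
      (∀ x ∈ 𝓕, ∃ (v : M') (S' : Set M'), (x.1, S') ∈ 𝓕' ∧ ∀ m ∈ x.2, e m + v ∈ S') →
      EmpS 𝓕' → EmpS 𝓕)
    (hflat : ∀ {ι J : Type} [AddCommGroup J] {𝓕 𝓕' : Set ((ι → ℕ) × Set (J × ℤ))},
      (∀ x ∈ 𝓕, ∃ S', (x.1, S') ∈ 𝓕' ∧ (∀ j, {b | (j, b) ∈ x.2}.Finite) ∧
        ∀ j b0 b1 t, (j, b0) ∈ x.2 → (j, b1) ∈ x.2 → 0 ≤ t → t ≤ b1 - b0 → (j, t) ∈ S') →
      EmpS 𝓕' → EmpS 𝓕)
    (hnodal : ∀ {ι J : Type} [AddCommGroup J] {δ : ℕ}, 2 ≤ δ → ∀ {τ : ℝ}, 0 < τ → τ < 1 / 2 →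
      ∀ (B : ℝ) {𝓕 𝓕' : Set ((ι → ℕ) × Set (J × (ℤ × ℤ)))},
      (∀ x ∈ 𝓕, ∃ S', (x.1, S') ∈ 𝓕' ∧ ∀ j, ∃ c : ℝ, c ≤ B ∧
        (∀ a b : ℤ, (j, (a, b)) ∈ x.2 → 0 ≤ a ∧ 0 ≤ b ∧ (a : ℝ) + δ * b ≤ c) ∧
        (∀ i m : ℤ, 0 ≤ m → -(2 * τ * (c - 2 * δ * m)) ≤ (i : ℝ) →
          (i : ℝ) ≤ (2 - 2 * τ) * (c - 2 * δ * m) → (j, (i, m)) ∈ S')) →
      EmpS 𝓕' → EmpS 𝓕)
    {ι : Type} {a : ℕ → ℝ × ℝ} {τ : ℝ} (h0 : 0 < τ) (h1 : τ < 1 / 2)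
    (ha0 : a 0 = (2 * τ, 2 - 2 * τ)) {r d : ℕ} {w : ι → ℕ}
    (h : EmpS {(w, ({y | 0 ≤ y.2 ∧ Nn r y.1.2 ∧ GG a 1 y.1.1 + 2 * Sm r y.1.2 + 8 * y.2 ≤ 2 * d} :
      Set ((Q 1 × Q r) × ℤ)))}) :
    EmpS {(w, {y : Q (r + 2) | Nn (r + 2) y ∧ Sm (r + 2) y ≤ d})} := by
  -- step 5
  have s5 : EmpS {(w, {y : Q r × (ℤ × ℤ) | 0 ≤ y.2.2 ∧ Nn r y.1 ∧
      gau (2 * τ, 2 - 2 * τ) y.2.1 + 2 * Sm r y.1 + 8 * y.2.2 ≤ 2 * d})} := by
    refine hequiv (e3 r) ?_ h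
    rintro x rfl
    refine ⟨0, _, rfl, ?_⟩
    rintro ⟨y, ⟨i, m⟩⟩ ⟨hm, hy, hle⟩
    refine ⟨?_, ?_, ?_⟩
    · simpa [e3] using hm
    · simpa [e3] using hy
    · simp only [e3, add_zero]
      simp only [GG, ha0]
      simpa using hle
  -- step 4
  have s4 : EmpS {(w, {y : Q r × (ℤ × ℤ) | Nn r y.1 ∧ 0 ≤ y.2.1 ∧ 0 ≤ y.2.2 ∧
      y.2.1 + 4 * y.2.2 ≤ 2 * (d - Sm r y.1)})} := by
    refine hnodal (δ := 4) (by norm_num) h0 h1 (2 * d) ?_ s5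
    rintro x rfl
    refine ⟨_, rfl, ?_⟩
    intro j
    by_cases hj : Nn r j
    · have hS := Sm_nonneg r j hj
      have hS' : (0 : ℝ) ≤ Sm r j := by exact_mod_cast hS
      refine ⟨2 * d - 2 * Sm r j, by linarith, ?_, ?_⟩
      · rintro a b ⟨_, ha, hb, hab⟩
        refine ⟨ha, hb, ?_⟩
        have : ((a + 4 * b : ℤ) : ℝ) ≤ ((2 * (d - Sm r j) : ℤ) : ℝ) := by exact_mod_cast hab
        push_cast at this ⊢
        linarith
      · intro i m hm hi1 hi2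
        refine ⟨hm, hj, ?_⟩
        simp only
        have hg : gau (2 * τ, 2 - 2 * τ) (i : ℝ) ≤ 2 * d - 2 * Sm r j - 8 * m := by
          unfold gau
          refine max_le ?_ ?_
          · rw [div_le_iff₀ (by simp only; linarith)]
            push_cast at hi2
            simp only
            linarith
          · rw [div_le_iff₀ (by simp only; linarith)]
            push_cast at hi1
            simp only
            linarith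
        linarith
    · refine ⟨-1, by have : (0 : ℝ) ≤ d := Nat.cast_nonneg d
                     linarith, ?_, ?_⟩
      · rintro a b ⟨hj', _⟩
        exact absurd hj' hj
      · intro i m hm hi1 hi2
        exfalso
        have hm' : (0 : ℝ) ≤ m := by exact_mod_cast hm
        push_cast at hi1 hi2
        have hneg : (-1 : ℝ) - 2 * 4 * m < 0 := by linarith
        have a1 : 2 * τ * (-1 - 2 * 4 * (m : ℝ)) < 0 := mul_neg_of_pos_of_neg (by linarith) hneg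
        have a2 : (2 - 2 * τ) * (-1 - 2 * 4 * (m : ℝ)) < 0 :=
          mul_neg_of_pos_of_neg (by linarith) hneg
        linarith
  -- step 3
  have s3 : EmpS {(w, {y : (Q r × ℤ) × ℤ | Nn r y.1.1 ∧ 0 ≤ y.2 ∧
      y.1.2 + 2 * y.2 ≤ d - Sm r y.1.1 ∧ -y.1.2 + 2 * y.2 ≤ d - Sm r y.1.1})} := by
    refine hequiv (e2 r) ?_ s4
    rintro x rfl
    refine ⟨(0, ((d : ℤ), 0)), _, rfl, ?_⟩
    rintro ⟨⟨y, L⟩, t⟩ ⟨hy, ht, hl1, hl2⟩
    simp only at hy ht hl1 hl2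
    have : e2 r ((y, L), t) + (0, ((d : ℤ), 0)) = (y, (-Sm r y - L - 2 * t + d, t)) := by
      simp [e2]
    rw [this]
    refine ⟨hy, ?_, ht, ?_⟩
    · simp only; omega
    · simp only; omega
  -- step 2
  have s2 : EmpS {(w, {y : (Q r × ℤ) × ℤ | Nn r y.1.1 ∧ 0 ≤ y.2 ∧ 0 ≤ y.1.2 + y.2 ∧
      Sm r y.1.1 + y.1.2 + 2 * y.2 ≤ d})} := by
    refine hflat ?_ s3
    rintro x rfl
    refine ⟨_, rfl, ?_, ?_⟩
    · rintro ⟨y, L⟩
      refine (Set.finite_Icc (0 : ℤ) (d - Sm r y - L)).subset ?_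
      rintro b ⟨hy, hb, hb2, hb3⟩
      simp only at hy hb hb2 hb3
      rw [Set.mem_Icc]
      constructor <;> omega
    · rintro ⟨y, L⟩ b0 b1 t ⟨hy, h01, h02, h03⟩ ⟨_, h11, h12, h13⟩ ht ht2
      simp only at hy h01 h02 h03 h11 h12 h13
      refine ⟨hy, ht, ?_, ?_⟩
      · simp only; omega
      · simp only; omega
  -- step 1
  refine hequiv (e1 r) ?_ s2
  rintro x rfl
  refine ⟨0, _, rfl, ?_⟩
  rintro ⟨⟨y, p⟩, q⟩ ⟨⟨⟨hy, hp⟩, hq⟩, hs⟩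
  simp only at hy hp hq
  simp only [Sm] at hs
  have : e1 r ((y, p), q) + 0 = ((y, p - q), q) := by
    rw [add_zero]
    rfl
  rw [this]
  refine ⟨hy, hq, ?_, ?_⟩
  · simp only; omega
  · simp only; omega

end Pool.Agent.TH722.PN
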