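import Pool.Agent.TH722.PN.Defs

set_option autoImplicit false

/-! # One variable: `y = 1 + t Y` -/

namespace Pool.Agent.TH722.PN

open Polynomial

namespace FlatOne

/-- a combination of `k` powers which vanishes to order `k` at `1` is zero -/
theorem vand {F : Type} [Field F] [CharZero F] {ι : Type} [DecidableEq ι] (S : Finset ι)
    (n : ι → ℕ) (hn : Set.InjOn n S) (γ : ι → F)
    (h : ∀ r < S.card, ∑ b ∈ S, γ b * ((n b).choose r : F) = 0) : ∀ b ∈ S, γ b = 0 := by
  intro b0 hb0
  set g : F[X] := ∏ b ∈ S.erase b0, (X - C (n b : F)) with hg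
  have hdeg : g.natDegree < S.card := by
    rw [hg, natDegree_prod_of_monic _ _ (fun b _ => monic_X_sub_C _)]
    simp only [natDegree_X_sub_C, Finset.sum_const, smul_eq_mul, mul_one]
    exact Finset.card_erase_lt_of_mem hb0
  have hN : ∀ m : ℕ, g.eval (m : F) =
      ∑ j ∈ Finset.range S.card, (m.choose j : F) * (fwdDiff (1 : F))^[j] g.eval 0 := by
    intro m
    have h1 := shift_eq_sum_fwdDiff_iter (1 : F) g.eval m 0
    rw [zero_add, nsmul_eq_mul, mul_one] at h1
    rw [h1]
    have h2 : ∀ N : ℕ, S.card ≤ N → m + 1 ≤ N →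
        ∑ k ∈ Finset.range (m + 1), m.choose k • (fwdDiff (1 : F))^[k] g.eval 0 =
        ∑ j ∈ Finset.range S.card, (m.choose j : F) * (fwdDiff (1 : F))^[j] g.eval 0 := by
      intro N hN1 hN2
      have h3 : ∑ k ∈ Finset.range (m + 1), m.choose k • (fwdDiff (1 : F))^[k] g.eval 0 =
          ∑ k ∈ Finset.range N, (m.choose k : F) * (fwdDiff (1 : F))^[k] g.eval 0 := by
        simp only [nsmul_eq_mul]
        refine Finset.sum_subset (Finset.range_mono hN2) fun k _ hk => ?_
        rw [Finset.mem_range, not_lt] at hk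
        rw [Nat.choose_eq_zero_of_lt (by omega), Nat.cast_zero, zero_mul]
      rw [h3]
      refine (Finset.sum_subset (Finset.range_mono hN1) fun k _ hk => ?_).symm
      rw [Finset.mem_range, not_lt] at hk
      rw [Polynomial.fwdDiff_iter_eq_zero_of_degree_lt (lt_of_lt_of_le hdeg hk)]
      simp
    exact h2 (max S.card (m + 1)) (le_max_left _ _) (le_max_right _ _)
  have hsum : ∑ b ∈ S, γ b * g.eval (n b : F) = 0 := by
    simp_rw [hN, Finset.mul_sum]
    rw [Finset.sum_comm]
    refine Finset.sum_eq_zero fun j hj => ?_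
    have h1 := h j (Finset.mem_range.1 hj)
    calc ∑ b ∈ S, γ b * (((n b).choose j : F) * (fwdDiff (1 : F))^[j] g.eval 0) =
        (∑ b ∈ S, γ b * ((n b).choose j : F)) * (fwdDiff (1 : F))^[j] g.eval 0 := by
          rw [Finset.sum_mul]
          exact Finset.sum_congr rfl fun b _ => by ring
      _ = 0 := by rw [h1, zero_mul]
  rw [Finset.sum_eq_single b0] at hsum
  · rcases mul_eq_zero.1 hsum with h1 | h1
    · exact h1
    · exfalso
      rw [hg, eval_prod, Finset.prod_eq_zero_iff] at h1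
      obtain ⟨b, hb, h2⟩ := h1
      rw [Finset.mem_erase] at hb
      rw [eval_sub, eval_X, eval_C, sub_eq_zero] at h2
      exact hb.1 (hn hb.2 hb0 (by exact_mod_cast h2.symm))
  · intro b hb hne
    rw [hg, eval_prod, Finset.prod_eq_zero (i := b) (Finset.mem_erase.2 ⟨hne, hb⟩) (by simp),
      mul_zero]
  · exact fun h => absurd hb0 h

variable {F : Type} [Field F]

/-- the element `t Y` -/
noncomputable def T (F : Type) [Field F] : HahnSeries ℝ (AddMonoidAlgebra F ℤ) :=
  HahnSeries.single 1 (AddMonoidAlgebra.single 1 1)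

theorem T_pow (n : ℕ) : T F ^ n =
    HahnSeries.single (n : ℝ) (AddMonoidAlgebra.single (n : ℤ) (1 : F)) := by
  unfold T
  rw [HahnSeries.single_pow, AddMonoidAlgebra.single_pow, one_pow, nsmul_eq_mul, mul_one,
    nsmul_eq_mul, mul_one]

theorem incl_coeff (x : HahnSeries ℝ F) (a : ℝ) :
    (incl (M' := ℤ) x).coeff a = AddMonoidAlgebra.single 0 (x.coeff a) := rfl

theorem coeff_mono (x : HahnSeries ℝ F) (n : ℕ) (a : ℝ) :
    (incl (M' := ℤ) x * T F ^ n).coeff a =
      AddMonoidAlgebra.single (n : ℤ) (x.coeff (a - n)) := by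
  rw [T_pow, HahnSeries.coeff_mul_single, incl_coeff, AddMonoidAlgebra.single_mul_single, zero_add,
    mul_one]

theorem coeff_eval (Q : (HahnSeries ℝ F)[X]) (a : ℝ) (m : ℤ) :
    ((Q.eval₂ (incl (M' := ℤ)) (T F)).coeff a).coeff m =
      if 0 ≤ m then (Q.coeff m.toNat).coeff (a - m) else 0 := by
  induction Q using Polynomial.induction_on' with
  | add p q hp hq =>
    rw [eval₂_add, HahnSeries.coeff_add, AddMonoidAlgebra.coeff_add, Finsupp.add_apply, hp, hq,
      Polynomial.coeff_add, HahnSeries.coeff_add]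
    split_ifs
    · rfl
    · rw [add_zero]
  | monomial n c =>
    rw [eval₂_monomial, coeff_mono, AddMonoidAlgebra.coeff_single, Finsupp.single_apply,
      Polynomial.coeff_monomial]
    by_cases hm : (n : ℤ) = m
    · subst hm
      simp
    · rw [if_neg hm]
      split_ifs with h1 h2
      · exfalso
        omega
      · simp
      · rfl

/-- the unit `1 + t Y` -/
theorem T_top : 0 < ((1 + T F) - 1).orderTop := by
  rw [add_sub_cancel_left]
  unfold T
  rw [HahnSeries.orderTop_single]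
  · exact_mod_cast one_pos
  · intro h
    have h1 := congrArg (fun x : AddMonoidAlgebra F ℤ => x.coeff 1) h
    simp at h1

theorem T_unit : IsUnit (1 + T F) := HahnSeries.isUnit_of_orderTop_pos T_top

theorem lead_pow (k : ℕ) : ((1 + T F) ^ k).leadingCoeff = 1 ∧ ((1 + T F) ^ k).order = 0 := by
  obtain ⟨h1, h2⟩ := (HahnSeries.orderTop_self_sub_one_pos_iff (1 + T F)).1 T_top
  have hne : (1 + T F) ≠ 0 := by
    intro h
    rw [h, HahnSeries.leadingCoeff_zero] at h2
    exact zero_ne_one h2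
  have h3 : (1 + T F).order = 0 := by
    rw [← HahnSeries.order_eq_orderTop_of_ne_zero hne] at h1
    exact_mod_cast h1
  induction k with
  | zero =>
    rw [pow_zero]
    exact ⟨HahnSeries.leadingCoeff_one, HahnSeries.order_one⟩
  | succ k ih =>
    have h4 : ((1 + T F) ^ k).leadingCoeff * (1 + T F).leadingCoeff ≠ 0 := by
      rw [ih.1, h2, mul_one]
      exact one_ne_zero
    rw [pow_succ]
    refine ⟨?_, ?_⟩
    · rw [HahnSeries.leadingCoeff_mul_of_ne_zero h4, ih.1, h2, mul_one]
    · rw [HahnSeries.order_mul_of_ne_zero h4, ih.2, h3, add_zero]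

theorem leadIn_of_mul {x : HahnSeries ℝ (AddMonoidAlgebra F ℤ)} {S' : Set ℤ} (k : ℕ)
    (h : LeadIn ((1 + T F) ^ k * x) S') : LeadIn x S' := by
  obtain ⟨a, h1, h2, h3⟩ := h
  have hx : x ≠ 0 := by
    rintro rfl
    rw [mul_zero] at h2
    exact h2 rfl
  have h4 : ((1 + T F) ^ k).leadingCoeff * x.leadingCoeff ≠ 0 := by
    rw [(lead_pow k).1, one_mul]
    exact HahnSeries.leadingCoeff_ne_zero.2 hx
  have h5 : ((1 + T F) ^ k * x).order = x.order := by
    rw [HahnSeries.order_mul_of_ne_zero h4, (lead_pow k).2, zero_add]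
  have h6 : ((1 + T F) ^ k * x).coeff x.order = x.coeff x.order := by
    have h7 := HahnSeries.leadingCoeff_mul_of_ne_zero h4
    rw [HahnSeries.leadingCoeff_eq, h5, (lead_pow k).1, one_mul, HahnSeries.leadingCoeff_eq] at h7
    exact h7
  have hne : x.coeff x.order ≠ 0 := by
    rw [← HahnSeries.leadingCoeff_eq]
    exact HahnSeries.leadingCoeff_ne_zero.2 hx
  have ha : a = x.order := by
    rcases lt_trichotomy a x.order with h7 | h7 | h7
    · rw [← h5] at h7
      exact absurd (HahnSeries.coeff_eq_zero_of_lt_order h7) h2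
    · exact h7
    · have h8 := h1 _ h7
      rw [h6] at h8
      exact absurd h8 hne
  refine ⟨x.order, fun b hb => HahnSeries.coeff_eq_zero_of_lt_order hb, hne, ?_⟩
  rw [← h6, ← ha]
  exact h3

/-- the coefficients of the Taylor expansion at `1` -/
theorem taylor_sum {R : Type} [CommRing R] {ι : Type} (S : Finset ι) (n : ι → ℕ) (c : ι → R)
    (r : ℕ) : (taylor 1 (∑ b ∈ S, monomial (n b) (c b))).coeff r =
      ∑ b ∈ S, ((n b).choose r) • c b := by
  rw [map_sum, finsetSum_coeff]
  refine Finset.sum_congr rfl fun b _ => ?_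
  rw [taylor_monomial, coeff_C_mul, coeff_X_add_C_pow, one_pow, one_mul, nsmul_eq_mul, mul_comm]

end FlatOne

open FlatOne in
/-- one variable: `y = 1 + t Y`, the leading coefficient of a polynomial with `k` exponents has
degree less than `k` -/
theorem exists_flat (F : Type) [Field F] [CharZero F] :
    ∃ ψ : Multiplicative ℤ →* HahnSeries ℝ (AddMonoidAlgebra F ℤ),
      ∀ S : Finset ℤ, Deg ψ (S : Set ℤ) {t | 0 ≤ t ∧ t < S.card} := by
  classical
  obtain ⟨U, hU⟩ := T_unit (F := F)
  set ψ : Multiplicative ℤ →* HahnSeries ℝ (AddMonoidAlgebra F ℤ) :=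
    (Units.coeHom _).comp (zpowersHom _ U) with hψ
  have hψv : ∀ b : ℤ, ψ (Multiplicative.ofAdd b) =
      ((U ^ b : (HahnSeries ℝ (AddMonoidAlgebra F ℤ))ˣ) : HahnSeries ℝ (AddMonoidAlgebra F ℤ)) :=
    fun b => rfl
  refine ⟨ψ, fun S f hf hfS => ?_⟩
  set s : Finset ℤ := f.coeff.support with hs
  have hsS : s ⊆ S := fun m hm => hfS m hm
  have hsn : s.Nonempty := by
    rw [hs, Finsupp.support_nonempty_iff]
    exact fun h => hf (AddMonoidAlgebra.coeff_eq_zero.1 h)
  obtain ⟨k, hk⟩ : ∃ k : ℕ, ∀ b ∈ s, 0 ≤ b + k := by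
    refine ⟨∑ b ∈ s, b.natAbs, fun b hb => ?_⟩
    have h1 : b.natAbs ≤ ∑ b ∈ s, b.natAbs :=
      Finset.single_le_sum (f := fun b : ℤ => b.natAbs) (fun _ _ => Nat.zero_le _) hb
    omega
  set n : ℤ → ℕ := fun b => (b + k).toNat with hn
  have hninj : Set.InjOn n s := by
    intro b hb b' hb' h
    have h1 := hk b hb
    have h2 := hk b' hb'
    simp only [hn] at h
    omega
  -- the least order
  obtain ⟨b0, hb0, hmin⟩ := Finset.exists_min_image s (fun b => (f.coeff b).order) hsn
  set β : ℝ := (f.coeff b0).order with hβ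
  have hlow : ∀ b ∈ s, ∀ a < β, (f.coeff b).coeff a = 0 := fun b hb a ha =>
    HahnSeries.coeff_eq_zero_of_lt_order (lt_of_lt_of_le ha (hmin b hb))
  have hγ : (f.coeff b0).coeff β ≠ 0 := by
    rw [hβ, Ne, HahnSeries.coeff_order_eq_zero]
    exact Finsupp.mem_support_iff.1 hb0
  obtain ⟨r0, hr0, hr0'⟩ : ∃ r < s.card,
      ∑ b ∈ s, (f.coeff b).coeff β * ((n b).choose r : F) ≠ 0 := by
    by_contra hcon
    push Not at hcon
    exact hγ (vand s n hninj (fun b => (f.coeff b).coeff β) hcon b0 hb0)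
  -- the polynomial
  set P : (HahnSeries ℝ F)[X] := ∑ b ∈ s, monomial (n b) (f.coeff b) with hP
  set Q : (HahnSeries ℝ F)[X] := taylor 1 P with hQ
  have hQc : ∀ (r : ℕ) (a : ℝ), (Q.coeff r).coeff a =
      ∑ b ∈ s, (f.coeff b).coeff a * ((n b).choose r : F) := by
    intro r a
    rw [hQ, hP, taylor_sum, HahnSeries.coeff_sum]
    refine Finset.sum_congr rfl fun b _ => ?_
    rw [HahnSeries.coeff_nsmul, Pi.smul_apply, nsmul_eq_mul, mul_comm]
  have hkey : (1 + T F) ^ k * Psi ψ f = Q.eval₂ (incl (M' := ℤ)) (T F) := by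
    have h1 : Q.eval₂ (incl (M' := ℤ)) (T F) = P.eval₂ (incl (M' := ℤ)) (1 + T F) := by
      rw [hQ, taylor_apply, eval₂_comp, eval₂_add, eval₂_X, eval₂_C, map_one, add_comm]
    have h2 : f = ∑ b ∈ s, AddMonoidAlgebra.single b (f.coeff b) :=
      (AddMonoidAlgebra.sum_coeff_single f).symm
    rw [h1, hP, eval₂_finsetSum]
    conv_lhs => rw [h2]
    rw [map_sum, Finset.mul_sum]
    refine Finset.sum_congr rfl fun b hb => ?_
    have h3 : Psi ψ (AddMonoidAlgebra.single b (f.coeff b)) =
        incl (f.coeff b) * ψ (Multiplicative.ofAdd b) :=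
      AddMonoidAlgebra.liftNCRingHom_single _ _ _ _ _
    rw [h3, hψv, eval₂_monomial, ← hU, mul_left_comm]
    congr 1
    rw [← Units.val_pow_eq_pow_val, ← Units.val_pow_eq_pow_val, ← Units.val_mul]
    congr 1
    have h4 : ((n b : ℕ) : ℤ) = b + k := Int.toNat_of_nonneg (hk b hb)
    rw [← zpow_natCast, ← zpow_natCast, ← zpow_add, h4, add_comm]
  refine leadIn_of_mul k ?_
  rw [hkey]
  set z := Q.eval₂ (incl (M' := ℤ)) (T F) with hz
  have hzc : ∀ (a : ℝ) (m : ℤ), (z.coeff a).coeff m =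
      if 0 ≤ m then (Q.coeff m.toNat).coeff (a - m) else 0 := fun a m => coeff_eval Q a m
  have hz1 : z.coeff (β + r0) ≠ 0 := by
    intro h
    have h1 := hzc (β + r0) r0
    rw [h, if_pos (by omega), Int.toNat_natCast, hQc] at h1
    apply hr0'
    rw [Int.cast_natCast, add_sub_cancel_right] at h1
    rw [← h1]
    rfl
  have hzne : z ≠ 0 := fun h => hz1 (by rw [h]; rfl)
  refine ⟨z.order, fun b hb => HahnSeries.coeff_eq_zero_of_lt_order hb, ?_, ?_⟩
  · rw [← HahnSeries.leadingCoeff_eq]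
    exact HahnSeries.leadingCoeff_ne_zero.2 hzne
  · intro m hm
    have h1 := HahnSeries.order_le_of_coeff_ne_zero hz1
    rw [Finsupp.mem_support_iff, hzc] at hm
    by_cases hm0 : 0 ≤ m
    · rw [if_pos hm0, hQc] at hm
      refine ⟨hm0, ?_⟩
      have h2 : β ≤ z.order - m := by
        by_contra hcon
        push Not at hcon
        apply hm
        refine Finset.sum_eq_zero fun b hb => ?_
        rw [hlow b hb _ hcon, zero_mul]
      have h3 : (m : ℝ) ≤ r0 := by linarith
      have h4 : m ≤ r0 := by exact_mod_cast h3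
      have h5 : s.card ≤ S.card := Finset.card_le_card hsS
      omega
    · rw [if_neg hm0] at hm
      exact absurd rfl hm

end Pool.Agent.TH722.PN
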