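import Pool.Agent.TH722.PN.FlatX
import Pool.Agent.TH722.PN.Degen
import Pool.Agent.TH722.PN.FlatOne

/-!
Flattening.
-/

set_option autoImplicit false

namespace Pool.Agent.TH722.PN

variable {ι J : Type} [AddCommGroup J]

theorem EmpS.flat {𝓕 𝓕' : Set ((ι → ℕ) × Set (J × ℤ))}
    (h : ∀ x ∈ 𝓕, ∃ S', (x.1, S') ∈ 𝓕' ∧ (∀ j, {b | (j, b) ∈ x.2}.Finite) ∧
      ∀ j b0 b1 t, (j, b0) ∈ x.2 → (j, b1) ∈ x.2 → 0 ≤ t → t ≤ b1 - b0 → (j, t) ∈ S')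
    (h' : EmpS 𝓕') : EmpS 𝓕 :=
  flat_of (fun _ _ ψ h1 h2 => EmpS.degen ψ h1 h2) (fun F _ _ => exists_flat F) h h'

end Pool.Agent.TH722.PN
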