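import Pool.Agent.TH722.PN.Defs

/-!
Flattening in one variable, from the degeneration lemma (`EmpS.degen`) and the lemma on one
variable (`exists_flat`), both as hypotheses.
-/

set_option autoImplicit false

namespace Pool.Agent.TH722.PN

theorem flat_of {ι J : Type} [AddCommGroup J]
    (hdeg : ∀ (𝓕 𝓕' : Set ((ι → ℕ) × Set (J × ℤ)))
      (ψ : ∀ (F : Type) [Field F] [CharZero F],
        Multiplicative ℤ →* HahnSeries ℝ (AddMonoidAlgebra F ℤ)),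
      (∀ x ∈ 𝓕, ∃ S', (x.1, S') ∈ 𝓕' ∧ ∀ (F : Type) [Field F] [CharZero F] (j : J),
        Deg (ψ F) {m | (j, m) ∈ x.2} {m | (j, m) ∈ S'}) → EmpS 𝓕' → EmpS 𝓕)
    (hfl : ∀ (F : Type) [Field F] [CharZero F],
      ∃ ψ : Multiplicative ℤ →* HahnSeries ℝ (AddMonoidAlgebra F ℤ),
        ∀ S : Finset ℤ, Deg ψ (S : Set ℤ) {t | 0 ≤ t ∧ t < S.card})
    {𝓕 𝓕' : Set ((ι → ℕ) × Set (J × ℤ))}
    (h : ∀ x ∈ 𝓕, ∃ S', (x.1, S') ∈ 𝓕' ∧ (∀ j, {b | (j, b) ∈ x.2}.Finite) ∧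
      ∀ j b0 b1 t, (j, b0) ∈ x.2 → (j, b1) ∈ x.2 → 0 ≤ t → t ≤ b1 - b0 → (j, t) ∈ S')
    (h' : EmpS 𝓕') : EmpS 𝓕 := by
  refine hdeg 𝓕 𝓕' (fun F _ _ => (hfl F).choose) ?_ h'
  intro x hx
  obtain ⟨S', hS', hfin, hall⟩ := h x hx
  refine ⟨S', hS', fun F _ _ j => ?_⟩
  have hspec := (hfl F).choose_spec (hfin j).toFinset
  intro f hf hsupp
  obtain ⟨a, ha1, ha2, ha3⟩ := hspec f hf (fun m hm => by
    rw [Set.Finite.coe_toFinset]
    exact hsupp m hm)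
  refine ⟨a, ha1, ha2, fun t ht => ?_⟩
  obtain ⟨h0, h1⟩ := ha3 t ht
  have hne : (hfin j).toFinset.Nonempty := by
    rw [← Finset.card_pos]
    have h2 : (0 : ℤ) < ((hfin j).toFinset.card : ℤ) := lt_of_le_of_lt h0 h1
    exact_mod_cast h2
  have hsub : (hfin j).toFinset ⊆
      Finset.Icc ((hfin j).toFinset.min' hne) ((hfin j).toFinset.max' hne) := by
    intro b hb
    rw [Finset.mem_Icc]
    exact ⟨Finset.min'_le _ _ hb, Finset.le_max' _ _ hb⟩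
  have hcard := Finset.card_le_card hsub
  rw [Int.card_Icc] at hcard
  have hm0 := (Set.Finite.mem_toFinset (hfin j)).1 ((hfin j).toFinset.min'_mem hne)
  have hm1 := (Set.Finite.mem_toFinset (hfin j)).1 ((hfin j).toFinset.max'_mem hne)
  have hle := Finset.min'_le _ _ ((hfin j).toFinset.max'_mem hne)
  exact hall j _ _ t hm0 hm1 h0 (by omega)

end Pool.Agent.TH722.PN
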