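import Mathlib
import Pool.Agent.H932R5.Points
import Pool.Agent.TH722.PN.Defs

/-!
# Transfer to generic points of projective space

Emptiness of the simplex for some points over some field of characteristic zero implies emptiness at
algebraically independent points (job PN-U1, helper111 for helper722).
-/

set_option autoImplicit false

namespace Pool.Agent.TH722.PN

open MvPolynomial Pool.Agent.H932R5

namespace Gen

/-! ### the exponents -/

/-- exponent vectors in the recursive group -/
def enc : (p : ℕ) → (Fin p → ℕ) → Q p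
  | 0, _ => PUnit.unit
  | (p + 1), α => (enc p (fun l => α l.castSucc), (α (Fin.last p) : ℤ))

theorem enc_zero : ∀ p : ℕ, enc p (fun _ => 0) = 0
  | 0 => rfl
  | (p + 1) => by
    show (enc p (fun _ => 0), ((0 : ℕ) : ℤ)) = (0 : Q (p + 1))
    rw [enc_zero p]
    rfl

theorem enc_add : ∀ (p : ℕ) (α β : Fin p → ℕ), enc p (fun l => α l + β l) = enc p α + enc p β
  | 0, _, _ => rfl
  | (p + 1), α, β => by
    show (enc p (fun l => α l.castSucc + β l.castSucc), ((α (Fin.last p) + β (Fin.last p) : ℕ) : ℤ)) =
      ((enc p (fun l => α l.castSucc) + enc p (fun l => β l.castSucc) : Q p),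
        (α (Fin.last p) : ℤ) + (β (Fin.last p) : ℤ))
    rw [enc_add p, Nat.cast_add]

theorem enc_inj : ∀ (p : ℕ) (α β : Fin p → ℕ), enc p α = enc p β → ∀ l, α l = β l
  | 0, _, _, _ => fun l => l.elim0
  | (p + 1), α, β, h => by
    have h1 : enc p (fun l => α l.castSucc) = enc p (fun l => β l.castSucc) := congrArg Prod.fst h
    have h2 : (α (Fin.last p) : ℤ) = (β (Fin.last p) : ℤ) := congrArg Prod.snd h
    intro l
    refine Fin.lastCases ?_ (fun l => ?_) l
    · exact_mod_cast h2
    · exact enc_inj p _ _ h1 l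

theorem Nn_enc : ∀ (p : ℕ) (α : Fin p → ℕ), Nn p (enc p α)
  | 0, _ => trivial
  | (p + 1), α => ⟨Nn_enc p _, Int.natCast_nonneg _⟩

theorem Sm_enc : ∀ (p : ℕ) (α : Fin p → ℕ), Sm p (enc p α) = ((∑ l, α l : ℕ) : ℤ)
  | 0, _ => by simp [Sm]
  | (p + 1), α => by
    show Sm p (enc p (fun l => α l.castSucc)) + (α (Fin.last p) : ℤ) = _
    rw [Sm_enc p, Fin.sum_univ_castSucc]
    push_cast
    rfl

/-- `enc` as a homomorphism -/
noncomputable def encH (p : ℕ) : (Fin p →₀ ℕ) →+ Q p where
  toFun α := enc p α
  map_zero' := enc_zero p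
  map_add' α β := enc_add p α β

theorem encH_injective (p : ℕ) : Function.Injective (encH p) := fun α β h =>
  Finsupp.ext fun l => enc_inj p α β h l

section point

variable {K : Type} [Field K] {E n : ℕ}

/-- polynomials as Laurent polynomials -/
noncomputable def Th (K : Type) [Field K] (E : ℕ) :
    MvPolynomial (Fin (E + 1)) K →+* AddMonoidAlgebra K (Q (E + 1)) :=
  AddMonoidAlgebra.mapDomainRingHom K (encH (E + 1))

theorem Th_injective : Function.Injective (Th K E) :=
  AddMonoidAlgebra.mapDomain_injective (encH_injective (E + 1))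

/-- the affine coordinates of a point -/
noncomputable def co (p : Pt K (Q (E + 1))) (l : Fin (E + 1)) : K :=
  p (Multiplicative.ofAdd (encH (E + 1) (Finsupp.single l 1)))

theorem Th_X (l : Fin (E + 1)) : Th K E (X l) =
    AddMonoidAlgebra.single (encH (E + 1) (Finsupp.single l 1)) 1 :=
  AddMonoidAlgebra.mapDomain_single

theorem Th_C (c : K) : Th K E (C c) = AddMonoidAlgebra.single 0 c := by
  have h : Th K E (C c) = AddMonoidAlgebra.single (encH (E + 1) 0) c :=
    AddMonoidAlgebra.mapDomain_single
  rw [h, map_zero]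

theorem evp_Th (p : Pt K (Q (E + 1))) (f : MvPolynomial (Fin (E + 1)) K) :
    evp p (Th K E f) = eval (co p) f := by
  have h : (evp p : AddMonoidAlgebra K (Q (E + 1)) →+* K).comp (Th K E) = eval (co p) := by
    refine MvPolynomial.ringHom_ext (fun c => ?_) fun l => ?_
    · rw [RingHom.comp_apply, Th_C, eval_C]
      unfold evp
      simp
    · rw [RingHom.comp_apply, Th_X, eval_X]
      unfold evp co
      simp
  exact congrArg (fun φ : MvPolynomial (Fin (E + 1)) K →+* K => φ f) h

theorem Th_mem {p : Pt K (Q (E + 1))} {w : ℕ} {f : MvPolynomial (Fin (E + 1)) K}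
    (hf : f ∈ (pt (co p)) ^ w) : Th K E f ∈ mI p ^ w := by
  have h1 : Ideal.map (Th K E) (pt (co p)) ≤ mI p := by
    unfold pt
    rw [Ideal.map_span, Ideal.span_le]
    rintro _ ⟨_, ⟨j, rfl⟩, rfl⟩
    show Th K E (X j - C (co p j)) ∈ mI p
    unfold mI
    rw [RingHom.mem_ker]
    have h2 := evp_Th p (X j - C (co p j))
    rw [map_sub (eval (co p)), eval_X, eval_C, sub_self] at h2
    exact h2
  have h2 := Ideal.mem_map_of_mem (Th K E) hf
  rw [Ideal.map_pow] at h2
  exact Ideal.pow_right_mono h1 w h2

theorem Th_support {f : MvPolynomial (Fin (E + 1)) K} {m : Q (E + 1)}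
    (hm : m ∈ (Th K E f).coeff.support) : ∃ α, coeff α f ≠ 0 ∧ encH (E + 1) α = m := by
  classical
  have h1 : (Th K E f).coeff = Finsupp.mapDomain (encH (E + 1)) (AddMonoidAlgebra.coeff f) := rfl
  rw [h1] at hm
  have h2 := Finsupp.mapDomain_support hm
  rw [Finset.mem_image] at h2
  obtain ⟨α, h3, h4⟩ := h2
  exact ⟨α, Finsupp.mem_support_iff.1 h3, h4⟩

/-- the simplex is empty at the point given by the Laurent system -/
theorem emptyAt_of_good {p : Fin n → Pt K (Q (E + 1))} {w : Fin n → ℕ} {d : ℕ}
    (h : Good p w {y : Q (E + 1) | Nn (E + 1) y ∧ Sm (E + 1) y ≤ d}) :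
    EmptyAt w (fun i => co (p i)) d := by
  intro f hf hM
  rw [mem_Z] at hf
  apply Th_injective (K := K) (E := E)
  rw [map_zero]
  apply h
  · intro m hm
    obtain ⟨α, h1, h2⟩ := Th_support hm
    have h3 : Finsupp.degree α ≤ d := hM α h1
    rw [Finsupp.degree_eq_sum] at h3
    rw [← h2]
    refine ⟨Nn_enc _ _, ?_⟩
    show Sm (E + 1) (enc (E + 1) α) ≤ d
    rw [Sm_enc]
    exact_mod_cast h3
  · intro i
    exact Th_mem (hf i)

end point

/-! ### descent to the rational numbers -/

section ext

universe u v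

variable {K : Type u} [Field K] {L : Type v} [Field L] [Algebra K L] {E n : ℕ}

theorem map_gshift_ext (i : Fin n) (P : Fin n → Fin (E + 1) → L)
    (f : MvPolynomial (Fin (E + 1)) K) :
    map ((aeval (fun q : Fin n × Fin (E + 1) => P q.1 q.2) :
      MvPolynomial (Fin n × Fin (E + 1)) K →ₐ[K] L) :
      MvPolynomial (Fin n × Fin (E + 1)) K →+* L) (gshift K E n i f) =
      shift (P i) (map (algebraMap K L) f) := by
  have h : (map ((aeval (fun q : Fin n × Fin (E + 1) => P q.1 q.2) :
      MvPolynomial (Fin n × Fin (E + 1)) K →ₐ[K] L) :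
      MvPolynomial (Fin n × Fin (E + 1)) K →+* L)).comp (gshift K E n i) =
      (shift (P i) : MvPolynomial (Fin (E + 1)) L →+* MvPolynomial (Fin (E + 1)) L).comp
        (map (algebraMap K L)) := by
    refine MvPolynomial.ringHom_ext (fun c => ?_) fun j => ?_
    · rw [RingHom.comp_apply, gshift, eval₂Hom_C, RingHom.comp_apply, map_C, RingHom.comp_apply,
        map_C, RingHom.coe_coe, aeval_C, RingHom.coe_coe, shift_C]
    · rw [RingHom.comp_apply, gshift, eval₂Hom_X', map_add, map_X, map_C, RingHom.comp_apply,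
        map_X, RingHom.coe_coe, aeval_X, RingHom.coe_coe, shift_X]
  exact congrArg (fun φ : MvPolynomial (Fin (E + 1)) K →+* MvPolynomial (Fin (E + 1)) L => φ f) h

end ext

/-- a family of rows with trivial common kernel contains an invertible square submatrix -/
theorem exists_rows {K : Type*} [Field K] {R σ : Type*} [Fintype σ] [DecidableEq σ]
    (v : R → σ → K) (hker : ∀ c : σ → K, (∀ r, ∑ m, v r m * c m = 0) → c = 0) :
    ∃ a : σ → R, (Matrix.of fun j m => v (a j) m).det ≠ 0 := by
  have hspan : Submodule.span K (Set.range v) = ⊤ := by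
    by_contra hne
    obtain ⟨f, hf, hle⟩ := Submodule.exists_le_ker_of_lt_top _ (lt_top_iff_ne_top.2 hne)
    apply hf
    have hc : (fun m => f (Pi.single m 1)) = 0 := by
      apply hker
      intro r
      have h1 : f (v r) = 0 := hle (Submodule.subset_span ⟨r, rfl⟩)
      have h2 : v r = ∑ m, v r m • (Pi.single m (1 : K) : σ → K) := by
        funext j
        simp [Finset.sum_apply, Pi.single_apply]
      rw [h2, map_sum] at h1
      simpa using h1
    apply LinearMap.pi_ext
    intro m x
    have h3 := congrFun hc m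
    have h4 : (Pi.single m x : σ → K) = x • Pi.single m 1 := by
      funext j
      by_cases hj : j = m
      · subst hj; simp
      · simp [hj]
    rw [h4, map_smul]
    have h5 : f (Pi.single m 1) = 0 := h3
    rw [h5]; simp
  obtain ⟨κ, a, ha, hs, hli⟩ := exists_linearIndependent' K v
  rw [hspan] at hs
  have hfin : Finite κ := by
    have := hli.finite
    exact this
  have : Fintype κ := Fintype.ofFinite κ
  let b : Module.Basis κ K (σ → K) := Module.Basis.mk hli hs.ge
  have hcard : Fintype.card κ = Fintype.card σ := by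
    have h1 := Module.finrank_eq_card_basis b
    rw [Module.finrank_fintype_fun_eq_card] at h1
    exact h1.symm
  let ε : σ ≃ κ := Fintype.equivOfCardEq hcard.symm
  refine ⟨fun j => a (ε j), ?_⟩
  have hli2 : LinearIndependent K (fun j => v (a (ε j))) := hli.comp ε ε.injective
  have h6 : IsUnit (Matrix.of fun j m => v (a (ε j)) m) := by
    rw [← Matrix.linearIndependent_rows_iff_isUnit]
    exact hli2
  exact ((Matrix.isUnit_iff_isUnit_det _).1 h6).ne_zero

section descent

variable {E n : ℕ}

/-- the conditions on the coefficients, with generic points -/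
noncomputable def Gn (E n : ℕ) (w : Fin n → ℕ) (d : ℕ) (q : Cnd E w) (m : ↥(dg E (d + 1))) :
    MvPolynomial (Fin n × Fin (E + 1)) ℚ :=
  coeff q.2.1 (gshift ℚ E n q.1 (monomial m.1 1))

theorem aeval_Gn {L : Type*} [Field L] [CharZero L] (P : Fin n → Fin (E + 1) → L)
    (w : Fin n → ℕ) (d : ℕ) (q : Cnd E w) (m : ↥(dg E (d + 1))) :
    aeval (fun q : Fin n × Fin (E + 1) => P q.1 q.2) (Gn E n w d q m) =
      cnd w P (monomial m.1 1) q := by
  rw [cnd_apply]
  have h := map_gshift_ext (K := ℚ) q.1 P (monomial m.1 1)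
  rw [map_monomial, RingHom.map_one (algebraMap ℚ L)] at h
  rw [← h, coeff_map]
  rfl

theorem cnd_sum {L : Type*} [Field L] (P : Fin n → Fin (E + 1) → L) (w : Fin n → ℕ) (d : ℕ)
    (c : ↥(dg E (d + 1)) → L) (q : Cnd E w) :
    cnd w P (∑ m, c m • monomial m.1 1) q = ∑ m, cnd w P (monomial m.1 1) q * c m := by
  rw [map_sum, Finset.sum_apply]
  refine Finset.sum_congr rfl fun m _ => ?_
  rw [map_smul, Pi.smul_apply, smul_eq_mul, mul_comm]

theorem coeff_sum {L : Type*} [Field L] (d : ℕ) (c : ↥(dg E (d + 1)) → L)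
    (α : Fin (E + 1) →₀ ℕ) : coeff α (∑ m, c m • monomial (R := L) m.1 1) =
      if h : α ∈ dg E (d + 1) then c ⟨α, h⟩ else 0 := by
  classical
  rw [MvPolynomial.coeff_sum]
  split_ifs with h
  · rw [Finset.sum_eq_single ⟨α, h⟩]
    · rw [coeff_smul, coeff_monomial, if_pos rfl, smul_eq_mul, mul_one]
    · intro m _ hm
      rw [coeff_smul, coeff_monomial, if_neg, smul_zero]
      intro h1
      exact hm (Subtype.ext h1)
    · intro h1
      exact absurd (Finset.mem_univ _) h1
  · apply Finset.sum_eq_zero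
    intro m _
    rw [coeff_smul, coeff_monomial, if_neg, smul_zero]
    intro h1
    apply h
    rw [← h1]
    exact m.2

theorem descend {K k : Type} [Field K] [CharZero K] [Field k] [CharZero k] {w : Fin n → ℕ} {d : ℕ}
    {x : Fin n → Fin (E + 1) → K} (hx : EmptyAt w x d) {P : Fin n → Fin (E + 1) → k}
    (hP : AlgebraicIndependent ℚ (fun q : Fin n × Fin (E + 1) => P q.1 q.2)) : EmptyAt w P d := by
  classical
  obtain ⟨a, ha⟩ := exists_rows (fun (q : Cnd E w) (m : ↥(dg E (d + 1))) =>
      cnd w x (monomial (R := K) m.1 1) q) (by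
    intro c hc
    have h1 : ∑ m, c m • monomial (R := K) m.1 1 = 0 := by
      apply hx
      · rw [mem_Z_iff]
        funext q
        rw [cnd_sum, hc q]
        rfl
      · intro α hα
        rw [coeff_sum] at hα
        rw [← coe_dg]
        by_contra h
        exact hα (dif_neg h)
    funext m
    have h2 := congrArg (coeff m.1) h1
    rw [coeff_sum, dif_pos m.2, coeff_zero] at h2
    exact h2)
  -- the minor over the rational numbers
  let D : MvPolynomial (Fin n × Fin (E + 1)) ℚ := (Matrix.of fun j m => Gn E n w d (a j) m).det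
  have hD : ∀ {L : Type} [Field L] [CharZero L] (y : Fin n → Fin (E + 1) → L),
      aeval (fun q : Fin n × Fin (E + 1) => y q.1 q.2) D =
        (Matrix.of fun (j m : ↥(dg E (d + 1))) => cnd w y (monomial (R := L) m.1 1) (a j)).det := by
    intro L _ _ y
    rw [AlgHom.map_det]
    congr 1
    ext j m
    exact aeval_Gn y w d (a j) m
  have hDne : D ≠ 0 := by
    intro h0
    apply ha
    rw [← hD x, h0, map_zero]
  have hDP : aeval (fun q : Fin n × Fin (E + 1) => P q.1 q.2) D ≠ 0 := by
    intro h0
    exact hDne ((injective_iff_map_eq_zero _).1 hP D h0)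
  rw [hD P] at hDP
  intro f hf hM
  have hfs : f = ∑ m : ↥(dg E (d + 1)), coeff m.1 f • monomial (R := k) m.1 1 := by
    ext α
    rw [coeff_sum]
    split_ifs with h
    · rfl
    · by_contra hne
      apply h
      rw [← Finset.mem_coe, coe_dg]
      exact hM α hne
  have hvec : (fun m : ↥(dg E (d + 1)) => coeff m.1 f) = 0 := by
    apply Matrix.eq_zero_of_mulVec_eq_zero hDP
    funext j
    rw [Matrix.mulVec, dotProduct, Pi.zero_apply]
    rw [mem_Z_iff] at hf
    have h1 := congrFun hf (a j)
    rw [hfs, cnd_sum] at h1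
    exact h1
  rw [hfs]
  apply Finset.sum_eq_zero
  intro m _
  have h1 := congrFun hvec m
  rw [show coeff m.1 f = 0 from h1, zero_smul]

end descent

end Gen

/-- **Transfer to generic points.** -/
theorem generic {k : Type} [Field k] [CharZero k] {n E : ℕ} {P : Fin n → Fin (E + 1) → k}
    (hP : AlgebraicIndependent ℚ (fun q : Fin n × Fin (E + 1) => P q.1 q.2)) {w : Fin n → ℕ}
    {d : ℕ} (h : EmpS {(w, {y : Q (E + 1) | Nn (E + 1) y ∧ Sm (E + 1) y ≤ d})}) :
    Pool.Agent.H932R5.EmptyAt w P d := by
  obtain ⟨K, _, _, p, hp⟩ := h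
  exact Gen.descend (Gen.emptyAt_of_good (hp _ (Set.mem_singleton _))) hP

end Pool.Agent.TH722.PN
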