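import Pool.Agent.TH443.PN.Lead

/-!
# The leading coefficient of `A(x) + y B(x)`
-/

set_option autoImplicit false

namespace Pool.Agent.TH722.PN

section nodal
variable {F : Type} [Field F]

theorem lead_g [CharZero F] {τ : ℝ} (h0 : 0 < τ) (h1 : τ < 1 / 2)
    {x y : HahnSeries ℝ (AddMonoidAlgebra F (ℤ × ℤ))} {s : PowerSeries F}
    (hs : s ^ 2 = 1 + PowerSeries.X) (hx : Cone τ 0 x) (hy : Cone τ 0 y)
    (hxp : Ep τ 0 x = PowerSeries.X) (hxm : Em τ 0 x = PowerSeries.X)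
    (hyp : Ep τ 0 y = PowerSeries.X * s) (hym : Em τ 0 y = -(PowerSeries.X * s))
    {c δ : ℕ} (hδ : 2 ≤ δ) {A B : Polynomial (HahnSeries ℝ F)}
    (hA : ∀ n, A.coeff n ≠ 0 → n ≤ c) (hB : ∀ n, B.coeff n ≠ 0 → n + δ ≤ c)
    (hne : A ≠ 0 ∨ B ≠ 0) :
    ∃ a b : ℝ, (∀ n, Low (A.coeff n) b) ∧ (∀ n, Low (B.coeff n) b) ∧ a ≤ b + 2 * c * τ ∧
      Low (A.eval₂ incl x + y * B.eval₂ incl x) a ∧
      (A.eval₂ incl x + y * B.eval₂ incl x).coeff a ≠ 0 ∧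
      ∀ i m, cf (A.eval₂ incl x + y * B.eval₂ incl x) a i m ≠ 0 →
        m = 0 ∧ -(2 * τ * c) ≤ (i : ℝ) ∧ (i : ℝ) ≤ (2 - 2 * τ) * c :=
  Pool.Agent.TH443.PN.lead_g h0 h1 hs hx hy hxp hxm hyp hym hδ hA hB hne

end nodal

end Pool.Agent.TH722.PN
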