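import Pool.Agent.TH722.PN.Cone

set_option autoImplicit false

namespace Pool.Agent.TH722.PN

open HahnSeries SummableFamily

section root
variable {F : Type} [Field F]

theorem rt_sqrt (F : Type) [Field F] [CharZero F] : ∃ s : PowerSeries F,
    s ^ 2 = 1 + PowerSeries.X ∧ PowerSeries.constantCoeff s = 1 := by
  refine ⟨PowerSeries.binomialSeries F (1 / 2 : ℚ), ?_, ?_⟩
  · rw [pow_two, ← PowerSeries.binomialSeries_add]
    have : (1 / 2 + 1 / 2 : ℚ) = ((1 : ℕ) : ℚ) := by norm_num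
    rw [this, PowerSeries.binomialSeries_nat, pow_one]
  · exact PowerSeries.binomialSeries_constantCoeff _

theorem rt_cf_add (x y : HahnSeries ℝ (AddMonoidAlgebra F (ℤ × ℤ))) (a : ℝ) (i m : ℤ) :
    cf (x + y) a i m = cf x a i m + cf y a i m := by
  simp [cf]

theorem rt_cf_neg (x : HahnSeries ℝ (AddMonoidAlgebra F (ℤ × ℤ))) (a : ℝ) (i m : ℤ) :
    cf (-x) a i m = -cf x a i m := by
  simp [cf]

theorem rt_cf_tz (a : ℝ) (i m : ℤ) (b : ℝ) (j n : ℤ) :
    cf (tz F a i m) b j n = if b = a ∧ j = i ∧ n = m then 1 else 0 := by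
  unfold cf tz
  rw [HahnSeries.coeff_single]
  by_cases h : b = a
  · rw [if_pos h]
    simp only [AddMonoidAlgebra.coeff_single, Finsupp.single_apply, Prod.mk.injEq, h, true_and]
    congr 1
    simp [eq_comm]
  · rw [if_neg h, if_neg (by tauto)]
    simp

theorem rt_tz_mul (a b : ℝ) (i m j n : ℤ) :
    tz F a i m * tz F b j n = tz F (a + b) (i + j) (m + n) := by
  unfold tz
  rw [HahnSeries.single_mul_single, AddMonoidAlgebra.single_mul_single]
  simp

theorem rt_incl_coeff (c : HahnSeries ℝ F) (a : ℝ) :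
    (incl (M' := ℤ × ℤ) c).coeff a =
      (AddMonoidAlgebra.singleZeroRingHom (R := F) (M := ℤ × ℤ)) (c.coeff a) := rfl

/-- the series `s(x)` -/
noncomputable def rtH (x : HahnSeries ℝ (AddMonoidAlgebra F (ℤ × ℤ))) (s : PowerSeries F) :
    HahnSeries ℝ (AddMonoidAlgebra F (ℤ × ℤ)) :=
  PowerSeries.heval x (PowerSeries.map (algebraMap F (AddMonoidAlgebra F (ℤ × ℤ))) s)

theorem rtH_sq {x : HahnSeries ℝ (AddMonoidAlgebra F (ℤ × ℤ))} (hx : 0 < x.orderTop)
    {s : PowerSeries F} (hs : s ^ 2 = 1 + PowerSeries.X) : rtH x s ^ 2 = 1 + x := by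
  unfold rtH
  rw [← map_pow, ← map_pow, hs, map_add, map_one, PowerSeries.map_X, map_add, map_one,
    PowerSeries.heval_X _ hx]

theorem rtH_cf {x : HahnSeries ℝ (AddMonoidAlgebra F (ℤ × ℤ))} (hx : 0 < x.orderTop)
    (s : PowerSeries F) (a : ℝ) : ∃ T : Finset ℕ,
      (∀ n, n ∉ T → ∀ i m : ℤ, PowerSeries.coeff n s * cf (x ^ n) a i m = 0) ∧
      ∀ i m, cf (rtH x s) a i m = ∑ n ∈ T, PowerSeries.coeff n s * cf (x ^ n) a i m := by
  set f := PowerSeries.map (algebraMap F (AddMonoidAlgebra F (ℤ × ℤ))) s with hf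
  have h1 : ∀ n, ((powerSeriesFamily x f) n).coeff a =
      algebraMap F (AddMonoidAlgebra F (ℤ × ℤ)) (PowerSeries.coeff n s) * (x ^ n).coeff a := by
    intro n
    rw [powerSeriesFamily_of_orderTop_pos hx, HahnSeries.coeff_smul, smul_eq_mul, hf,
      PowerSeries.coeff_map]
  have h2 : ∀ n, ∀ i m : ℤ, (((powerSeriesFamily x f) n).coeff a).coeff (i, m) =
      PowerSeries.coeff n s * cf (x ^ n) a i m := by
    intro n i m
    rw [h1, ← Algebra.smul_def, AddMonoidAlgebra.coeff_smul_apply, smul_eq_mul, cf]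
  refine ⟨((powerSeriesFamily x f).coeff a).support, ?_, ?_⟩
  · intro n hn i m
    have h3 : ((powerSeriesFamily x f) n).coeff a = 0 := by
      rw [Finsupp.mem_support_iff, not_not] at hn
      exact hn
    rw [← h2, h3]
    rfl
  · intro i m
    have h4 : (rtH x s).coeff a = ∑ n ∈ ((powerSeriesFamily x f).coeff a).support,
        ((powerSeriesFamily x f) n).coeff a := by
      unfold rtH
      rw [PowerSeries.heval_apply, coeff_hsum_eq_sum]
    unfold cf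
    rw [h4, AddMonoidAlgebra.coeff_sum, Finsupp.finsetSum_apply]
    exact Finset.sum_congr rfl fun n _ => h2 n i m

theorem rtH_cone {τ : ℝ} {x : HahnSeries ℝ (AddMonoidAlgebra F (ℤ × ℤ))} (hx : 0 < x.orderTop)
    (hc : Cone τ 0 x) (s : PowerSeries F) : Cone τ 0 (rtH x s) := by
  intro a i m h
  obtain ⟨T, -, h2⟩ := rtH_cf hx s a
  rw [h2] at h
  obtain ⟨n, -, hn⟩ := Finset.exists_ne_zero_of_sum_ne_zero h
  exact hc.pow n a i m (right_ne_zero_of_mul hn)

theorem rtH_Ep {τ : ℝ} {x : HahnSeries ℝ (AddMonoidAlgebra F (ℤ × ℤ))} (hx : 0 < x.orderTop)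
    (hc : Cone τ 0 x) (hX : Ep τ 0 x = PowerSeries.X) (s : PowerSeries F) :
    Ep τ 0 (rtH x s) = s := by
  ext k
  have h0 : ∀ n, cf (x ^ n) (0 + τ * k) k 0 = if k = n then 1 else 0 := by
    intro n
    have h := congrArg (PowerSeries.coeff k) (Ep_pow hc n)
    rw [hX, PowerSeries.coeff_X_pow] at h
    rw [← h]
    simp [Ep]
  obtain ⟨T, h1, h2⟩ := rtH_cf hx s (0 + τ * k)
  have h3 : PowerSeries.coeff k (Ep τ 0 (rtH x s)) = cf (rtH x s) (0 + τ * k) k 0 := by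
    simp [Ep]
  rw [h3, h2]
  by_cases hk : k ∈ T
  · rw [Finset.sum_eq_single_of_mem k hk]
    · rw [h0]; simp
    · intro n _ hn
      rw [h0, if_neg (Ne.symm hn), mul_zero]
  · have h4 := h1 k hk k 0
    rw [h0, if_pos rfl, mul_one] at h4
    rw [h4]
    apply Finset.sum_eq_zero
    intro n hn
    rw [h0, if_neg, mul_zero]
    rintro rfl
    exact hk hn

theorem rtH_Em {τ : ℝ} {x : HahnSeries ℝ (AddMonoidAlgebra F (ℤ × ℤ))} (hx : 0 < x.orderTop)
    (hc : Cone τ 0 x) (hX : Em τ 0 x = PowerSeries.X) (s : PowerSeries F) :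
    Em τ 0 (rtH x s) = s := by
  ext k
  have h0 : ∀ n, cf (x ^ n) (0 + (1 - τ) * k) (-(k : ℤ)) 0 = if k = n then 1 else 0 := by
    intro n
    have h := congrArg (PowerSeries.coeff k) (Em_pow hc n)
    rw [hX, PowerSeries.coeff_X_pow] at h
    rw [← h]
    simp [Em]
  obtain ⟨T, h1, h2⟩ := rtH_cf hx s (0 + (1 - τ) * k)
  have h3 : PowerSeries.coeff k (Em τ 0 (rtH x s)) =
      cf (rtH x s) (0 + (1 - τ) * k) (-(k : ℤ)) 0 := by
    simp [Em]
  rw [h3, h2]
  by_cases hk : k ∈ T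
  · rw [Finset.sum_eq_single_of_mem k hk]
    · rw [h0]; simp
    · intro n _ hn
      rw [h0, if_neg (Ne.symm hn), mul_zero]
  · have h4 := h1 k hk (-(k : ℤ)) 0
    rw [h0, if_pos rfl, mul_one] at h4
    rw [h4]
    apply Finset.sum_eq_zero
    intro n hn
    rw [h0, if_neg, mul_zero]
    rintro rfl
    exact hk hn

theorem rt_cone_tz1 {τ : ℝ} (h1 : τ < 1 / 2) : Cone τ 0 (tz F τ 1 0) := by
  intro a i m h
  rw [rt_cf_tz] at h
  by_cases hh : a = τ ∧ i = 1 ∧ m = 0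
  · obtain ⟨rfl, rfl, rfl⟩ := hh
    refine ⟨rfl, ?_, ?_⟩ <;> push_cast <;> linarith
  · rw [if_neg hh] at h
    exact absurd rfl h

theorem rt_cone_tz2 (τ : ℝ) : Cone τ 0 (tz F (1 - τ) (-1) 0) := by
  intro a i m h
  rw [rt_cf_tz] at h
  by_cases hh : a = 1 - τ ∧ i = -1 ∧ m = 0
  · obtain ⟨rfl, rfl, rfl⟩ := hh
    refine ⟨rfl, ?_, ?_⟩ <;> push_cast <;> linarith
  · rw [if_neg hh] at h
    exact absurd rfl h

theorem rt_cone_neg {τ b : ℝ} {x : HahnSeries ℝ (AddMonoidAlgebra F (ℤ × ℤ))}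
    (hx : Cone τ b x) : Cone τ b (-x) := by
  intro a i m h
  rw [rt_cf_neg] at h
  exact hx a i m (neg_ne_zero.1 h)

theorem rt_Ep_tz1 (τ : ℝ) : Ep τ 0 (tz F τ 1 0) = PowerSeries.X := by
  ext k
  rw [PowerSeries.coeff_X]
  simp only [Ep, PowerSeries.coeff_mk, rt_cf_tz]
  congr 1
  simp only [and_true, eq_iff_iff]
  constructor
  · rintro ⟨-, h⟩
    exact_mod_cast h
  · rintro rfl
    simp

theorem rt_Em_tz1 (τ : ℝ) : Em τ 0 (tz F τ 1 0) = 0 := by
  ext k
  simp only [Em, PowerSeries.coeff_mk, rt_cf_tz, map_zero]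
  rw [if_neg]
  rintro ⟨-, h, -⟩
  omega

theorem rt_Ep_tz2 (τ : ℝ) : Ep τ 0 (tz F (1 - τ) (-1) 0) = 0 := by
  ext k
  simp only [Ep, PowerSeries.coeff_mk, rt_cf_tz, map_zero]
  rw [if_neg]
  rintro ⟨-, h, -⟩
  omega

theorem rt_Em_tz2 (τ : ℝ) : Em τ 0 (tz F (1 - τ) (-1) 0) = PowerSeries.X := by
  ext k
  rw [PowerSeries.coeff_X]
  simp only [Em, PowerSeries.coeff_mk, rt_cf_tz]
  congr 1
  simp only [and_true, eq_iff_iff]
  constructor
  · rintro ⟨-, h⟩
    omega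
  · rintro rfl
    simp

theorem rt_Ep_neg (τ b : ℝ) (x : HahnSeries ℝ (AddMonoidAlgebra F (ℤ × ℤ))) :
    Ep τ b (-x) = -Ep τ b x := by
  ext k
  simp [Ep, rt_cf_neg]

theorem rt_Em_neg (τ b : ℝ) (x : HahnSeries ℝ (AddMonoidAlgebra F (ℤ × ℤ))) :
    Em τ b (-x) = -Em τ b x := by
  ext k
  simp [Em, rt_cf_neg]

theorem rt_low {τ : ℝ} (h0 : 0 < τ) (h1 : τ < 1 / 2)
    {x : HahnSeries ℝ (AddMonoidAlgebra F (ℤ × ℤ))} (hx : Cone τ 0 x) {a : ℝ} (ha : a < 0) :
    x.coeff a = 0 := by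
  ext ⟨i, m⟩
  by_contra h
  obtain ⟨-, h2, h3⟩ := hx a i m h
  rcases le_total 0 (i : ℝ) with hi | hi
  · nlinarith
  · nlinarith

theorem rt_zero {τ : ℝ} (h0 : 0 < τ) (h1 : τ < 1 / 2)
    {x : HahnSeries ℝ (AddMonoidAlgebra F (ℤ × ℤ))} (hx : Cone τ 0 x)
    (h : PowerSeries.constantCoeff (Ep τ 0 x) = 1) : x.coeff 0 = 1 := by
  have h4 : cf x 0 0 0 = 1 := by
    rw [← h, ← PowerSeries.coeff_zero_eq_constantCoeff_apply]
    simp [Ep]
  ext ⟨i, m⟩
  rw [AddMonoidAlgebra.one_def, AddMonoidAlgebra.coeff_single, Finsupp.single_apply]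
  by_cases hh : i = 0 ∧ m = 0
  · obtain ⟨rfl, rfl⟩ := hh
    rw [if_pos (show (0 : ℤ × ℤ) = (0, 0) from rfl)]
    exact h4
  · rw [if_neg (by simpa [Prod.ext_iff, eq_comm] using hh)]
    by_contra hne
    obtain ⟨h5, h2, h3⟩ := hx 0 i m hne
    have h6 : (i : ℝ) ≤ 0 := by
      by_contra hi
      push Not at hi
      nlinarith
    have h7 : (0 : ℝ) ≤ i := by
      by_contra hi
      push Not at hi
      nlinarith
    exact hh ⟨by exact_mod_cast le_antisymm h6 h7, h5⟩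

theorem rt_xlow {τ : ℝ} (h1 : τ < 1 / 2) {a : ℝ} (ha : a < τ) :
    (tz F τ 1 0 + tz F (1 - τ) (-1) 0).coeff a = 0 := by
  unfold tz
  rw [HahnSeries.coeff_add, HahnSeries.coeff_single_of_ne ha.ne,
    HahnSeries.coeff_single_of_ne (by linarith : a < 1 - τ).ne, add_zero]

end root

/-! N2 (file Root.lean) : `x = u + v`, `y0 = (u - v) √(1 + x)` -/

theorem exists_root (F : Type) [Field F] [CharZero F] {τ : ℝ} (h0 : 0 < τ) (h1 : τ < 1 / 2) :
    ∃ (x y : HahnSeries ℝ (AddMonoidAlgebra F (ℤ × ℤ))) (s : PowerSeries F),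
      s ^ 2 = 1 + PowerSeries.X ∧
      y ^ 2 = (x ^ 2 - incl (HahnSeries.single (1 : ℝ) (4 : F))) * (1 + x) ∧
      Cone τ 0 x ∧ Cone τ 0 y ∧
      Ep τ 0 x = PowerSeries.X ∧ Em τ 0 x = PowerSeries.X ∧
      Ep τ 0 y = PowerSeries.X * s ∧ Em τ 0 y = -(PowerSeries.X * s) ∧
      Low x τ ∧ x.coeff τ = AddMonoidAlgebra.single (1, 0) 1 ∧
      Low y τ ∧ y.coeff τ = AddMonoidAlgebra.single (1, 0) 1 := by
  obtain ⟨s, hs, hs1⟩ := rt_sqrt F
  set u := tz F τ 1 0 with hu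
  set v := tz F (1 - τ) (-1) 0 with hv
  have hxlow : ∀ a < τ, (u + v).coeff a = 0 := fun a ha => rt_xlow h1 ha
  have hxpos : 0 < (u + v).orderTop := by
    apply lt_of_lt_of_le (b := ((τ : ℝ) : WithTop ℝ)) (by exact_mod_cast h0)
    by_contra hcon
    push Not at hcon
    obtain ⟨a, ha⟩ := WithTop.ne_top_iff_exists.1 (ne_top_of_lt hcon)
    rw [← ha] at hcon
    have h3 : a < τ := by exact_mod_cast hcon
    exact HahnSeries.coeff_orderTop_ne ha.symm (hxlow a h3)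
  have hcx : Cone τ 0 (u + v) := (rt_cone_tz1 h1).add (rt_cone_tz2 τ)
  have hcw : Cone τ 0 (u - v) := by
    rw [sub_eq_add_neg]
    exact (rt_cone_tz1 h1).add (rt_cone_neg (rt_cone_tz2 τ))
  have hEx : Ep τ 0 (u + v) = PowerSeries.X := by
    rw [Ep_add, rt_Ep_tz1, rt_Ep_tz2, add_zero]
  have hMx : Em τ 0 (u + v) = PowerSeries.X := by
    rw [Em_add, rt_Em_tz1, rt_Em_tz2, zero_add]
  have hEw : Ep τ 0 (u - v) = PowerSeries.X := by
    rw [sub_eq_add_neg, Ep_add, rt_Ep_neg, rt_Ep_tz1, rt_Ep_tz2, neg_zero, add_zero]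
  have hMw : Em τ 0 (u - v) = -PowerSeries.X := by
    rw [sub_eq_add_neg, Em_add, rt_Em_neg, rt_Em_tz1, rt_Em_tz2, zero_add]
  set H := rtH (u + v) s with hH
  have hcH : Cone τ 0 H := rtH_cone hxpos hcx s
  have hEH : Ep τ 0 H = s := rtH_Ep hxpos hcx hEx s
  have hMH : Em τ 0 H = s := rtH_Em hxpos hcx hMx s
  have hH0 : H.coeff 0 = 1 := rt_zero h0 h1 hcH (by rw [hEH, hs1])
  have hHn : ∀ a < 0, H.coeff a = 0 := fun a ha => rt_low h0 h1 hcH ha
  have hycoef : ∀ a, ((u - v) * H).coeff a =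
      AddMonoidAlgebra.single (1, 0) 1 * H.coeff (a - τ) -
        AddMonoidAlgebra.single (-1, 0) 1 * H.coeff (a - (1 - τ)) := by
    intro a
    rw [sub_mul, HahnSeries.coeff_sub, hu, hv]
    unfold tz
    rw [HahnSeries.coeff_single_mul, HahnSeries.coeff_single_mul]
  refine ⟨u + v, (u - v) * H, s, hs, ?_, hcx, ?_, hEx, hMx, ?_, ?_, hxlow, ?_, ?_, ?_⟩
  · rw [mul_pow, rtH_sq hxpos hs]
    congr 1
    have h3 : incl (HahnSeries.single (1 : ℝ) (4 : F)) = 4 * (u * v) := by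
      rw [hu, hv, rt_tz_mul]
      unfold tz
      have h5 : (4 : HahnSeries ℝ (AddMonoidAlgebra F (ℤ × ℤ))) =
          HahnSeries.single 0 (4 : AddMonoidAlgebra F (ℤ × ℤ)) := by
        rw [← HahnSeries.C_apply, map_ofNat]
      rw [h5, HahnSeries.single_mul_single]
      ext a m
      rw [rt_incl_coeff]
      have h6 : (0 : ℝ) + (τ + (1 - τ)) = 1 := by ring
      rw [h6, HahnSeries.coeff_single, HahnSeries.coeff_single]
      have h7 : (4 : AddMonoidAlgebra F (ℤ × ℤ)) = AddMonoidAlgebra.single 0 4 := by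
        have := AddMonoidAlgebra.natCast_def (R := F) (M := ℤ × ℤ) 4
        simpa using this
      by_cases ha : a = 1
      · rw [if_pos ha, if_pos ha, h7, AddMonoidAlgebra.single_mul_single]
        simp
        rfl
      · rw [if_neg ha, if_neg ha]
        simp
    rw [h3]
    ring
  · have := hcw.mul hcH
    rwa [add_zero] at this
  · have := Ep_mul _ _ hcw hcH
    rw [add_zero] at this
    rw [this, hEw, hEH]
  · have := Em_mul _ _ hcw hcH
    rw [add_zero] at this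
    rw [this, hMw, hMH, neg_mul]
  · rw [HahnSeries.coeff_add, hu, hv]
    unfold tz
    rw [HahnSeries.coeff_single_same, HahnSeries.coeff_single_of_ne (by linarith : τ < 1 - τ).ne,
      add_zero]
  · intro a ha
    rw [hycoef, hHn _ (by linarith), hHn _ (by linarith)]
    simp
  · rw [hycoef, sub_self, hH0, hHn _ (by linarith)]
    simp

end Pool.Agent.TH722.PN
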