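import Pool.Agent.TH722.PN.TubeOf
import Pool.Agent.TH722.PN.Root
import Pool.Agent.TH722.PN.Div
import Pool.Agent.TH722.PN.Lead

set_option autoImplicit false

namespace Pool.Agent.TH722.PN

/-- the key lemma for one slice -/
theorem exists_nodal (F : Type) [Field F] [CharZero F] {δ : ℕ} (hδ : 2 ≤ δ) {τ : ℝ} (h0 : 0 < τ)
    (h1 : τ < 1 / 2) (B : ℕ) :
    ∃ ψ : Multiplicative (ℤ × ℤ) →* HahnSeries ℝ (AddMonoidAlgebra F (ℤ × ℤ)),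
      ∀ c : ℕ, c ≤ B → Deg ψ {m | 0 ≤ m.1 ∧ 0 ≤ m.2 ∧ m.1 + δ * m.2 ≤ c}
        {m | 0 ≤ m.2 ∧ -(2 * τ * (c - 2 * δ * m.2)) ≤ (m.1 : ℝ) ∧
          (m.1 : ℝ) ≤ (2 - 2 * τ) * (c - 2 * δ * m.2)} := by
  obtain ⟨x, y, s, hs, hxy, hcx, hcy, hxp, hxm, hyp, hym, hlx, hx1, hly, hy1⟩ :=
    exists_root F h0 h1
  exact Tube.nodal_aux hδ h0 h1 B hxy ⟨hlx, hx1⟩ ⟨hly, hy1⟩
    (fun hA hB hne => lead_g h0 h1 hs hcx hcy hxp hxm hyp hym hδ hA hB hne)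
    (fun hr _ _ hP => exists_div (by omega) hr hP)

end Pool.Agent.TH722.PN
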