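import Pool.Agent.TH722.PN.NodalOf
import Pool.Agent.TH722.PN.Degen
import Pool.Agent.TH722.PN.Tube

/-! The nodal step of the chain. -/

set_option autoImplicit false

namespace Pool.Agent.TH722.PN

variable {ι J : Type} [AddCommGroup J]

theorem degenS : DegenS ι J := by
  intro 𝓕 𝓕' ψ h h'
  exact EmpS.degen ψ h h'

theorem nodalS : NodalS := by
  intro F _ _ δ hδ τ h0 h1 B
  exact exists_nodal F hδ h0 h1 B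

theorem EmpS.nodal {δ : ℕ} (hδ : 2 ≤ δ) {τ : ℝ} (h0 : 0 < τ) (h1 : τ < 1 / 2) (B : ℝ)
    {𝓕 𝓕' : Set ((ι → ℕ) × Set (J × (ℤ × ℤ)))}
    (h : ∀ x ∈ 𝓕, ∃ S', (x.1, S') ∈ 𝓕' ∧ ∀ j, ∃ c : ℝ, c ≤ B ∧
      (∀ a b : ℤ, (j, (a, b)) ∈ x.2 → 0 ≤ a ∧ 0 ≤ b ∧ (a : ℝ) + δ * b ≤ c) ∧
      (∀ i m : ℤ, 0 ≤ m → -(2 * τ * (c - 2 * δ * m)) ≤ (i : ℝ) →
        (i : ℝ) ≤ (2 - 2 * τ) * (c - 2 * δ * m) → (j, (i, m)) ∈ S'))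
    (h' : EmpS 𝓕') : EmpS 𝓕 :=
  EmpS.nodal_of degenS nodalS hδ h0 h1 B h h'

end Pool.Agent.TH722.PN
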