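import Pool.Agent.TH722.PN.Defs

/-! The nodal step of the chain from the degeneration lemma and the key lemma for one slice. -/

set_option autoImplicit false

namespace Pool.Agent.TH722.PN

variable {ι J : Type}

/-- the degeneration lemma (B) for the indices `ι`, `J` and the group `ℤ × ℤ` -/
def DegenS (ι J : Type) [AddCommGroup J] : Prop :=
  ∀ (𝓕 𝓕' : Set ((ι → ℕ) × Set (J × (ℤ × ℤ))))
    (ψ : ∀ (F : Type) [Field F] [CharZero F],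
      Multiplicative (ℤ × ℤ) →* HahnSeries ℝ (AddMonoidAlgebra F (ℤ × ℤ))),
    (∀ x ∈ 𝓕, ∃ S', (x.1, S') ∈ 𝓕' ∧ ∀ (F : Type) [Field F] [CharZero F] (j : J),
      Deg (ψ F) {m | (j, m) ∈ x.2} {m | (j, m) ∈ S'}) → EmpS 𝓕' → EmpS 𝓕

/-- the key lemma for one slice (N6) -/
def NodalS : Prop :=
  ∀ (F : Type) [Field F] [CharZero F] {δ : ℕ} (_ : 2 ≤ δ) {τ : ℝ} (_ : 0 < τ)
    (_ : τ < 1 / 2) (B : ℕ),
    ∃ ψ : Multiplicative (ℤ × ℤ) →* HahnSeries ℝ (AddMonoidAlgebra F (ℤ × ℤ)),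
      ∀ c : ℕ, c ≤ B → Deg ψ {m | 0 ≤ m.1 ∧ 0 ≤ m.2 ∧ m.1 + δ * m.2 ≤ c}
        {m | 0 ≤ m.2 ∧ -(2 * τ * (c - 2 * δ * m.2)) ≤ (m.1 : ℝ) ∧
          (m.1 : ℝ) ≤ (2 - 2 * τ) * (c - 2 * δ * m.2)}

theorem EmpS.nodal_of [AddCommGroup J] (degen : DegenS ι J) (nod : NodalS)
    {δ : ℕ} (hδ : 2 ≤ δ) {τ : ℝ} (h0 : 0 < τ) (h1 : τ < 1 / 2) (B : ℝ)
    {𝓕 𝓕' : Set ((ι → ℕ) × Set (J × (ℤ × ℤ)))}
    (h : ∀ x ∈ 𝓕, ∃ S', (x.1, S') ∈ 𝓕' ∧ ∀ j, ∃ c : ℝ, c ≤ B ∧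
      (∀ a b : ℤ, (j, (a, b)) ∈ x.2 → 0 ≤ a ∧ 0 ≤ b ∧ (a : ℝ) + δ * b ≤ c) ∧
      (∀ i m : ℤ, 0 ≤ m → -(2 * τ * (c - 2 * δ * m)) ≤ (i : ℝ) →
        (i : ℝ) ≤ (2 - 2 * τ) * (c - 2 * δ * m) → (j, (i, m)) ∈ S'))
    (h' : EmpS 𝓕') : EmpS 𝓕 := by
  refine degen 𝓕 𝓕' (fun F _ _ => (nod F hδ h0 h1 ⌊B⌋₊).choose) ?_ h'
  intro x hx
  obtain ⟨S', hS', hj⟩ := h x hx
  refine ⟨S', hS', ?_⟩
  intro F _ _ j f hf hfS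
  obtain ⟨c, hcB, hin, hout⟩ := hj j
  have hne : f.coeff.support.Nonempty := by
    rw [Finset.nonempty_iff_ne_empty, Ne, Finsupp.support_eq_empty]
    intro hz
    apply hf
    ext m
    rw [hz]
    rfl
  have hpos : ∀ m ∈ f.coeff.support, 0 ≤ m.1 ∧ 0 ≤ m.2 ∧ (m.1 : ℝ) + δ * m.2 ≤ c := by
    intro m hm
    exact hin m.1 m.2 (hfS m hm)
  have hc0 : 0 ≤ c := by
    obtain ⟨m, hm⟩ := hne
    obtain ⟨ha, hb, hab⟩ := hpos m hm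
    have ha' : (0 : ℝ) ≤ (m.1 : ℝ) := by exact_mod_cast ha
    have hb' : (0 : ℝ) ≤ (m.2 : ℝ) := by exact_mod_cast hb
    have hd' : (0 : ℝ) ≤ (δ : ℝ) := Nat.cast_nonneg δ
    have := mul_nonneg hd' hb'
    linarith
  have key := (nod F hδ h0 h1 ⌊B⌋₊).choose_spec ⌊c⌋₊ (Nat.floor_mono hcB) f hf (by
    intro m hm
    obtain ⟨ha, hb, hab⟩ := hpos m hm
    refine ⟨ha, hb, ?_⟩
    have h2 : m.1 + (δ : ℤ) * m.2 ≤ ⌊c⌋ := by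
      rw [Int.le_floor]
      push_cast
      exact hab
    have h3 : ((⌊c⌋₊ : ℕ) : ℤ) = ⌊c⌋ := Int.natCast_floor_eq_floor hc0
    rw [h3]
    exact h2)
  obtain ⟨a, ha1, ha2, ha3⟩ := key
  refine ⟨a, ha1, ha2, ?_⟩
  rintro ⟨i, m⟩ hm
  obtain ⟨h3, h4, h5⟩ := ha3 _ hm
  have hle : ((⌊c⌋₊ : ℕ) : ℝ) ≤ c := Nat.floor_le hc0
  refine hout i m h3 (le_trans ?_ h4) (le_trans h5 ?_)
  · have : 2 * τ * ((⌊c⌋₊ : ℕ) - 2 * δ * (m : ℝ)) ≤ 2 * τ * (c - 2 * δ * m) :=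
      mul_le_mul_of_nonneg_left (by linarith) (by linarith)
    exact neg_le_neg this
  · exact mul_le_mul_of_nonneg_left (by linarith) (by linarith)

end Pool.Agent.TH722.PN
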