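import Pool.Agent.TH722.PN.Defs

/-! Choice of the parameters. -/

set_option autoImplicit false

namespace Pool.Agent.TH722.PN

private theorem par_two {g H : ℝ} (hg : 8 ≤ g) (hH : 0 < H) (hgH : 1 ≤ g * H) :
    ∃ k : ℕ, 4 * H < (2 : ℝ) ^ k ∧ (2 : ℝ) ^ k ≤ g * H := by
  classical
  have hex : ∃ k : ℕ, 4 * H < (2 : ℝ) ^ k := pow_unbounded_of_one_lt _ (by norm_num)
  refine ⟨Nat.find hex, Nat.find_spec hex, ?_⟩
  rcases Nat.eq_zero_or_pos (Nat.find hex) with h0 | h0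
  · rw [h0, pow_zero]
    exact hgH
  · have h1 := Nat.find_min hex (Nat.sub_lt h0 one_pos)
    have h2 : (2 : ℝ) ^ (Nat.find hex) = 2 * (2 : ℝ) ^ (Nat.find hex - 1) := by
      rw [← pow_succ']
      congr 1
      omega
    rw [h2]
    have h3 : (2 : ℝ) ^ (Nat.find hex - 1) ≤ 4 * H := not_lt.1 h1
    nlinarith

private theorem par_coprime (k : ℕ) {q : ℤ} (hq : Odd q) : IsCoprime ((2 : ℤ) ^ k) q := by
  apply IsCoprime.pow_left
  obtain ⟨m, hm⟩ := hq
  exact ⟨-m, 1, by rw [hm]; ring⟩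

/-! H (file Par.lean) : choice of the parameters -/

theorem exists_par {g H A : ℝ} (hA : 1 ≤ A) (hg : 8 ≤ g) (hH : 0 < H) (hgH : 1 ≤ g * H) :
    ∃ (am : ℝ) (u q : ℤ), 0 < am ∧ am < A / 2 ∧ 0 < u ∧ IsCoprime u q ∧
      g * A * H = q * H + u * am ∧ u * (A - am) ≤ q * H := by
  obtain ⟨k, hk1, hk2⟩ := par_two hg hH hgH
  obtain ⟨u, hu⟩ : ∃ u : ℝ, u = (2 : ℝ) ^ k := ⟨_, rfl⟩
  rw [← hu] at hk1 hk2
  have hu0 : 0 < u := by rw [hu]; positivity
  have hui : (((2 : ℤ) ^ k : ℤ) : ℝ) = u := by rw [hu]; push_cast; rfl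
  -- an odd number in the interval
  obtain ⟨q, hqo, hq1, hq2⟩ : ∃ q : ℤ, Odd q ∧ (q : ℝ) < g * A ∧ g * A - 2 ≤ q := by
    have h1 : ((⌈g * A⌉ - 1 : ℤ) : ℝ) < g * A := by
      have := Int.ceil_lt_add_one (g * A)
      push_cast
      linarith
    have h2 : g * A - 1 ≤ ((⌈g * A⌉ - 1 : ℤ) : ℝ) := by
      have := Int.le_ceil (g * A)
      push_cast
      linarith
    rcases Int.even_or_odd (⌈g * A⌉ - 1) with h | h
    · refine ⟨⌈g * A⌉ - 1 - 1, h.sub_odd odd_one, ?_, ?_⟩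
      · push_cast at h1 ⊢
        linarith
      · push_cast at h2 ⊢
        linarith
    · exact ⟨⌈g * A⌉ - 1, h, h1, by linarith⟩
  have hlen : H * (g * A - q) < u * A / 2 := by
    have h3 : g * A - q ≤ 2 := by linarith
    have h4 : H * (g * A - q) ≤ H * 2 := mul_le_mul_of_nonneg_left h3 hH.le
    have h5 : 4 * H * A < u * A := mul_lt_mul_of_pos_right hk1 (by linarith)
    have h6 : 4 * H ≤ 4 * H * A := by nlinarith
    linarith
  refine ⟨H * (g * A - q) / u, (2 : ℤ) ^ k, q, ?_, ?_, by positivity, par_coprime k hqo, ?_, ?_⟩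
  · have h3 : 0 < g * A - q := by linarith
    positivity
  · rw [div_lt_iff₀ hu0]
    linarith
  · rw [hui]
    field_simp
    ring
  · rw [hui]
    have h3 : u * (A - H * (g * A - q) / u) = u * A - H * (g * A - q) := by
      field_simp
    rw [h3]
    have h4 : u * A ≤ g * H * A := mul_le_mul_of_nonneg_right hk2 (by linarith)
    linarith

end Pool.Agent.TH722.PN
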