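import Pool.Agent.TH722.PN.Defs

/-! The stages of the chain from `ℙ ^ N`: definition. -/

set_option autoImplicit false

namespace Pool.Agent.TH722.PN

/-- stage `(k, r)` with weight `W` -/
def Stg (a : ℕ → ℝ × ℝ) (k r : ℕ) (W D : ℝ) : Set ((Q k × Q r) × ℤ) :=
  {y | 0 ≤ y.2 ∧ Nn r y.1.2 ∧ GG a k y.1.1 + 2 * Sm r y.1.2 + W * y.2 ≤ D}

end Pool.Agent.TH722.PN
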