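import Pool.Agent.TH722.PN.Basic
import Pool.Agent.TH722.PN.Nodal
import Pool.Agent.TH722.PN.Stg

/-! One stage of the chain from `ℙ ^ N` (helper147, job 4481). -/

set_option autoImplicit false

namespace Pool.Agent.TH722.PN

namespace Stage

/-- regrouping before the nodal lemma -/
def e1 (k r : ℕ) : (Q k × Q (r + 1)) × ℤ ≃+ (Q k × Q r) × (ℤ × ℤ) where
  toFun x := ((x.1.1, x.1.2.1), (x.1.2.2, x.2))
  invFun x := ((x.1.1, (x.1.2, x.2.1)), x.2.2)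
  left_inv _ := rfl
  right_inv _ := rfl
  map_add' _ _ := rfl

/-- regrouping after the nodal lemma -/
def e2 (k r : ℕ) : (Q k × Q r) × (ℤ × ℤ) ≃+ (Q (k + 1) × Q r) × ℤ where
  toFun x := (((x.1.1, x.2.1), x.1.2), x.2.2)
  invFun x := ((x.1.1.1, x.1.2), (x.1.1.2, x.2))
  left_inv _ := rfl
  right_inv _ := rfl
  map_add' _ _ := rfl

theorem gau_nonneg {a : ℝ × ℝ} (h1 : 0 < a.1) (h2 : 0 < a.2) (x : ℝ) : 0 ≤ gau a x := by
  unfold gau
  rcases le_total 0 x with h | h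
  · exact le_max_of_le_left (div_nonneg h h2.le)
  · exact le_max_of_le_right (div_nonneg (neg_nonneg.2 h) h1.le)

theorem GG_nonneg {a : ℕ → ℝ × ℝ} : ∀ (k : ℕ), (∀ l < k, 0 < (a l).1 ∧ 0 < (a l).2) →
    ∀ j : Q k, 0 ≤ GG a k j
  | 0, _, _ => le_rfl
  | (k + 1), h, j => add_nonneg (GG_nonneg k (fun l hl => h l (by omega)) j.1)
      (gau_nonneg (h k (by omega)).1 (h k (by omega)).2 _)

theorem Sm_nonneg : ∀ (r : ℕ) (y : Q r), Nn r y → 0 ≤ Sm r y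
  | 0, _, _ => le_rfl
  | (r + 1), y, h => add_nonneg (Sm_nonneg r y.1 h.1) h.2

end Stage

open Stage Classical in
theorem EmpS.stage {ι : Type} {a : ℕ → ℝ × ℝ} {k r : ℕ}
    (ha : ∀ l < k, 0 < (a l).1 ∧ 0 < (a l).2) {δ : ℕ}
    (hδ : 2 ≤ δ) {τ : ℝ} (h0 : 0 < τ) (h1 : τ < 1 / 2) (hak : a k = (τ, 1 - τ)) {D : ℝ}
    {w : ι → ℕ} (h : EmpS {(w, Stg a (k + 1) r (2 * (2 * δ)) D)}) :
    EmpS {(w, Stg a k (r + 1) (2 * δ) D)} := by
  set S1 : Set ((Q k × Q r) × (ℤ × ℤ)) := {x | 0 ≤ x.2.2 ∧ Nn r x.1.2 ∧ 0 ≤ x.2.1 ∧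
    GG a k x.1.1 + 2 * ((Sm r x.1.2 : ℝ) + x.2.1) + 2 * δ * x.2.2 ≤ D} with hS1
  set S2 : Set ((Q k × Q r) × (ℤ × ℤ)) := {x | 0 ≤ x.2.2 ∧ Nn r x.1.2 ∧
    GG a k x.1.1 + gau (τ, 1 - τ) x.2.1 + 2 * Sm r x.1.2 + 2 * (2 * δ) * x.2.2 ≤ D} with hS2
  have hS2' : EmpS {(w, S2)} := by
    refine EmpS.equiv (e2 k r) ?_ h
    rintro x rfl
    refine ⟨0, _, rfl, ?_⟩
    rintro ⟨⟨j, y⟩, ⟨i, m⟩⟩ ⟨hm, hy, hle⟩
    rw [add_zero]
    refine ⟨hm, hy, ?_⟩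
    have e : GG a (k + 1) ((j, i) : Q (k + 1)) = GG a k j + gau (a k) (i : ℤ) := rfl
    show GG a (k + 1) ((j, i) : Q (k + 1)) + 2 * Sm r y + 2 * (2 * δ) * (m : ℤ) ≤ D
    rw [e, hak]
    exact hle
  have hS1' : EmpS {(w, S1)} := by
    refine EmpS.nodal hδ h0 h1 (|D| / 2) ?_ hS2'
    rintro x rfl
    refine ⟨S2, rfl, ?_⟩
    rintro ⟨j, y⟩
    by_cases hy : Nn r y
    · refine ⟨(D - GG a k j - 2 * Sm r y) / 2, ?_, ?_, ?_⟩
      · have g1 := GG_nonneg k ha j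
        have g2 : (0 : ℝ) ≤ Sm r y := by exact_mod_cast Sm_nonneg r y hy
        have g3 := le_abs_self D
        linarith
      · rintro b c ⟨hc, _, hb, hle⟩
        refine ⟨hb, hc, ?_⟩
        simp only at hle
        linarith
      · intro i m hm hi1 hi2
        refine ⟨hm, hy, ?_⟩
        simp only
        set L : ℝ := (D - GG a k j - 2 * Sm r y) / 2 - 2 * δ * m with hL
        have g1 : gau (τ, 1 - τ) i ≤ 2 * L := by
          unfold gau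
          refine max_le ?_ ?_
          · rw [div_le_iff₀ (by linarith)]
            simp only
            linarith
          · rw [div_le_iff₀ h0]
            linarith
        linarith
    · refine ⟨-1, ?_, ?_, ?_⟩
      · have := abs_nonneg D
        linarith
      · rintro b c ⟨_, hn, _⟩
        exact absurd hn hy
      · intro i m hm hi1 hi2
        exfalso
        have g1 : (0 : ℝ) ≤ δ * m := mul_nonneg (Nat.cast_nonneg _) (by exact_mod_cast hm)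
        nlinarith
  refine EmpS.equiv (e1 k r) ?_ hS1'
  rintro x rfl
  refine ⟨0, _, rfl, ?_⟩
  rintro ⟨⟨j, y⟩, m⟩ ⟨hm, hy, hle⟩
  rw [add_zero]
  refine ⟨hm, hy.1, hy.2, ?_⟩
  have e : (Sm (r + 1) y : ℝ) = Sm r y.1 + y.2 := by
    have : Sm (r + 1) y = Sm r y.1 + y.2 := rfl
    rw [this]
    push_cast
    rfl
  show GG a k j + 2 * ((Sm r y.1 : ℝ) + y.2) + 2 * δ * m ≤ D
  rw [← e]
  exact hle

end Pool.Agent.TH722.PN
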