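import Pool.Agent.TH722.PN.StepOf
import Pool.Agent.TH722.PN.Basic
import Pool.Agent.TH722.PN.Flat
import Pool.Agent.TH722.PN.Final

/-! One level of the induction (job 4472, written by helper656). -/

set_option autoImplicit false

namespace Pool.Agent.TH722.PN

variable {ι J M M' : Type} [AddCommGroup J] [AddCommGroup M] [AddCommGroup M']

theorem EmpS.step [Fintype ι] (G : J → ℝ) {am ap H g C β : ℝ} {u q : ℤ}
    (ham : 0 < am) (hap : 0 < ap) (hH : 0 < H) (hg : 0 < g) (hu : 0 < u) (hc : IsCoprime u q)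
    (hβ : β = q * H + u * am) (hβ2 : β = g * (am + ap) * H) (hq : u * ap ≤ q * H)
    (hC : C * g = Fintype.card ι)
    (h : EmpS {x : (ι → ℕ) × Set (J × ℤ) | ∃ D : ℝ, C * D < ∑ i, (x.1 i : ℝ) ∧
      x.2 = {y | 0 ≤ y.2 ∧ G y.1 + y.2 / β ≤ D}}) :
    EmpS {x : (ι → ℕ) × Set ((J × ℤ) × ℤ) | ∃ D : ℝ, C * D < ∑ i, (x.1 i : ℝ) ∧
      x.2 = {y | 0 ≤ y.2 ∧ (G y.1.1 + gau (am, ap) y.1.2) + y.2 / H ≤ D}} :=
  EmpS.step_of (fun _ _ _ _ _ e _ _ h h' => EmpS.equiv e h h') (fun _ _ _ _ _ h h' => EmpS.flat h h')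
    (fun _ _ _ _ _ h h' => EmpS.final h h') G ham hap hH hg hu hc hβ hβ2 hq hC h

end Pool.Agent.TH722.PN
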