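import Pool.Agent.TH722.PN.Defs

/-! One level of the induction, with `EmpS.equiv`, `EmpS.flat`, `EmpS.final` as hypotheses
(job 4472, written by helper656). -/

set_option autoImplicit false

namespace Pool.Agent.TH722.PN

variable {ι J M M' : Type} [AddCommGroup J] [AddCommGroup M] [AddCommGroup M']

namespace StepAux

variable {J : Type} [AddCommGroup J]

/-- the change of coordinates `(i, m) ↦ (u i + q m, r i + s m)` -/
def eqv (u q r s : ℤ) (h : u * s - q * r = 1) : (J × ℤ) × ℤ ≃+ (J × ℤ) × ℤ where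
  toFun y := ((y.1.1, u * y.1.2 + q * y.2), r * y.1.2 + s * y.2)
  invFun y := ((y.1.1, s * y.1.2 - q * y.2), u * y.2 - r * y.1.2)
  left_inv := by
    rintro ⟨⟨j, i⟩, m⟩
    simp only [Prod.mk.injEq, true_and]
    constructor
    · linear_combination i * h
    · linear_combination m * h
  right_inv := by
    rintro ⟨⟨j, i⟩, m⟩
    simp only [Prod.mk.injEq, true_and]
    constructor
    · linear_combination i * h
    · linear_combination m * h
  map_add' := by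
    rintro ⟨⟨j, i⟩, m⟩ ⟨⟨j', i'⟩, m'⟩
    simp only [Prod.mk_add_mk, Prod.mk.injEq, true_and]
    constructor <;> ring

theorem gau_iff {am ap H : ℝ} (ham : 0 < am) (hap : 0 < ap) (hH : 0 < H) (x m c : ℝ) :
    gau (am, ap) x + m / H ≤ c ↔ x * H + m * ap ≤ c * ap * H ∧ -x * H + m * am ≤ c * am * H := by
  have h1 : gau (am, ap) x + m / H ≤ c ↔ x / ap + m / H ≤ c ∧ -x / am + m / H ≤ c := by
    unfold gau
    simp only
    constructor
    · intro h
      exact ⟨(add_le_add_left (le_max_left _ _) _).trans h,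
        (add_le_add_left (le_max_right _ _) _).trans h⟩
    · rintro ⟨h1, h2⟩
      rw [← le_sub_iff_add_le]
      exact max_le (by linarith) (by linarith)
  rw [h1]
  refine and_congr ?_ ?_
  · rw [div_add_div _ _ hap.ne' hH.ne', div_le_iff₀ (by positivity)]
    constructor <;> intro h <;> nlinarith
  · rw [div_add_div _ _ ham.ne' hH.ne', div_le_iff₀ (by positivity)]
    constructor <;> intro h <;> nlinarith

/-- the bound on the columns -/
theorem key1 {am H β c u q L i m : ℝ} (hu : 0 < u) (hβ : β = q * H + u * am)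
    (hL : L = u * i + q * m) (h : -i * H + m * am ≤ c * am * H) :
    β * m ≤ H * (c * u * am + L) := by
  rw [hβ, hL]
  have := mul_le_mul_of_nonneg_left h hu.le
  nlinarith

theorem key2 {am ap H g β c u q L i0 m0 i1 m1 t : ℝ} (ham : 0 < am) (hap : 0 < ap) (hH : 0 < H)
    (hg : 0 < g) (hu : 0 < u) (hβ : β = q * H + u * am) (hβ2 : β = g * (am + ap) * H)
    (hq : u * ap ≤ q * H) (hL0 : L = u * i0 + q * m0) (hL1 : L = u * i1 + q * m1)
    (h0 : i0 * H + m0 * ap ≤ c * ap * H) (h1 : -i1 * H + m1 * am ≤ c * am * H)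
    (hm0 : 0 ≤ m0) (hmt : m0 + u * t ≤ m1) :
    -(u * am) * (c - g * t) ≤ L - g * u * ap * t ∧
      L - g * u * ap * t ≤ q * H * (c - g * t) := by
  have hβ0 : 0 < β := by rw [hβ2]; positivity
  have k1 := key1 hu hβ hL1 h1
  constructor
  · have h2 : β * (u * t) ≤ H * (c * u * am + L) :=
      (mul_le_mul_of_nonneg_left (by linarith : u * t ≤ m1) hβ0.le).trans k1
    rw [hβ2] at h2
    have h3 : H * (g * (am + ap) * (u * t)) ≤ H * (c * u * am + L) := by
      refine le_trans (le_of_eq ?_) h2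
      ring
    have h4 := le_of_mul_le_mul_left h3 hH
    linarith
  · have h2 : L * H ≤ c * u * ap * H + m0 * (q * H - u * ap) := by
      have := mul_le_mul_of_nonneg_left h0 hu.le
      rw [hL0]
      nlinarith
    have h3 : β * m0 ≤ H * (c * u * am + L) - β * (u * t) := by
      have : β * (m0 + u * t) ≤ β * m1 := mul_le_mul_of_nonneg_left hmt hβ0.le
      linarith
    have h4 : β * (L * H) ≤ β * (c * u * ap * H) + (q * H - u * ap) *
        (H * (c * u * am + L) - β * (u * t)) := by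
      have h5 := mul_le_mul_of_nonneg_left h2 hβ0.le
      have h6 := mul_le_mul_of_nonneg_left h3 (by linarith : 0 ≤ q * H - u * ap)
      have h7 : β * (c * u * ap * H + m0 * (q * H - u * ap)) =
        β * (c * u * ap * H) + (q * H - u * ap) * (β * m0) := by ring
      linarith
    have h5 : (u * (am + ap) * H) * L ≤ (u * (am + ap) * H) *
        (q * H * c - (q * H - u * ap) * (g * t)) := by
      have e1 : β * (L * H) = (u * (am + ap) * H) * L + (q * H - u * ap) * (H * L) := by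
        rw [hβ]; ring
      have e2 : β * (c * u * ap * H) + (q * H - u * ap) * (H * (c * u * am + L) - β * (u * t)) =
          (u * (am + ap) * H) * (q * H * c) + (q * H - u * ap) * (H * L)
            - (q * H - u * ap) * (β * (u * t)) := by
        have : β * (c * u * ap * H) = (q * H + u * am) * (c * u * ap * H) := by rw [hβ]
        rw [this]; ring
      have e3 : (q * H - u * ap) * (β * (u * t)) =
          (u * (am + ap) * H) * ((q * H - u * ap) * (g * t)) := by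
        rw [hβ2]; ring
      rw [e1, e2, e3] at h4
      linarith
    have h6 := le_of_mul_le_mul_left h5 (by positivity)
    linarith

/-- the statement of `EmpS.equiv` -/
def SEquiv : Prop := ∀ (ι M M' : Type) [AddCommGroup M] [AddCommGroup M'] (e : M ≃+ M')
    (𝓕 : Set ((ι → ℕ) × Set M)) (𝓕' : Set ((ι → ℕ) × Set M')),
    (∀ x ∈ 𝓕, ∃ (v : M') (S' : Set M'), (x.1, S') ∈ 𝓕' ∧ ∀ m ∈ x.2, e m + v ∈ S') →
    EmpS 𝓕' → EmpS 𝓕

/-- the statement of `EmpS.flat` -/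
def SFlat : Prop := ∀ (ι J : Type) [AddCommGroup J] (𝓕 𝓕' : Set ((ι → ℕ) × Set (J × ℤ))),
    (∀ x ∈ 𝓕, ∃ S', (x.1, S') ∈ 𝓕' ∧ (∀ j, {b | (j, b) ∈ x.2}.Finite) ∧
      ∀ j b0 b1 t, (j, b0) ∈ x.2 → (j, b1) ∈ x.2 → 0 ≤ t → t ≤ b1 - b0 → (j, t) ∈ S') →
    EmpS 𝓕' → EmpS 𝓕

/-- the statement of `EmpS.final` -/
def SFinal : Prop := ∀ (ι J : Type) [AddCommGroup J] (𝓕 : Set ((ι → ℕ) × Set (J × ℤ)))
    (𝓕' : Set ((ι → ℕ) × Set J)),
    (∀ x ∈ 𝓕, (∀ j t, (j, t) ∈ x.2 → 0 ≤ t) ∧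
      (∀ j t, 0 ≤ t → (j, t + 1) ∈ x.2 → (j, t) ∈ x.2) ∧
      ∀ k : ℕ, ((fun i => x.1 i - k), {j | (j, (k : ℤ)) ∈ x.2}) ∈ 𝓕') →
    EmpS 𝓕' → EmpS 𝓕

end StepAux

open StepAux in
theorem EmpS.step_of (Heq : SEquiv) (Hfl : SFlat) (Hfi : SFinal) [Fintype ι] (G : J → ℝ) {am ap H g C β : ℝ} {u q : ℤ}
    (ham : 0 < am) (hap : 0 < ap) (hH : 0 < H) (hg : 0 < g) (hu : 0 < u) (hc : IsCoprime u q)
    (hβ : β = q * H + u * am) (hβ2 : β = g * (am + ap) * H) (hq : u * ap ≤ q * H)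
    (hC : C * g = Fintype.card ι)
    (h : EmpS {x : (ι → ℕ) × Set (J × ℤ) | ∃ D : ℝ, C * D < ∑ i, (x.1 i : ℝ) ∧
      x.2 = {y | 0 ≤ y.2 ∧ G y.1 + y.2 / β ≤ D}}) :
    EmpS {x : (ι → ℕ) × Set ((J × ℤ) × ℤ) | ∃ D : ℝ, C * D < ∑ i, (x.1 i : ℝ) ∧
      x.2 = {y | 0 ≤ y.2 ∧ (G y.1.1 + gau (am, ap) y.1.2) + y.2 / H ≤ D}} := by
  obtain ⟨s, r', hab⟩ := hc
  obtain ⟨r, rfl⟩ : ∃ r, r' = -r := ⟨-r', by ring⟩
  have hdet : u * s - q * r = 1 := by linear_combination hab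
  have huR : (0 : ℝ) < u := by exact_mod_cast hu
  have hβ0 : 0 < β := by rw [hβ2]; positivity
  -- the slices
  have h1 : EmpS {x : (ι → ℕ) × Set (J × ℤ) | ∃ D κ : ℝ, C * D < ∑ i, (x.1 i : ℝ) ∧
      x.2 = {y | -(u * am) * (D - G y.1) ≤ y.2 - κ ∧ y.2 - κ ≤ q * H * (D - G y.1)}} := by
    refine Hfl _ _ _ _ ?_ h
    rintro ⟨w, S⟩ ⟨D, κ, hD, rfl⟩
    refine ⟨{y | 0 ≤ y.2 ∧ G y.1 + y.2 / β ≤ D}, ⟨D, hD, rfl⟩, fun j => ?_, ?_⟩
    · refine (Set.finite_Icc ⌈κ + -(u * am) * (D - G j)⌉ ⌊κ + q * H * (D - G j)⌋).subset ?_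
      rintro b ⟨hb1, hb2⟩
      simp only at hb1 hb2
      exact ⟨Int.ceil_le.2 (by linarith), Int.le_floor.2 (by linarith)⟩
    · rintro j b0 b1 t ⟨h1, -⟩ ⟨-, h2⟩ ht htb
      simp only at h1 h2
      refine ⟨ht, ?_⟩
      simp only
      have h3 : (t : ℝ) ≤ b1 - b0 := by exact_mod_cast htb
      have h4 : (t : ℝ) ≤ β * (D - G j) := by
        rw [hβ]
        linarith
      have h5 : (t : ℝ) / β ≤ D - G j := by
        rw [div_le_iff₀ hβ0]
        linarith
      linarith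
  -- all points on one line
  have h2 : EmpS {x : (ι → ℕ) × Set ((J × ℤ) × ℤ) | ∃ D : ℝ, C * D < ∑ i, (x.1 i : ℝ) ∧
      x.2 = {y | 0 ≤ y.2 ∧ -(u * am) * (D - G y.1.1 - g * y.2) ≤ y.1.2 - g * u * ap * y.2 ∧
        y.1.2 - g * u * ap * y.2 ≤ q * H * (D - G y.1.1 - g * y.2)}} := by
    refine Hfi _ _ _ _ ?_ h1
    rintro ⟨w, S⟩ ⟨D, hD, rfl⟩
    refine ⟨fun j t ht => ht.1, ?_, ?_⟩
    · rintro ⟨j, L⟩ t ht ⟨-, h3, h4⟩
      simp only at h3 h4
      push_cast at h3 h4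
      refine ⟨ht, ?_, ?_⟩
      · simp only
        have : 0 ≤ u * am * g := by positivity
        have : 0 ≤ g * u * ap := by positivity
        nlinarith
      · simp only
        have : 0 ≤ g * (q * H - u * ap) := mul_nonneg hg.le (by linarith)
        nlinarith
    · intro k
      refine ⟨D - g * k, g * u * ap * k, ?_, ?_⟩
      · have h3 : ∑ i, ((w i : ℝ) - k) ≤ ∑ i, ((w i - k : ℕ) : ℝ) := by
          refine Finset.sum_le_sum fun i _ => ?_
          rcases le_total k (w i) with h | h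
          · rw [Nat.cast_sub h]
          · rw [Nat.sub_eq_zero_of_le h]
            have : (w i : ℝ) ≤ k := by exact_mod_cast h
            push_cast
            linarith
        rw [Finset.sum_sub_distrib, Finset.sum_const, Finset.card_univ, nsmul_eq_mul] at h3
        have h4 : C * (D - g * k) = C * D - Fintype.card ι * k := by
          rw [← hC]; ring
        simp only at hD ⊢
        rw [h4]
        linarith
      · ext ⟨j, L⟩
        simp only [Set.mem_ofPred_eq, Int.cast_natCast, Nat.cast_nonneg, true_and]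
        constructor
        · rintro ⟨h3, h4⟩
          constructor <;> linarith
        · rintro ⟨h3, h4⟩
          constructor <;> linarith
  -- the columns
  have h3 : EmpS {x : (ι → ℕ) × Set ((J × ℤ) × ℤ) | ∃ D : ℝ, C * D < ∑ i, (x.1 i : ℝ) ∧
      x.2 = {y | (eqv u q r s hdet).symm y ∈ {y : (J × ℤ) × ℤ |
        0 ≤ y.2 ∧ (G y.1.1 + gau (am, ap) y.1.2) + y.2 / H ≤ D}}} := by
    refine Hfl _ _ _ _ ?_ h2
    rintro ⟨w, S⟩ ⟨D, hD, rfl⟩
    have hmem : ∀ (j : J) (L M : ℤ), ((j, L), M) ∈ {y : (J × ℤ) × ℤ |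
        (eqv u q r s hdet).symm y ∈ {y : (J × ℤ) × ℤ |
        0 ≤ y.2 ∧ (G y.1.1 + gau (am, ap) y.1.2) + y.2 / H ≤ D}} →
        0 ≤ u * M - r * L ∧
        ((s * L - q * M : ℤ) : ℝ) * H + ((u * M - r * L : ℤ) : ℝ) * ap ≤ (D - G j) * ap * H ∧
        -((s * L - q * M : ℤ) : ℝ) * H + ((u * M - r * L : ℤ) : ℝ) * am ≤ (D - G j) * am * H := by
      rintro j L M ⟨h4, h5⟩
      refine ⟨h4, (gau_iff ham hap hH _ _ _).1 ?_⟩
      have h6 : G j + gau (am, ap) ((s * L - q * M : ℤ) : ℝ) + ((u * M - r * L : ℤ) : ℝ) / H ≤ D := h5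
      linarith
    have hLi : ∀ L M : ℤ, (L : ℝ) = u * ((s * L - q * M : ℤ) : ℝ) + q * ((u * M - r * L : ℤ) : ℝ) := by
      intro L M
      have : L = u * (s * L - q * M) + q * (u * M - r * L) := by
        linear_combination -L * hdet
      exact_mod_cast this
    refine ⟨{y | 0 ≤ y.2 ∧ -(u * am) * (D - G y.1.1 - g * y.2) ≤ y.1.2 - g * u * ap * y.2 ∧
        y.1.2 - g * u * ap * y.2 ≤ q * H * (D - G y.1.1 - g * y.2)}, ⟨D, hD, rfl⟩, ?_, ?_⟩
    · rintro ⟨j, L⟩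
      refine (Set.finite_Icc ⌈(r * L : ℝ) / u⌉
        ⌊(H * ((D - G j) * u * am + L) / β + r * L) / u⌋).subset ?_
      intro M hM
      obtain ⟨h4, h5, h6⟩ := hmem j L M hM
      have h7 := key1 huR hβ (hLi L M) h6
      have h8 : (0 : ℝ) ≤ u * M - r * L := by exact_mod_cast h4
      push_cast at h7
      refine ⟨Int.ceil_le.2 ?_, Int.le_floor.2 ?_⟩
      · rw [div_le_iff₀ huR]
        linarith
      · rw [le_div_iff₀ huR]
        have h9 : (u * M - r * L : ℝ) ≤ H * ((D - G j) * u * am + L) / β := by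
          rw [le_div_iff₀ hβ0]
          linarith
        linarith
    · rintro ⟨j, L⟩ M0 M1 t hM0 hM1 ht htM
      obtain ⟨h4, h5, -⟩ := hmem j L M0 hM0
      obtain ⟨-, -, h6⟩ := hmem j L M1 hM1
      have h7 : (0 : ℝ) ≤ ((u * M0 - r * L : ℤ) : ℝ) := by exact_mod_cast h4
      have h8 : ((u * M0 - r * L : ℤ) : ℝ) + u * t ≤ ((u * M1 - r * L : ℤ) : ℝ) := by
        have : u * M0 - r * L + u * t ≤ u * M1 - r * L := by nlinarith
        exact_mod_cast this
      obtain ⟨h9, h10⟩ := key2 ham hap hH hg huR hβ hβ2 hq (hLi L M0) (hLi L M1) h5 h6 h7 h8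
      exact ⟨ht, h9, h10⟩
  -- the change of coordinates
  refine Heq _ _ _ (eqv u q r s hdet) _ _ ?_ h3
  rintro ⟨w, S⟩ ⟨D, hD, rfl⟩
  refine ⟨0, {y | (eqv u q r s hdet).symm y ∈ {y : (J × ℤ) × ℤ |
        0 ≤ y.2 ∧ (G y.1.1 + gau (am, ap) y.1.2) + y.2 / H ≤ D}}, ⟨D, hD, rfl⟩, fun m hm => ?_⟩
  rw [add_zero]
  show (eqv u q r s hdet).symm ((eqv u q r s hdet) m) ∈ {y : (J × ℤ) × ℤ |
        0 ≤ y.2 ∧ (G y.1.1 + gau (am, ap) y.1.2) + y.2 / H ≤ D}
  rw [AddEquiv.symm_apply_apply]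
  exact hm

end Pool.Agent.TH722.PN
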