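import Pool.Agent.TH722.PN.Defs

set_option autoImplicit false

namespace Pool.Agent.TH722.PN.Tube

section low
variable {B : Type}

theorem low_mono [Zero B] {x : HahnSeries ℝ B} {a b : ℝ} (h : Low x b) (hab : a ≤ b) : Low x a :=
  fun c hc => h c (lt_of_lt_of_le hc hab)

theorem low_zero [Zero B] (a : ℝ) : Low (0 : HahnSeries ℝ B) a := fun _ _ => by simp

theorem low_add [AddMonoid B] {x y : HahnSeries ℝ B} {a : ℝ} (hx : Low x a) (hy : Low y a) :
    Low (x + y) a := fun c hc => by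
  rw [HahnSeries.coeff_add, hx c hc, hy c hc, add_zero]

theorem low_sum [AddCommMonoid B] {ι : Type} (s : Finset ι) {f : ι → HahnSeries ℝ B} {a : ℝ}
    (h : ∀ i ∈ s, Low (f i) a) : Low (∑ i ∈ s, f i) a := by
  classical
  induction s using Finset.induction_on with
  | empty => simpa using low_zero a
  | insert i s hi ih =>
    rw [Finset.sum_insert hi]
    exact low_add (h i (Finset.mem_insert_self i s)) (ih fun j hj => h j (Finset.mem_insert_of_mem hj))

theorem low_mul [Semiring B] {x y : HahnSeries ℝ B} {a b : ℝ} (hx : Low x a) (hy : Low y b) :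
    Low (x * y) (a + b) := fun c hc => by
  rw [HahnSeries.coeff_mul]
  refine Finset.sum_eq_zero fun ij hij => ?_
  rw [Finset.mem_antidiagonal] at hij
  obtain ⟨h1, h2, h3⟩ := hij
  by_cases h : ij.1 < a
  · rw [hx _ h, zero_mul]
  · have : ij.2 < b := by linarith [not_lt.mp h]
    rw [hy _ this, mul_zero]

theorem coeff_mul_low [Semiring B] {x y : HahnSeries ℝ B} {a b : ℝ} (hx : Low x a)
    (hy : Low y b) : (x * y).coeff (a + b) = x.coeff a * y.coeff b := by
  rw [HahnSeries.coeff_mul]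
  by_cases hxa : x.coeff a = 0
  · rw [hxa, zero_mul]
    refine Finset.sum_eq_zero fun ij hij => ?_
    rw [Finset.mem_antidiagonal] at hij
    obtain ⟨h1, h2, h3⟩ := hij
    by_cases h : ij.1 < a
    · rw [hx _ h, zero_mul]
    · rcases eq_or_lt_of_le (not_lt.mp h) with h' | h'
      · rw [← h', hxa, zero_mul]
      · have : ij.2 < b := by linarith
        rw [hy _ this, mul_zero]
  by_cases hyb : y.coeff b = 0
  · rw [hyb, mul_zero]
    refine Finset.sum_eq_zero fun ij hij => ?_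
    rw [Finset.mem_antidiagonal] at hij
    obtain ⟨h1, h2, h3⟩ := hij
    by_cases h : ij.2 < b
    · rw [hy _ h, mul_zero]
    · rcases eq_or_lt_of_le (not_lt.mp h) with h' | h'
      · rw [← h', hyb, mul_zero]
      · have : ij.1 < a := by linarith
        rw [hx _ this, zero_mul]
  refine Finset.sum_eq_single (a, b) (fun ij hij hne => ?_) (fun h => ?_)
  · rw [Finset.mem_antidiagonal] at hij
    obtain ⟨h1, h2, h3⟩ := hij
    by_cases h : ij.1 < a
    · rw [hx _ h, zero_mul]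
    · by_cases h' : ij.2 < b
      · rw [hy _ h', mul_zero]
      · exfalso
        apply hne
        ext
        · show ij.1 = a
          linarith [not_lt.mp h, not_lt.mp h']
        · show ij.2 = b
          linarith [not_lt.mp h, not_lt.mp h']
  · exact absurd (Finset.mem_antidiagonal.mpr ⟨hxa, hyb, rfl⟩) h

theorem low_one [Semiring B] : Low (1 : HahnSeries ℝ B) 0 := fun c hc => by
  rw [HahnSeries.coeff_one, if_neg (ne_of_lt hc)]

theorem low_pow_zero [Semiring B] {x : HahnSeries ℝ B} (hx : Low x 0) (n : ℕ) : Low (x ^ n) 0 := by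
  induction n with
  | zero => simpa using low_one
  | succ n ih => rw [pow_succ]; simpa using low_mul ih hx

/-- `x = l t ^ a + …` -/
def LT [Zero B] (x : HahnSeries ℝ B) (a : ℝ) (l : B) : Prop := Low x a ∧ x.coeff a = l

theorem LT.mul [Semiring B] {x y : HahnSeries ℝ B} {a b : ℝ} {l m : B} (hx : LT x a l)
    (hy : LT y b m) : LT (x * y) (a + b) (l * m) :=
  ⟨low_mul hx.1 hy.1, by rw [coeff_mul_low hx.1 hy.1, hx.2, hy.2]⟩

theorem LT.one [Semiring B] : LT (1 : HahnSeries ℝ B) 0 1 :=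
  ⟨low_one, by rw [HahnSeries.coeff_one, if_pos rfl]⟩

theorem LT.pow [Semiring B] {x : HahnSeries ℝ B} {a : ℝ} {l : B} (hx : LT x a l) (n : ℕ) :
    LT (x ^ n) (n * a) (l ^ n) := by
  induction n with
  | zero => simpa using LT.one
  | succ n ih =>
    rw [pow_succ, pow_succ]
    have := ih.mul hx
    have e : ((n + 1 : ℕ) : ℝ) * a = n * a + a := by push_cast; ring
    rw [e]
    exact this

theorem LT.add [AddMonoid B] {x y : HahnSeries ℝ B} {a : ℝ} {l m : B} (hx : LT x a l)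
    (hy : LT y a m) : LT (x + y) a (l + m) :=
  ⟨low_add hx.1 hy.1, by rw [HahnSeries.coeff_add, hx.2, hy.2]⟩

theorem LT.add_low [AddMonoid B] {x y : HahnSeries ℝ B} {a b : ℝ} {l : B} (hx : LT x a l)
    (hy : Low y b) (hab : a < b) : LT (x + y) a l :=
  ⟨low_add hx.1 (low_mono hy hab.le), by rw [HahnSeries.coeff_add, hx.2, hy a hab, add_zero]⟩

theorem LT.lower [Zero B] {x : HahnSeries ℝ B} {a b : ℝ} {l : B} (hx : LT x a l) (hab : b < a) :
    LT x b 0 := ⟨low_mono hx.1 hab.le, hx.1 b hab⟩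

theorem LT.sum [AddCommMonoid B] {ι : Type} (s : Finset ι) {f : ι → HahnSeries ℝ B} {a : ℝ}
    {l : ι → B} (h : ∀ i ∈ s, LT (f i) a (l i)) : LT (∑ i ∈ s, f i) a (∑ i ∈ s, l i) := by
  classical
  induction s using Finset.induction_on with
  | empty => simpa using ⟨low_zero a, by simp⟩
  | insert i s hi ih =>
    rw [Finset.sum_insert hi, Finset.sum_insert hi]
    exact (h i (Finset.mem_insert_self i s)).add (ih fun j hj => h j (Finset.mem_insert_of_mem hj))

theorem LT.isUnit [CommRing B] {x : HahnSeries ℝ B} {a : ℝ} {l : B} (hx : LT x a l)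
    (hl : IsUnit l) (hl0 : l ≠ 0) : IsUnit x := by
  have h0 : x.coeff a ≠ 0 := by rw [hx.2]; exact hl0
  have hxne : x ≠ 0 := by rintro rfl; exact h0 (by simp)
  have ho : x.order = a := by
    apply le_antisymm (HahnSeries.order_le_of_coeff_ne_zero h0)
    by_contra hlt
    have hlt := not_le.mp hlt
    exact HahnSeries.coeff_order_eq_zero.not.mpr hxne (hx.1 _ hlt)
  apply HahnSeries.isUnit_of_isUnit_leadingCoeff_AddUnitOrder
  · rw [HahnSeries.leadingCoeff_eq, ho, hx.2]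
    exact hl
  · exact AddGroup.isAddUnit _

end low

section lead
variable {F : Type} [Field F]

theorem leadIn_sum (J : Finset ℕ) (T : ℕ → HahnSeries ℝ (AddMonoidAlgebra F (ℤ × ℤ)))
    (S' : Set (ℤ × ℤ))
    (hT : ∀ j ∈ J, T j = 0 ∨ ∃ (a : ℝ) (l : AddMonoidAlgebra F (ℤ × ℤ)), LT (T j) a l ∧ l ≠ 0 ∧
      ∀ m, l.coeff m ≠ 0 → m.2 = (j : ℤ) ∧ m ∈ S')
    (hne : ∃ j ∈ J, T j ≠ 0) : LeadIn (∑ j ∈ J, T j) S' := by
  classical
  have hT' : ∀ j : ℕ, ∃ (a : ℝ) (l : AddMonoidAlgebra F (ℤ × ℤ)), j ∈ J → T j ≠ 0 →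
      LT (T j) a l ∧ l ≠ 0 ∧ ∀ m, l.coeff m ≠ 0 → m.2 = (j : ℤ) ∧ m ∈ S' := by
    intro j
    by_cases hj : j ∈ J
    · rcases hT j hj with h | ⟨a, l, h⟩
      · exact ⟨0, 0, fun _ h' => absurd h h'⟩
      · exact ⟨a, l, fun _ _ => h⟩
    · exact ⟨0, 0, fun h' => absurd h' hj⟩
  choose a l hal using hT'
  obtain ⟨j1, hj1, hj1'⟩ := hne
  obtain ⟨j0, hj0, hmin⟩ := Finset.exists_min_image (J.filter fun j => T j ≠ 0) a
    ⟨j1, Finset.mem_filter.mpr ⟨hj1, hj1'⟩⟩
  rw [Finset.mem_filter] at hj0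
  set L : ℕ → AddMonoidAlgebra F (ℤ × ℤ) := fun j => if T j ≠ 0 ∧ a j = a j0 then l j else 0 with hL
  have hLT : ∀ j ∈ J, LT (T j) (a j0) (L j) := by
    intro j hj
    by_cases h : T j = 0
    · have : L j = 0 := by simp [hL, h]
      rw [this, h]
      exact ⟨low_zero _, by simp⟩
    · have hm := hmin j (Finset.mem_filter.mpr ⟨hj, h⟩)
      rcases eq_or_lt_of_le hm with h' | h'
      · have : L j = l j := by simp only [hL]; rw [if_pos ⟨h, h'.symm⟩]
        rw [this, h']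
        exact (hal j hj h).1
      · have : L j = 0 := by
          simp only [hL]; rw [if_neg]; rintro ⟨_, h2⟩; exact absurd h2 (ne_of_gt h')
        rw [this]
        exact (hal j hj h).1.lower h'
  have hLex : ∀ j ∈ J, ∀ m, (L j).coeff m ≠ 0 → m.2 = (j : ℤ) ∧ m ∈ S' := by
    intro j hj m hm
    by_cases h : T j ≠ 0 ∧ a j = a j0
    · have : L j = l j := by simp only [hL]; rw [if_pos h]
      rw [this] at hm
      exact (hal j hj h.1).2.2 m hm
    · have : L j = 0 := by simp only [hL]; rw [if_neg h]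
      rw [this] at hm
      simp at hm
  have hsum := LT.sum J hLT
  have hc : ∀ m, (∑ j ∈ J, L j).coeff m = ∑ j ∈ J, (L j).coeff m := by
    intro m
    rw [AddMonoidAlgebra.coeff_sum, Finset.sum_apply']
  refine ⟨a j0, hsum.1, ?_, ?_⟩
  · rw [hsum.2]
    have hl0 := (hal j0 hj0.1 hj0.2).2.1
    have : ∃ m, (l j0).coeff m ≠ 0 := by
      by_contra hcon
      apply hl0
      ext m
      by_contra hm
      exact hcon ⟨m, hm⟩
    obtain ⟨m, hm⟩ := this
    have hLj0 : L j0 = l j0 := if_pos ⟨hj0.2, rfl⟩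
    intro h0
    have h1 : (∑ j ∈ J, L j).coeff m = 0 := by rw [h0]; simp
    rw [hc m, Finset.sum_eq_single j0] at h1
    · rw [hLj0] at h1
      exact hm h1
    · intro j hj hne
      by_contra h2
      have e1 := (hLex j hj m h2).1
      have e2 := (hLex j0 hj0.1 m (by rw [hLj0]; exact hm)).1
      apply hne
      have : (j : ℤ) = (j0 : ℤ) := e1.symm.trans e2
      exact_mod_cast this
    · intro h; exact absurd hj0.1 h
  · rw [hsum.2]
    intro m hm
    rw [Finsupp.mem_support_iff, hc m] at hm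
    obtain ⟨j, hj, hjm⟩ := Finset.exists_ne_zero_of_sum_ne_zero hm
    exact (hLex j hj m hjm).2

theorem low_incl {c : HahnSeries ℝ F} {b : ℝ} (hc : Low c b) :
    Low (incl (M' := ℤ × ℤ) c) b := fun a ha => by
  show (c.map (AddMonoidAlgebra.singleZeroRingHom (R := F) (M := ℤ × ℤ))).coeff a = 0
  rw [HahnSeries.map_coeff, hc a ha, map_zero]

theorem low_eval {A : Polynomial (HahnSeries ℝ F)} {b : ℝ} (hA : ∀ n, Low (A.coeff n) b)
    {x : HahnSeries ℝ (AddMonoidAlgebra F (ℤ × ℤ))} (hx : Low x 0) : Low (A.eval₂ incl x) b := by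
  rw [Polynomial.eval₂_eq_sum_range]
  refine low_sum _ fun n _ => ?_
  simpa using low_mul (low_incl (hA n)) (low_pow_zero hx n)

theorem LT_tz (a : ℝ) (i m : ℤ) : LT (tz F a i m) a (AddMonoidAlgebra.single (i, m) 1) :=
  ⟨fun b hb => by rw [tz, HahnSeries.coeff_single_of_ne hb.ne], by rw [tz, HahnSeries.coeff_single_same]⟩

/-- the summand `j` -/
theorem term_LT [CharZero F] {τ S a b : ℝ} {c c' δ j : ℕ} (hτ : τ < 1 / 2)
    {x y h : HahnSeries ℝ (AddMonoidAlgebra F (ℤ × ℤ))} (hx : Low x 0)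
    (hh : LT h (S + τ) (AddMonoidAlgebra.single (0, 1) 2))
    {A B : Polynomial (HahnSeries ℝ F)} (hB : ∀ n, Low (B.coeff n) b)
    (hab : a ≤ b + 2 * c' * τ) (hcS : (c' : ℝ) < S)
    (hg : Low (A.eval₂ incl x + y * B.eval₂ incl x) a)
    (hg0 : (A.eval₂ incl x + y * B.eval₂ incl x).coeff a ≠ 0)
    (hcf : ∀ i m, cf (A.eval₂ incl x + y * B.eval₂ incl x) a i m ≠ 0 →
        m = 0 ∧ -(2 * τ * c') ≤ (i : ℝ) ∧ (i : ℝ) ≤ (2 - 2 * τ) * c')
    (hc : c' + 2 * δ * j = c) :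
    ∃ (a : ℝ) (l : AddMonoidAlgebra F (ℤ × ℤ)),
      LT ((A.eval₂ incl x + B.eval₂ incl x * (y + tz F S (-1) 1)) * h ^ j) a l ∧ l ≠ 0 ∧
      ∀ m, l.coeff m ≠ 0 → m.2 = (j : ℤ) ∧
        m ∈ {m : ℤ × ℤ | 0 ≤ m.2 ∧ -(2 * τ * (c - 2 * δ * m.2)) ≤ (m.1 : ℝ) ∧
          (m.1 : ℝ) ≤ (2 - 2 * τ) * (c - 2 * δ * m.2)} := by
  set g := A.eval₂ incl x + y * B.eval₂ incl x with hgdef
  have e : A.eval₂ incl x + B.eval₂ incl x * (y + tz F S (-1) 1)
      = g + tz F S (-1) 1 * B.eval₂ incl x := by rw [hgdef]; ring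
  have h1 : LT (g + tz F S (-1) 1 * B.eval₂ incl x) a (g.coeff a) := by
    refine LT.add_low ⟨hg, rfl⟩ (low_mul (LT_tz S (-1) 1).1 (low_eval hB hx)) ?_
    have : 2 * (c' : ℝ) * τ ≤ c' := by nlinarith [Nat.cast_nonneg (α := ℝ) c']
    linarith
  have h2 := h1.mul (hh.pow j)
  rw [← e] at h2
  have hp : (AddMonoidAlgebra.single ((0 : ℤ), (1 : ℤ)) (2 : F)) ^ j
      = AddMonoidAlgebra.single ((0 : ℤ), (j : ℤ)) ((2 : F) ^ j) := by
    rw [AddMonoidAlgebra.single_pow]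
    simp
  rw [hp] at h2
  have hco : ∀ i m : ℤ, (g.coeff a * AddMonoidAlgebra.single ((0 : ℤ), (j : ℤ)) ((2 : F) ^ j)).coeff
      (i, m) = (g.coeff a).coeff (i, m - j) * 2 ^ j := by
    intro i m
    have := AddMonoidAlgebra.coeff_mul_single_apply (g.coeff a) ((2 : F) ^ j) ((0 : ℤ), (j : ℤ)) (i, m)
    rw [this]
    congr 2
    simp [sub_eq_add_neg]
  refine ⟨_, _, h2, ?_, ?_⟩
  · have : ∃ m, (g.coeff a).coeff m ≠ 0 := by
      by_contra hcon
      apply hg0
      ext m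
      by_contra hm
      exact hcon ⟨m, hm⟩
    obtain ⟨⟨i, m⟩, him⟩ := this
    intro h0
    have := hco i (m + j)
    rw [h0] at this
    rw [add_sub_cancel_right] at this
    have h3 : (g.coeff a).coeff (i, m) * 2 ^ j ≠ 0 := mul_ne_zero him (pow_ne_zero _ two_ne_zero)
    apply h3
    rw [← this]
    simp
  · rintro ⟨i, m⟩ hm
    rw [hco] at hm
    have h4 := hcf i (m - j) (left_ne_zero_of_mul hm)
    obtain ⟨h5, h6, h7⟩ := h4
    have hmj : m = j := by linarith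
    have hcc : (c' : ℝ) = c - 2 * δ * j := by
      rw [← hc]; push_cast; ring
    refine ⟨hmj, ?_, ?_, ?_⟩
    · show 0 ≤ m
      rw [hmj]; exact_mod_cast Nat.zero_le j
    · show -(2 * τ * (c - 2 * δ * (m : ℝ))) ≤ (i : ℝ)
      rw [hmj]; push_cast; rw [← hcc]; exact h6
    · show (i : ℝ) ≤ (2 - 2 * τ) * (c - 2 * δ * (m : ℝ))
      rw [hmj]; push_cast; rw [← hcc]; exact h7

end lead

section bridge
variable {F : Type} [Field F]

open Polynomial in
/-- the polynomial of a Laurent polynomial with nonnegative exponents -/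
noncomputable def toP {K : Type} [Field K] (f : AddMonoidAlgebra K (ℤ × ℤ)) : K[X][X] :=
  ∑ m ∈ f.coeff.support, Polynomial.monomial m.2.toNat (Polynomial.monomial m.1.toNat (f.coeff m))

theorem toP_coeff {K : Type} [Field K] (f : AddMonoidAlgebra K (ℤ × ℤ))
    (hf : ∀ m ∈ f.coeff.support, 0 ≤ m.1 ∧ 0 ≤ m.2) (a b : ℕ) :
    ((toP f).coeff b).coeff a = f.coeff ((a : ℤ), (b : ℤ)) := by
  classical
  rw [toP, Polynomial.finsetSum_coeff, Polynomial.finsetSum_coeff]
  simp only [Polynomial.coeff_monomial]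
  have h1 : ∀ m ∈ f.coeff.support,
      (if m.2.toNat = b then (Polynomial.monomial m.1.toNat (f.coeff m)) else 0).coeff a
      = if m = ((a : ℤ), (b : ℤ)) then f.coeff m else 0 := by
    rintro ⟨i, j⟩ hm
    obtain ⟨hi, hj⟩ := hf _ hm
    simp only at hi hj
    by_cases h2 : j.toNat = b
    · rw [if_pos h2, Polynomial.coeff_monomial]
      by_cases h3 : i.toNat = a
      · rw [if_pos h3, if_pos]
        ext
        · show i = a
          omega
        · show j = b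
          omega
      · rw [if_neg h3, if_neg]
        intro h
        rw [Prod.mk.injEq] at h
        omega
    · rw [if_neg h2, if_neg]
      · simp
      · intro h
        rw [Prod.mk.injEq] at h
        omega
  rw [Finset.sum_congr rfl h1, Finset.sum_ite_eq']
  split_ifs with h
  · rfl
  · exact (Finsupp.notMem_support_iff.mp h).symm

theorem psi_eq (ψ : Multiplicative (ℤ × ℤ) →* HahnSeries ℝ (AddMonoidAlgebra F (ℤ × ℤ)))
    {x y : HahnSeries ℝ (AddMonoidAlgebra F (ℤ × ℤ))}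
    (hψ : ∀ a b : ℕ, ψ (Multiplicative.ofAdd ((a : ℤ), (b : ℤ))) = x ^ a * y ^ b)
    (f : AddMonoidAlgebra (HahnSeries ℝ F) (ℤ × ℤ))
    (hf : ∀ m ∈ f.coeff.support, 0 ≤ m.1 ∧ 0 ≤ m.2) :
    Psi ψ f = (toP f).eval₂ (Polynomial.eval₂RingHom incl x) y := by
  have h1 : f = ∑ m ∈ f.coeff.support, AddMonoidAlgebra.single m (f.coeff m) :=
    (AddMonoidAlgebra.sum_coeff_single f).symm
  conv_lhs => rw [h1]
  rw [map_sum, toP, Polynomial.eval₂_finsetSum]
  refine Finset.sum_congr rfl fun m hm => ?_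
  obtain ⟨hi, hj⟩ := hf m hm
  rw [Polynomial.eval₂_monomial, Polynomial.coe_eval₂RingHom, Polynomial.eval₂_monomial, Psi,
    AddMonoidAlgebra.liftNCRingHom_single]
  have h2 : m = ((m.1.toNat : ℤ), (m.2.toNat : ℤ)) := by
    ext
    · show m.1 = _
      simp [hi]
    · show m.2 = _
      simp [hj]
  have h3 := hψ m.1.toNat m.2.toNat
  rw [← h2] at h3
  rw [h3, mul_assoc]

theorem isUnit_of_LT {z : HahnSeries ℝ (AddMonoidAlgebra F (ℤ × ℤ))} {a : ℝ} {i m : ℤ}
    (hz : LT z a (AddMonoidAlgebra.single (i, m) 1)) : IsUnit z := by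
  refine hz.isUnit ?_ ?_
  · refine IsUnit.of_mul_eq_one (AddMonoidAlgebra.single (-i, -m) 1) ?_
    rw [AddMonoidAlgebra.single_mul_single]
    simp [AddMonoidAlgebra.one_def]
    rfl
  · intro h
    have := congrArg (fun z : AddMonoidAlgebra F (ℤ × ℤ) => z.coeff (i, m)) h
    simp at this

/-- the key lemma from its ingredients -/
theorem nodal_aux [CharZero F] {δ : ℕ} (hδ : 2 ≤ δ) {τ : ℝ} (h0 : 0 < τ) (h1 : τ < 1 / 2) (B : ℕ)
    {x y : HahnSeries ℝ (AddMonoidAlgebra F (ℤ × ℤ))}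
    (hxy : y ^ 2 = (x ^ 2 - incl (HahnSeries.single (1 : ℝ) (4 : F))) * (1 + x))
    (hx : LT x τ (AddMonoidAlgebra.single (1, 0) 1))
    (hy : LT y τ (AddMonoidAlgebra.single (1, 0) 1))
    (hlead : ∀ {c : ℕ} {A B : Polynomial (HahnSeries ℝ F)},
      (∀ n, A.coeff n ≠ 0 → n ≤ c) → (∀ n, B.coeff n ≠ 0 → n + δ ≤ c) → (A ≠ 0 ∨ B ≠ 0) →
      ∃ a b : ℝ, (∀ n, Low (A.coeff n) b) ∧ (∀ n, Low (B.coeff n) b) ∧ a ≤ b + 2 * c * τ ∧
        Low (A.eval₂ incl x + y * B.eval₂ incl x) a ∧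
        (A.eval₂ incl x + y * B.eval₂ incl x).coeff a ≠ 0 ∧
        ∀ i m, cf (A.eval₂ incl x + y * B.eval₂ incl x) a i m ≠ 0 →
          m = 0 ∧ -(2 * τ * c) ≤ (i : ℝ) ∧ (i : ℝ) ≤ (2 - 2 * τ) * c)
    (hdiv : ∀ {r : Polynomial (HahnSeries ℝ F)}, r.natDegree ≤ 2 * δ → ∀ {c : ℕ}
      {P : Polynomial (Polynomial (HahnSeries ℝ F))},
      (∀ a b, (P.coeff b).coeff a ≠ 0 → a + δ * b ≤ c) →
      ∃ A B : ℕ → Polynomial (HahnSeries ℝ F),
        P = ∑ j ∈ Finset.range (c + 1),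
          (Polynomial.C (A j) + Polynomial.C (B j) * Polynomial.X) *
            (Polynomial.X ^ 2 - Polynomial.C r) ^ j ∧
        (∀ j n, (A j).coeff n ≠ 0 → n + 2 * δ * j ≤ c) ∧
        (∀ j n, (B j).coeff n ≠ 0 → n + δ + 2 * δ * j ≤ c)) :
    ∃ ψ : Multiplicative (ℤ × ℤ) →* HahnSeries ℝ (AddMonoidAlgebra F (ℤ × ℤ)),
      ∀ c : ℕ, c ≤ B → Deg ψ {m | 0 ≤ m.1 ∧ 0 ≤ m.2 ∧ m.1 + δ * m.2 ≤ c}
        {m | 0 ≤ m.2 ∧ -(2 * τ * (c - 2 * δ * m.2)) ≤ (m.1 : ℝ) ∧
          (m.1 : ℝ) ≤ (2 - 2 * τ) * (c - 2 * δ * m.2)} := by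
  set S : ℝ := B + 1 with hS
  have hB0 : (0 : ℝ) ≤ B := Nat.cast_nonneg B
  have hSτ : τ < S := by rw [hS]; linarith
  set t : HahnSeries ℝ (AddMonoidAlgebra F (ℤ × ℤ)) := tz F S (-1) 1 with ht
  have htL : LT t S (AddMonoidAlgebra.single (-1, 1) 1) := LT_tz S (-1) 1
  have hY : LT (y + t) τ (AddMonoidAlgebra.single (1, 0) 1) := hy.add_low htL.1 hSτ
  obtain ⟨ux, hux⟩ := isUnit_of_LT hx
  obtain ⟨uy, huy⟩ := isUnit_of_LT hY
  let ψ : Multiplicative (ℤ × ℤ) →* HahnSeries ℝ (AddMonoidAlgebra F (ℤ × ℤ)) :=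
    { toFun := fun m => ((ux ^ (Multiplicative.toAdd m).1 * uy ^ (Multiplicative.toAdd m).2 :
        (HahnSeries ℝ (AddMonoidAlgebra F (ℤ × ℤ)))ˣ) : HahnSeries ℝ (AddMonoidAlgebra F (ℤ × ℤ)))
      map_one' := by simp
      map_mul' := fun m m' => by
        rw [toAdd_mul, Prod.fst_add, Prod.snd_add, zpow_add, zpow_add]
        simp only [Units.val_mul]
        ring }
  have hψ : ∀ a b : ℕ, ψ (Multiplicative.ofAdd ((a : ℤ), (b : ℤ))) = x ^ a * (y + t) ^ b := by
    intro a b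
    show ((ux ^ (a : ℤ) * uy ^ (b : ℤ) : (HahnSeries ℝ (AddMonoidAlgebra F (ℤ × ℤ)))ˣ) :
      HahnSeries ℝ (AddMonoidAlgebra F (ℤ × ℤ))) = _
    rw [zpow_natCast, zpow_natCast, Units.val_mul, Units.val_pow_eq_pow_val,
      Units.val_pow_eq_pow_val, hux, huy]
  -- the leading term of `h`
  have hh : LT ((y + t) ^ 2 - y ^ 2) (S + τ) (AddMonoidAlgebra.single (0, 1) 2) := by
    have e : (y + t) ^ 2 - y ^ 2 = (t * y + t * y) + t * t := by ring
    rw [e]
    have h2 := ((htL.mul hy).add (htL.mul hy)).add_low (htL.mul htL).1 (by linarith : S + τ < S + S)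
    have e2 : AddMonoidAlgebra.single ((-1 : ℤ), (1 : ℤ)) (1 : F)
          * AddMonoidAlgebra.single ((1 : ℤ), (0 : ℤ)) (1 : F)
        + AddMonoidAlgebra.single ((-1 : ℤ), (1 : ℤ)) (1 : F)
          * AddMonoidAlgebra.single ((1 : ℤ), (0 : ℤ)) (1 : F)
        = AddMonoidAlgebra.single ((0 : ℤ), (1 : ℤ)) (2 : F) := by
      rw [AddMonoidAlgebra.single_mul_single, ← AddMonoidAlgebra.single_add]
      norm_num
    rw [e2] at h2
    exact h2
  have hx0 : Low x 0 := low_mono hx.1 h0.le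
  refine ⟨ψ, fun c hc f hf0 hf => ?_⟩
  have hfn : ∀ m ∈ f.coeff.support, 0 ≤ m.1 ∧ 0 ≤ m.2 := fun m hm => ⟨(hf m hm).1, (hf m hm).2.1⟩
  rw [psi_eq ψ hψ f hfn]
  have hP : ∀ a b, ((toP f).coeff b).coeff a ≠ 0 → a + δ * b ≤ c := by
    intro a b hab
    rw [toP_coeff f hfn] at hab
    have := (hf _ (Finsupp.mem_support_iff.mpr hab)).2.2
    simp only at this
    exact_mod_cast this
  have hr : ((Polynomial.X ^ 2 - Polynomial.C (HahnSeries.single (1 : ℝ) (4 : F)))
      * (1 + Polynomial.X) : Polynomial (HahnSeries ℝ F)).natDegree ≤ 2 * δ := by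
    refine le_trans Polynomial.natDegree_mul_le ?_
    have e1 : (Polynomial.X ^ 2 - Polynomial.C (HahnSeries.single (1 : ℝ) (4 : F)) :
        Polynomial (HahnSeries ℝ F)).natDegree ≤ 2 := by
      rw [Polynomial.natDegree_X_pow_sub_C]
    have e2 : (1 + Polynomial.X : Polynomial (HahnSeries ℝ F)).natDegree ≤ 1 := by
      refine le_trans (Polynomial.natDegree_add_le _ _) ?_
      simp
    omega
  obtain ⟨A, B', hPe, hA, hB⟩ := hdiv hr hP
  have hsum : (toP f).eval₂ (Polynomial.eval₂RingHom incl x) (y + t)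
      = ∑ j ∈ Finset.range (c + 1), ((A j).eval₂ incl x + (B' j).eval₂ incl x * (y + t))
        * ((y + t) ^ 2 - y ^ 2) ^ j := by
    conv_lhs => rw [hPe]
    rw [Polynomial.eval₂_finsetSum]
    refine Finset.sum_congr rfl fun j _ => ?_
    have hc1 : (Polynomial.X ^ 2 - Polynomial.C (HahnSeries.single (1 : ℝ) (4 : F)) :
        Polynomial (HahnSeries ℝ F)).eval₂ incl x
        = x ^ 2 - incl (HahnSeries.single (1 : ℝ) (4 : F)) := by
      rw [Polynomial.eval₂_sub, Polynomial.eval₂_pow, Polynomial.eval₂_X, Polynomial.eval₂_C]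
    have hc2 : (1 + Polynomial.X : Polynomial (HahnSeries ℝ F)).eval₂ incl x = 1 + x := by
      rw [Polynomial.eval₂_add, Polynomial.eval₂_one, Polynomial.eval₂_X]
    rw [Polynomial.eval₂_mul, Polynomial.eval₂_pow, Polynomial.eval₂_add, Polynomial.eval₂_mul,
      Polynomial.eval₂_sub, Polynomial.eval₂_pow, Polynomial.eval₂_X, Polynomial.eval₂_C,
      Polynomial.eval₂_C, Polynomial.eval₂_C, Polynomial.coe_eval₂RingHom, Polynomial.eval₂_mul,
      hc1, hc2, ← hxy]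
  rw [hsum]
  have hkey : ∀ j ∈ Finset.range (c + 1), (A j ≠ 0 ∨ B' j ≠ 0) →
      ∃ (a : ℝ) (l : AddMonoidAlgebra F (ℤ × ℤ)),
      LT (((A j).eval₂ incl x + (B' j).eval₂ incl x * (y + t)) * ((y + t) ^ 2 - y ^ 2) ^ j) a l ∧
      l ≠ 0 ∧ ∀ m, l.coeff m ≠ 0 → m.2 = (j : ℤ) ∧
        m ∈ {m : ℤ × ℤ | 0 ≤ m.2 ∧ -(2 * τ * (c - 2 * δ * m.2)) ≤ (m.1 : ℝ) ∧
          (m.1 : ℝ) ≤ (2 - 2 * τ) * (c - 2 * δ * m.2)} := by
    intro j _ hne
    have hjc : 2 * δ * j ≤ c := by
      rcases hne with h | h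
      · obtain ⟨n, hn⟩ : ∃ n, (A j).coeff n ≠ 0 := by
          by_contra hcon
          apply h
          ext1 n
          by_contra hn
          exact hcon ⟨n, by simpa using hn⟩
        have := hA j n hn
        omega
      · obtain ⟨n, hn⟩ : ∃ n, (B' j).coeff n ≠ 0 := by
          by_contra hcon
          apply h
          ext1 n
          by_contra hn
          exact hcon ⟨n, by simpa using hn⟩
        have := hB j n hn
        omega
    obtain ⟨a, b, -, hBl, hab, hgl, hg0, hcf⟩ := hlead (c := c - 2 * δ * j) (A := A j) (B := B' j)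
      (fun n hn => by have := hA j n hn; omega) (fun n hn => by have := hB j n hn; omega) hne
    refine term_LT h1 hx0 hh hBl hab ?_ hgl hg0 hcf (by omega)
    have : ((c - 2 * δ * j : ℕ) : ℝ) ≤ B := by exact_mod_cast (by omega : c - 2 * δ * j ≤ B)
    rw [hS]
    linarith
  refine leadIn_sum _ _ _ (fun j hj => ?_) ?_
  · by_cases hne : A j ≠ 0 ∨ B' j ≠ 0
    · exact Or.inr (hkey j hj hne)
    · left
      push Not at hne
      rw [hne.1, hne.2]
      simp
  · have : ∃ j ∈ Finset.range (c + 1), A j ≠ 0 ∨ B' j ≠ 0 := by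
      by_contra hcon
      have hz : toP f = 0 := by
        rw [hPe]
        refine Finset.sum_eq_zero fun j hj => ?_
        have h2 : ¬ (A j ≠ 0 ∨ B' j ≠ 0) := fun h => hcon ⟨j, hj, h⟩
        push Not at h2
        rw [h2.1, h2.2]
        simp
      apply hf0
      ext1
      ext1 m
      by_contra hm
      have hm' : f.coeff m ≠ 0 := by simpa using hm
      have hms := Finsupp.mem_support_iff.mpr hm'
      obtain ⟨hi, hj⟩ := hfn m hms
      have h3 := toP_coeff f hfn m.1.toNat m.2.toNat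
      rw [hz] at h3
      have h2 : m = ((m.1.toNat : ℤ), (m.2.toNat : ℤ)) := by
        ext
        · show m.1 = _
          simp [hi]
        · show m.2 = _
          simp [hj]
      rw [← h2] at h3
      exact hm' (by rw [← h3]; simp)
    obtain ⟨j, hj, hne⟩ := this
    obtain ⟨a, l, h2, h3, -⟩ := hkey j hj hne
    refine ⟨j, hj, fun h => h3 ?_⟩
    rw [← h2.2, h]
    simp

end bridge

end Pool.Agent.TH722.PN.Tube
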