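import Mathlib
import Pool.Agent.TH722.PN.Defs
import Pool.Agent.H852.QP.HighWald

set_option autoImplicit false

/-!
# The Waldschmidt constant: upper bound by counting conditions
-/

namespace Pool.Agent.TH722.PN

open MvPolynomial Filter Topology Pool.Agent.H932R5 Pool.Agent.H852.QP

/-- Counting conditions gives a form. -/
theorem hasFormE_of_count {k : Type} [Field k] {E r m d : ℕ} (P : Fin r → Fin (E + 1) → k)
    (h : r * (m + E).choose (E + 1) < (d + E + 1).choose (E + 1)) : HasFormE P m d := by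
  have h1 := finrank_ge (K := k) d (fun _ : Fin r => m) P
  rw [Finset.sum_const, Finset.card_univ, Fintype.card_fin, smul_eq_mul] at h1
  have h2 : Vd d (fun _ : Fin r => m) P ≠ ⊥ := by
    intro h3
    rw [h3, finrank_bot] at h1
    omega
  obtain ⟨F, hF, hF0⟩ := Submodule.exists_mem_ne_zero_of_ne_bot h2
  unfold Vd at hF
  rw [Submodule.mem_inf, mem_homogeneousSubmodule, Submodule.restrictScalars_mem,
    Ideal.mem_iInf] at hF
  exact ⟨F, hF.1, hF0, hF.2⟩

/-- The numerical condition. -/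
theorem count_lt {E r m d : ℕ} {c : ℝ} (hc : 0 ≤ c) (hcr : c ^ (E + 1) = r)
    (hd : c * (m + E : ℕ) < d + 1) :
    r * (m + E).choose (E + 1) < (d + E + 1).choose (E + 1) := by
  have h1 : ((m + E).choose (E + 1) : ℝ) ≤ ((m + E : ℕ) : ℝ) ^ (E + 1) / (E + 1).factorial :=
    Nat.choose_le_pow_div (E + 1) (m + E)
  have h2 : ((d + 1 : ℕ) : ℝ) ^ (E + 1) / (E + 1).factorial ≤
      ((d + E + 1).choose (E + 1) : ℝ) := by
    have h := Nat.pow_le_choose (α := ℝ) (E + 1) (d + E + 1)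
    have e : d + E + 1 + 1 - (E + 1) = d + 1 := by omega
    rw [e] at h
    exact_mod_cast h
  have hf : (0 : ℝ) < (E + 1).factorial := by exact_mod_cast Nat.factorial_pos _
  have h3 : (c * (m + E : ℕ)) ^ (E + 1) < ((d + 1 : ℕ) : ℝ) ^ (E + 1) := by
    refine pow_lt_pow_left₀ ?_ (by positivity) (by omega)
    push_cast
    push_cast at hd
    exact hd
  have h4 : ((r * (m + E).choose (E + 1) : ℕ) : ℝ) < (((d + E + 1).choose (E + 1) : ℕ) : ℝ) := by
    refine lt_of_lt_of_le ?_ h2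
    push_cast
    calc (r : ℝ) * ((m + E).choose (E + 1) : ℝ) ≤
          r * (((m + E : ℕ) : ℝ) ^ (E + 1) / (E + 1).factorial) :=
          mul_le_mul_of_nonneg_left h1 (Nat.cast_nonneg _)
      _ = (c * (m + E : ℕ)) ^ (E + 1) / (E + 1).factorial := by
          rw [mul_pow, hcr]
          ring
      _ < ((d : ℝ) + 1) ^ (E + 1) / (E + 1).factorial := by
          refine div_lt_div_of_pos_right ?_ hf
          push_cast at h3 ⊢
          exact h3
  exact_mod_cast h4

/-- **The Waldschmidt constant.** -/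
theorem wald {k : Type} [Field k] [IsAlgClosed k] [CharZero k] {N r : ℕ} (hN : 2 ≤ N)
    (hr : 1 ≤ r) (P : Fin r → Fin N → k) (alpha : ℕ → ℕ)
    (halpha : ∀ m, alpha m = sInf {d | ∃ F : MvPolynomial (Fin (N + 1)) k, F.IsHomogeneous d ∧
      F ≠ 0 ∧ ∀ i, F ∈ (Ideal.span (Set.range fun j : Fin N =>
        MvPolynomial.X j.succ - MvPolynomial.C (P i j) * MvPolynomial.X 0) :
          Ideal (MvPolynomial (Fin (N + 1)) k)) ^ m})
    (hlow : ∀ m : ℕ, 0 < m → (m : ℝ) * (r : ℝ) ^ ((1 : ℝ) / N) ≤ alpha m) :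
    Filter.Tendsto (fun m : ℕ => (alpha m : ℝ) / m) Filter.atTop
      (nhds ((r : ℝ) ^ ((1 : ℝ) / N))) := by
  obtain ⟨E, rfl⟩ : ∃ E, N = E + 1 := ⟨N - 1, by omega⟩
  obtain ⟨c, hc⟩ : ∃ c : ℝ, c = (r : ℝ) ^ ((1 : ℝ) / ((E + 1 : ℕ) : ℝ)) := ⟨_, rfl⟩
  rw [← hc] at hlow ⊢
  have hrR : (0 : ℝ) < r := by exact_mod_cast (show 0 < r by omega)
  have hNR : (0 : ℝ) < ((E + 1 : ℕ) : ℝ) := by positivity
  have hc0 : 0 < c := by rw [hc]; positivity
  have hcr : c ^ (E + 1) = r := by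
    rw [hc, ← Real.rpow_natCast, ← Real.rpow_mul hrR.le, one_div, inv_mul_cancel₀ hNR.ne',
      Real.rpow_one]
  have hup : ∀ m : ℕ, (alpha m : ℝ) ≤ c * m + (c * E + 1) := by
    intro m
    have h1 : c * (m + E : ℕ) < (⌈c * (m + E : ℕ)⌉₊ : ℝ) + 1 :=
      lt_of_le_of_lt (Nat.le_ceil _) (lt_add_one _)
    have h2 : HasFormE P m ⌈c * (m + E : ℕ)⌉₊ := hasFormE_of_count P (count_lt hc0.le hcr h1)
    have h3 : alpha m ≤ ⌈c * (m + E : ℕ)⌉₊ := by
      rw [halpha m]
      exact Nat.sInf_le h2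
    have h4 : (⌈c * (m + E : ℕ)⌉₊ : ℝ) < c * (m + E : ℕ) + 1 := Nat.ceil_lt_add_one (by positivity)
    have h5 : (alpha m : ℝ) ≤ (⌈c * (m + E : ℕ)⌉₊ : ℝ) := by exact_mod_cast h3
    push_cast at h4
    push_cast at h5
    linarith
  have hlim : Tendsto (fun m : ℕ => c + (c * E + 1) / (m : ℝ)) atTop (𝓝 c) := by
    have h := (tendsto_const_div_atTop_nhds_zero_nat (c * E + 1)).const_add c
    rwa [add_zero] at h
  refine tendsto_of_tendsto_of_tendsto_of_le_of_le' tendsto_const_nhds hlim ?_ ?_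
  · filter_upwards [eventually_gt_atTop 0] with m hm
    have hmR : (0 : ℝ) < m := by exact_mod_cast hm
    rw [le_div_iff₀ hmR, mul_comm]
    exact hlow m hm
  · filter_upwards [eventually_gt_atTop 0] with m hm
    have hmR : (0 : ℝ) < m := by exact_mod_cast hm
    rw [div_le_iff₀ hmR, add_mul, div_mul_cancel₀ _ hmR.ne']
    exact hup m

/-- From empty systems to forms. -/
theorem noForm {k : Type} [Field k] {E r m d : ℕ} {P : Fin r → Fin (E + 1) → k}
    (h : EmptyAt (fun _ : Fin r => m) P d) :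
    ¬ ∃ F : MvPolynomial (Fin (E + 1 + 1)) k, F.IsHomogeneous d ∧ F ≠ 0 ∧
      ∀ i, F ∈ (Ideal.span (Set.range fun j : Fin (E + 1) =>
        MvPolynomial.X j.succ - MvPolynomial.C (P i j) * MvPolynomial.X 0) :
          Ideal (MvPolynomial (Fin (E + 1 + 1)) k)) ^ m :=
  not_hasFormE h

end Pool.Agent.TH722.PN
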